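import Mathlib
import Pool.Agent.K4H12.M53.Alg
import Pool.Agent.K4H12.M53.Newton

/-!
# Points on the deformed conic
-/

set_option autoImplicit false
set_option linter.all false

open NumberField IsDedekindDomain WithZero

namespace Pool.Agent.K4H53.CX.MM

open Pool.Agent.K4H12.M53

variable {K : Type} [Field K] [NumberField K] (v : HeightOneSpectrum (𝓞 K))


theorem vv_alg (y : K) : (Valued.v (algebraMap K (v.adicCompletion K) y) : (WithZero (Multiplicative ℤ))) = v.valuation K y := by
  rw [HeightOneSpectrum.algebraMap_adicCompletion]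
  exact HeightOneSpectrum.valuedAdicCompletion_eq_valuation' v y

/-- the inclusion of the integers -/
noncomputable def io : 𝓞 K →+* v.adicCompletion K :=
  (algebraMap K (v.adicCompletion K)).comp (algebraMap (𝓞 K) K)

theorem io_le (a : 𝓞 K) : (Valued.v (io v a) : (WithZero (Multiplicative ℤ))) ≤ 1 := by
  show (Valued.v (algebraMap K (v.adicCompletion K) (algebraMap (𝓞 K) K a)) : (WithZero (Multiplicative ℤ))) ≤ 1
  rw [vv_alg]
  exact v.valuation_le_one a

theorem io_lt (a : 𝓞 K) : (Valued.v (io v a) : (WithZero (Multiplicative ℤ))) < 1 ↔ a ∈ v.asIdeal := by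
  show (Valued.v (algebraMap K (v.adicCompletion K) (algebraMap (𝓞 K) K a)) : (WithZero (Multiplicative ℤ))) < 1 ↔ _
  rw [vv_alg]
  exact v.valuation_lt_one_iff_mem a

theorem approx (x : v.adicCompletion K) (hx : (Valued.v x : (WithZero (Multiplicative ℤ))) ≤ 1) :
    ∃ a : 𝓞 K, (Valued.v (x - io v a) : (WithZero (Multiplicative ℤ))) < 1 := by
  have hopen : IsOpen {y : v.adicCompletion K | Valued.v (y - x) < 1} := by
    have h1 : IsOpen {y : v.adicCompletion K | Valued.v y < 1} := by
      have h2 := Valued.isOpen_ball (v.adicCompletion K)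
        ((Valued.v (R := v.adicCompletion K)).restrict 1)
      have h3 : {y : v.adicCompletion K | Valued.v y < 1} =
          {y : v.adicCompletion K | (Valued.v (R := v.adicCompletion K)).restrict y <
            (Valued.v (R := v.adicCompletion K)).restrict 1} := by
        ext y
        change _ ↔ (Valued.v (R := v.adicCompletion K)).restrict y <
            (Valued.v (R := v.adicCompletion K)).restrict 1
        rw [Valuation.restrict_lt_iff, map_one]
        exact Iff.rfl
      rw [h3]
      exact h2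
    exact h1.preimage (continuous_id.sub continuous_const)
  obtain ⟨k, hk⟩ := (HeightOneSpectrum.denseRange_algebraMap K v).exists_mem_open hopen
    ⟨x, by simp⟩
  have hk1 : Valued.v (algebraMap K (v.adicCompletion K) k - x) < 1 := hk
  have hk2 : v.valuation K k ≤ 1 := by
    rw [← vv_alg]
    have e : algebraMap K (v.adicCompletion K) k = (algebraMap K (v.adicCompletion K) k - x) + x := by
      ring
    rw [e]
    exact (Valuation.map_add _ _ _).trans (max_le hk1.le hx)
  obtain ⟨a, ha⟩ := v.exists_valuation_sub_lt_of_integer hk2 1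
  refine ⟨a, ?_⟩
  have e : x - io v a =
      -((algebraMap K (v.adicCompletion K) k - x) + algebraMap K (v.adicCompletion K) ((a : K) - k)) := by
    rw [map_sub]
    show x - algebraMap K (v.adicCompletion K) (a : K) = _
    ring
  rw [e, Valuation.map_neg]
  refine Valuation.map_add_lt _ hk1 ?_
  rw [vv_alg]
  simpa using ha

theorem u_add {x y : v.adicCompletion K} (hx : (Valued.v x : (WithZero (Multiplicative ℤ))) = 1) (hy : (Valued.v y : (WithZero (Multiplicative ℤ))) < 1) :
    (Valued.v (x + y) : (WithZero (Multiplicative ℤ))) = 1 := by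
  rw [Valuation.map_add_eq_of_lt_left, hx]
  rw [hx]; exact hy

theorem l_mul {x y : v.adicCompletion K} (hx : (Valued.v x : (WithZero (Multiplicative ℤ))) < 1) (hy : (Valued.v y : (WithZero (Multiplicative ℤ))) ≤ 1) :
    (Valued.v (x * y) : (WithZero (Multiplicative ℤ))) < 1 := by
  rw [map_mul]
  exact (mul_le_of_le_one_right' hy).trans_lt hx

theorem l_add {x y : v.adicCompletion K} (hx : (Valued.v x : (WithZero (Multiplicative ℤ))) < 1) (hy : (Valued.v y : (WithZero (Multiplicative ℤ))) < 1) :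
    (Valued.v (x + y) : (WithZero (Multiplicative ℤ))) < 1 := (Valuation.map_add _ _ _).trans_lt (max_lt hx hy)

theorem l_sub {x y : v.adicCompletion K} (hx : (Valued.v x : (WithZero (Multiplicative ℤ))) < 1) (hy : (Valued.v y : (WithZero (Multiplicative ℤ))) < 1) :
    (Valued.v (x - y) : (WithZero (Multiplicative ℤ))) < 1 := (Valuation.map_sub _ _ _).trans_lt (max_lt hx hy)

theorem sol {π : v.adicCompletion K} (hπ : (Valued.v π : (WithZero (Multiplicative ℤ))) < 1)
    (a c u al be : v.adicCompletion K) (ia : (Valued.v a : (WithZero (Multiplicative ℤ))) ≤ 1) (ic : (Valued.v c : (WithZero (Multiplicative ℤ))) ≤ 1)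
    (iu : (Valued.v u : (WithZero (Multiplicative ℤ))) = 1) (ial : (Valued.v al : (WithZero (Multiplicative ℤ))) ≤ 1) (ibe : (Valued.v be : (WithZero (Multiplicative ℤ))) ≤ 1)
    (iD : (Valued.v (a ^ 2 + 4 * c) : (WithZero (Multiplicative ℤ))) = 1) :
    ∃ X Y : v.adicCompletion K, (Valued.v X : (WithZero (Multiplicative ℤ))) ≤ 1 ∧ (Valued.v Y : (WithZero (Multiplicative ℤ))) ≤ 1 ∧
      Y ^ 2 + a * X * Y - c * X ^ 2 + u + π * (al * X + be * Y - X ^ 3) = 0 := by
  obtain ⟨a', ha⟩ := approx v a ia
  obtain ⟨c', hc⟩ := approx v c ic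
  obtain ⟨u', hu⟩ := approx v u iu.le
  have ia' := io_le v a'
  have ic' := io_le v c'
  have iu' := io_le v u'
  have n2 : (Valued.v (2 : v.adicCompletion K) : (WithZero (Multiplicative ℤ))) ≤ 1 := by exact_mod_cast v_nat 2
  have n3 : (Valued.v (3 : v.adicCompletion K) : (WithZero (Multiplicative ℤ))) ≤ 1 := by exact_mod_cast v_nat 3
  have n4 : (Valued.v (4 : v.adicCompletion K) : (WithZero (Multiplicative ℤ))) ≤ 1 := by exact_mod_cast v_nat 4
  have hD' : a' ^ 2 + 4 * c' ∉ v.asIdeal := by
    intro h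
    rw [← io_lt] at h
    have e : a ^ 2 + 4 * c = io v (a' ^ 2 + 4 * c') + ((a - io v a') * (a + io v a') +
        (c - io v c') * 4) := by
      rw [map_add, map_mul, map_pow, map_ofNat]; ring
    rw [e] at iD
    exact absurd iD (l_add v h (l_add v (l_mul v ha (v_add ia ia')) (l_mul v hc n4))).ne
  have hu' : u' ∉ v.asIdeal := by
    intro h
    rw [← io_lt] at h
    have e : u = io v u' + (u - io v u') := by ring
    rw [e] at iu
    exact absurd iu (l_add v h hu).ne
  haveI := v.isMaximal
  letI : Field (𝓞 K ⧸ v.asIdeal) := Ideal.Quotient.field _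
  haveI : Finite (𝓞 K ⧸ v.asIdeal) := Ideal.finiteQuotientOfFreeOfNeBot v.asIdeal v.ne_bot
  obtain ⟨X', Y', e1, e2⟩ := conic (F := 𝓞 K ⧸ v.asIdeal) (Ideal.Quotient.mk _ a')
    (Ideal.Quotient.mk _ c') (Ideal.Quotient.mk _ u') (by
      intro h
      apply hD'
      rw [← Ideal.Quotient.eq_zero_iff_mem, map_add, map_mul, map_pow, map_ofNat]
      exact h) (by
      intro h
      exact hu' (Ideal.Quotient.eq_zero_iff_mem.1 h))
  obtain ⟨x, rfl⟩ := Ideal.Quotient.mk_surjective X'
  obtain ⟨y, rfl⟩ := Ideal.Quotient.mk_surjective Y'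
  have f1 : y ^ 2 + a' * x * y - c' * x ^ 2 + u' ∈ v.asIdeal := by
    rw [← Ideal.Quotient.eq_zero_iff_mem]
    simpa only [map_add, map_sub, map_mul, map_pow] using e1
  rw [← io_lt] at f1
  have iX := io_le v x
  have iY := io_le v y
  set X0 := io v x with hX0
  set Y0 := io v y with hY0
  have g0 : (Valued.v (Y0 ^ 2 + a * X0 * Y0 - c * X0 ^ 2 + u) : (WithZero (Multiplicative ℤ))) < 1 := by
    have e : Y0 ^ 2 + a * X0 * Y0 - c * X0 ^ 2 + u = io v (y ^ 2 + a' * x * y - c' * x ^ 2 + u') +
        ((a - io v a') * (X0 * Y0) - (c - io v c') * X0 ^ 2 + (u - io v u')) := by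
      simp only [map_add, map_sub, map_mul, map_pow]
      rw [hX0, hY0]; ring
    rw [e]
    refine l_add v f1 (l_add v (l_sub v (l_mul v ha (v_mul iX iY)) (l_mul v hc ?_)) hu)
    rw [pow_two]; exact v_mul iX iX
  have iX2 : (Valued.v (X0 ^ 2) : (WithZero (Multiplicative ℤ))) ≤ 1 := by rw [pow_two]; exact v_mul iX iX
  have iX3 : (Valued.v (X0 ^ 3) : (WithZero (Multiplicative ℤ))) ≤ 1 := by rw [pow_succ]; exact v_mul iX2 iX
  have iY2 : (Valued.v (Y0 ^ 2) : (WithZero (Multiplicative ℤ))) ≤ 1 := by rw [pow_two]; exact v_mul iY iY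
  have i1 : (Valued.v (1 : v.adicCompletion K) : (WithZero (Multiplicative ℤ))) ≤ 1 := by rw [map_one]
  have i0 : (Valued.v (0 : v.adicCompletion K) : (WithZero (Multiplicative ℤ))) ≤ 1 := by rw [map_zero]; exact zero_le
  haveI : CompleteSpace (v.adicCompletion K) := inferInstance
  haveI : T0Space (v.adicCompletion K) := inferInstance
  have hcase : (Valued.v (2 * Y0 + a * X0) : (WithZero (Multiplicative ℤ))) = 1 ∨ (Valued.v (a * Y0 - 2 * c * X0) : (WithZero (Multiplicative ℤ))) = 1 := by
    rcases e2 with e2 | e2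
    · left
      have h1 : 2 * y + a' * x ∉ v.asIdeal := by
        intro h
        apply e2
        rw [← Ideal.Quotient.eq_zero_iff_mem] at h
        simpa only [map_add, map_mul, map_ofNat] using h
      rw [← io_lt, not_lt] at h1
      have h2 : (Valued.v (io v (2 * y + a' * x)) : (WithZero (Multiplicative ℤ))) = 1 := le_antisymm (io_le v _) h1
      have e : 2 * Y0 + a * X0 = io v (2 * y + a' * x) + (a - io v a') * X0 := by
        simp only [map_add, map_mul, map_ofNat]
        rw [hX0, hY0]; ring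
      rw [e]
      exact u_add v h2 (l_mul v ha iX)
    · right
      have h1 : a' * y - 2 * c' * x ∉ v.asIdeal := by
        intro h
        apply e2
        rw [← Ideal.Quotient.eq_zero_iff_mem] at h
        simpa only [map_sub, map_mul, map_ofNat] using h
      rw [← io_lt, not_lt] at h1
      have h2 : (Valued.v (io v (a' * y - 2 * c' * x)) : (WithZero (Multiplicative ℤ))) = 1 := le_antisymm (io_le v _) h1
      have e : a * Y0 - 2 * c * X0 = io v (a' * y - 2 * c' * x) + ((a - io v a') * Y0 -
          (c - io v c') * (2 * X0)) := by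
        simp only [map_sub, map_mul, map_ofNat]
        rw [hX0, hY0]; ring
      rw [e]
      exact u_add v h2 (l_sub v (l_mul v ha iY) (l_mul v hc (v_mul n2 iX)))
  rcases hcase with hc1 | hc1
  · obtain ⟨z, iz, hz⟩ := newton (L := v.adicCompletion K) (c3 := 0) (c2 := 1)
      (c1 := a * X0 + π * be) (c0 := -c * X0 ^ 2 + u + π * (al * X0 - X0 ^ 3)) (z0 := Y0)
      i0 i1 (v_add (v_mul ia iX) (v_mul hπ.le ibe))
      (v_add (v_add (v_mul (by rw [Valuation.map_neg]; exact ic) iX2) iu.le)
        (v_mul hπ.le (v_sub (v_mul ial iX) iX3))) iY (by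
        have e : (0 : v.adicCompletion K) * Y0 ^ 3 + 1 * Y0 ^ 2 + (a * X0 + π * be) * Y0 +
            (-c * X0 ^ 2 + u + π * (al * X0 - X0 ^ 3)) =
            (Y0 ^ 2 + a * X0 * Y0 - c * X0 ^ 2 + u) + π * (be * Y0 + al * X0 - X0 ^ 3) := by ring
        rw [e]
        exact l_add v g0 (l_mul v hπ (v_sub (v_add (v_mul ibe iY) (v_mul ial iX)) iX3))) (by
        have e : 3 * (0 : v.adicCompletion K) * Y0 ^ 2 + 2 * 1 * Y0 + (a * X0 + π * be) =
            (2 * Y0 + a * X0) + π * be := by ring
        rw [e]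
        exact u_add v hc1 (l_mul v hπ ibe))
    refine ⟨X0, z, iX, iz, ?_⟩
    linear_combination hz
  · obtain ⟨z, iz, hz⟩ := newton (L := v.adicCompletion K) (c3 := -π) (c2 := -c)
      (c1 := a * Y0 + π * al) (c0 := Y0 ^ 2 + u + π * be * Y0) (z0 := X0)
      (by rw [Valuation.map_neg]; exact hπ.le) (by rw [Valuation.map_neg]; exact ic)
      (v_add (v_mul ia iY) (v_mul hπ.le ial))
      (v_add (v_add iY2 iu.le) (v_mul (v_mul hπ.le ibe) iY)) iX (by
        have e : -π * X0 ^ 3 + -c * X0 ^ 2 + (a * Y0 + π * al) * X0 + (Y0 ^ 2 + u + π * be * Y0) =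
            (Y0 ^ 2 + a * X0 * Y0 - c * X0 ^ 2 + u) + π * (be * Y0 + al * X0 - X0 ^ 3) := by ring
        rw [e]
        exact l_add v g0 (l_mul v hπ (v_sub (v_add (v_mul ibe iY) (v_mul ial iX)) iX3))) (by
        have e : 3 * -π * X0 ^ 2 + 2 * -c * X0 + (a * Y0 + π * al) =
            (a * Y0 - 2 * c * X0) + π * (al - 3 * X0 ^ 2) := by ring
        rw [e]
        exact u_add v hc1 (l_mul v hπ (v_sub ial (v_mul n3 iX2))))
    refine ⟨z, Y0, iz, iY, ?_⟩
    linear_combination hz

end Pool.Agent.K4H53.CX.MM
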