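import Pool.Agent.K4H53.CX.Stm
import Pool.Agent.K4H12.M53.Node
import Pool.Agent.K4H53.CX.MSol

/-!
# Ramified places of multiplicative reduction
-/

set_option autoImplicit false
set_option linter.all false

open NumberField IsDedekindDomain WithZero WeierstrassCurve WeierstrassCurve.Affine
open scoped NNReal Classical

namespace Pool.Agent.K4H53.CX.MM

open Pool.Agent.K4H12.M53

open Pool.Agent.K4H53.BSD
open Pool.Agent.Y702.G (base E0 MinimalAt)
open Pool.Agent.R425.G (cv)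
open Pool.Agent.R425 (Ev ev_of_disc unr_of_disc)


section e0

variable {k : Type} [Field k] {Γ : Type} [LinearOrderedCommGroupWithZero Γ]

/-- the subgroup of the points with nonsingular reduction, for a valuation with values in
the nonnegative real numbers -/
theorem mem_E0 {W : WeierstrassCurve ℤ} {w0 : Valuation k ℝ≥0} {v : Valuation k (WithZero (Multiplicative ℤ))}
    (hle : ∀ x y : k, w0 x ≤ w0 y ↔ v x ≤ v y) (P : (bs W k).toAffine.Point) :
    P ∈ E0 W k v ↔ In0 w0 P := by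
  have hle1 : ∀ x : k, w0 x ≤ 1 ↔ v x ≤ 1 := fun x => by
    have := hle x 1
    rwa [map_one, map_one] at this
  have hge1 : ∀ x : k, 1 ≤ w0 x ↔ 1 ≤ v x := fun x => by
    have := hle 1 x
    rwa [map_one, map_one] at this
  have hgt : ∀ x : k, 1 < w0 x ↔ 1 < v x := fun x => by
    rw [← not_le, ← not_le, hle1]
  have heq : ∀ x : k, w0 x = 1 ↔ v x = 1 := fun x => by
    rw [le_antisymm_iff, le_antisymm_iff, hle1, hge1]
  have key : ∀ P : (bs W k).toAffine.Point,
      (∀ x y h, P = Point.some x y h → 1 < v x ∨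
        v ((W.a₁ : k) * y - (3 * x ^ 2 + 2 * W.a₂ * x + W.a₄)) = 1 ∨
        v (2 * y + W.a₁ * x + W.a₃) = 1) ↔ In0 w0 P := by
    intro P
    constructor
    · intro hP x y h he
      rw [hgt, heq, heq]
      exact hP x y h he
    · intro hP x y h he
      rw [← hgt, ← heq, ← heq]
      exact hP x y h he
  constructor
  · intro hP
    have h : E0 W k v ≤ G0 W w0 := by
      unfold E0
      rw [AddSubgroup.closure_le]
      intro Q hQ
      exact (key Q).1 hQ
    exact h hP
  · intro hP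
    exact AddSubgroup.subset_closure ((key P).2 hP)

end e0

section min

variable {K : Type} [Field K] [NumberField K]

theorem int_le (v : HeightOneSpectrum (𝓞 K)) (n : ℤ) : v.valuation K (n : K) ≤ 1 :=
  Pool.Agent.Y702.Fn.int_le_one v n

/-- integers which are prime to `p` are units at the places over `p` -/
theorem unit_int {p : ℕ} (hp : p.Prime) (v : HeightOneSpectrum (𝓞 K))
    (hv : (p : 𝓞 K) ∈ v.asIdeal) {n : ℤ} (hn : ¬ (p : ℤ) ∣ n) : v.valuation K (n : K) = 1 := by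
  have e : algebraMap (𝓞 K) K ((n : ℤ) : 𝓞 K) = (n : K) := map_intCast _ _
  have h1 : v.valuation K (n : K) ≤ 1 := int_le v n
  rcases h1.lt_or_eq with h2 | h2
  · exfalso
    have h3 := v.valuation_lt_one_iff_mem (K := K) ((n : ℤ) : 𝓞 K)
    have h4 : v.valuation K (algebraMap (𝓞 K) K ((n : ℤ) : 𝓞 K)) < 1 := by rw [e]; exact h2
    have h5 := h3.1 h4
    have hcop : IsCoprime (p : ℤ) n :=
      (Nat.prime_iff_prime_int.1 hp).coprime_iff_not_dvd.2 hn
    obtain ⟨a, b, hab⟩ := hcop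
    have h6 : (1 : 𝓞 K) ∈ v.asIdeal := by
      have h7 : ((a * p + b * n : ℤ) : 𝓞 K) ∈ v.asIdeal := by
        push_cast
        exact Ideal.add_mem _ (Ideal.mul_mem_left _ _ hv) (Ideal.mul_mem_left _ _ h5)
      rw [hab] at h7
      simpa using h7
    exact v.isPrime.ne_top ((Ideal.eq_top_iff_one _).2 h6)
  · exact h2

/-- an integral equation whose `c₄` is a unit is minimal -/
theorem minimal_c4 {W : WeierstrassCurve ℤ} (v : HeightOneSpectrum (𝓞 K))
    (h4 : v.valuation K (W.c₄ : K) = 1) : MinimalAt W v := by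
  intro C i1 i2 i3 i4 i6
  set V := v.valuation K with hV
  have n : ∀ m : ℕ, V (m : K) ≤ 1 := fun m => by
    have := int_le v (m : ℤ)
    rwa [Int.cast_natCast] at this
  have n2 : V (2 : K) ≤ 1 := by exact_mod_cast n 2
  have n4 : V (4 : K) ≤ 1 := by exact_mod_cast n 4
  have n24 : V (24 : K) ≤ 1 := by exact_mod_cast n 24
  have add : ∀ {x y : K}, V x ≤ 1 → V y ≤ 1 → V (x + y) ≤ 1 := fun hx hy =>
    (Valuation.map_add _ _ _).trans (max_le hx hy)
  have sub : ∀ {x y : K}, V x ≤ 1 → V y ≤ 1 → V (x - y) ≤ 1 := fun hx hy =>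
    (Valuation.map_sub _ _ _).trans (max_le hx hy)
  have mul : ∀ {x y : K}, V x ≤ 1 → V y ≤ 1 → V (x * y) ≤ 1 := fun hx hy => by
    rw [map_mul]; exact mul_le_one' hx hy
  have pow2 : ∀ {x : K}, V x ≤ 1 → V (x ^ 2) ≤ 1 := fun hx => by rw [pow_two]; exact mul hx hx
  have ib2 : V (C • base W K).b₂ ≤ 1 := by
    rw [WeierstrassCurve.b₂]; exact add (pow2 i1) (mul n4 i2)
  have ib4 : V (C • base W K).b₄ ≤ 1 := by
    rw [WeierstrassCurve.b₄]; exact add (mul n2 i4) (mul i1 i3)
  have ic4 : V (C • base W K).c₄ ≤ 1 := by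
    rw [WeierstrassCurve.c₄]; exact sub (pow2 ib2) (mul n24 ib4)
  have hc4 : (base W K).c₄ = (W.c₄ : K) := by
    show (W.map (Int.castRingHom K)).c₄ = _
    rw [map_c₄]; rfl
  rw [variableChange_c₄, map_mul, hc4, h4, mul_one, map_pow] at ic4
  rw [variableChange_Δ, map_mul, map_pow]
  have hu : V (↑(C.u⁻¹) : K) ≤ 1 := by
    by_contra hcon
    rw [not_le] at hcon
    exact absurd ic4 (not_le.2 (one_lt_pow₀ hcon (by norm_num)))
  exact mul_le_of_le_one_left' (pow_le_one₀ zero_le hu)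

end min

section tam

variable {K : Type} [Field K] [NumberField K]

theorem even_cv {W : WeierstrassCurve ℤ} (v : HeightOneSpectrum (𝓞 K))
    (h4 : v.valuation K (W.c₄ : K) = 1) {s : K} (hs : v.valuation K s < 1) (hs0 : s ≠ 0)
    (hΔ : v.valuation K (W.Δ : K) = v.valuation K s ^ 2) : Even (cv W v) := by
  obtain ⟨w, -, hw, -⟩ := Pool.Agent.R425.exists_data v
  set k := v.adicCompletion K with hk
  haveI : CharZero k := algebraRat.charZero _
  let w0 : Valuation k ℝ≥0 := w.comap (algebraMap k (AlgebraicClosure k))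
  have hle : ∀ x y : k, w0 x ≤ w0 y ↔ (Valued.v x : (WithZero (Multiplicative ℤ))) ≤ Valued.v y := fun x y => hw x y
  have hle1 : ∀ x : k, w0 x ≤ 1 ↔ (Valued.v x : (WithZero (Multiplicative ℤ))) ≤ 1 := fun x => by
    have := hle x 1
    rwa [map_one, map_one] at this
  have hge1 : ∀ x : k, 1 ≤ w0 x ↔ (1 : (WithZero (Multiplicative ℤ))) ≤ Valued.v x := fun x => by
    have := hle 1 x
    rwa [map_one, map_one] at this
  have heq : ∀ x : k, w0 x = 1 ↔ (Valued.v x : (WithZero (Multiplicative ℤ))) = 1 := fun x => by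
    rw [le_antisymm_iff, le_antisymm_iff, hle1, hge1]
  have hlt : ∀ x : k, w0 x < 1 ↔ (Valued.v x : (WithZero (Multiplicative ℤ))) < 1 := fun x => by
    rw [← not_le, ← not_le, hge1]
  set π : k := algebraMap K k s with hπd
  have hπ : (Valued.v π : (WithZero (Multiplicative ℤ))) < 1 := by rw [hπd, vv_alg]; exact hs
  have hπ0 : π ≠ 0 := (map_ne_zero _).2 hs0
  have h4' : w0 (W.c₄ : k) = 1 := by
    rw [heq]
    have e : (W.c₄ : k) = algebraMap K k (W.c₄ : K) := (map_intCast _ _).symm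
    rw [e, vv_alg]; exact h4
  have hΔ' : w0 (W.Δ : k) = w0 π ^ 2 := by
    have e : (W.Δ : k) = algebraMap K k (W.Δ : K) := (map_intCast _ _).symm
    have h1 : (Valued.v (W.Δ : k) : (WithZero (Multiplicative ℤ))) = Valued.v (π ^ 2) := by
      rw [e, vv_alg, hΔ, map_pow, hπd, vv_alg]
    rw [← map_pow]
    exact le_antisymm ((hle _ _).2 h1.le) ((hle _ _).2 h1.ge)
  obtain ⟨P, hP, hPP⟩ := ex_pt (w := w0) ((hlt π).2 hπ) hπ0 hΔ' h4' (by
    intro a c u al be ia ic iu ial ibe iD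
    obtain ⟨X, Y, iX, iY, hE⟩ := sol v hπ a c u al be ((hle1 _).1 ia) ((hle1 _).1 ic)
      ((heq _).1 iu) ((hle1 _).1 ial) ((hle1 _).1 ibe) ((heq _).1 iD)
    exact ⟨X, Y, (hle1 _).2 iX, (hle1 _).2 iY, hE⟩)
  have hP' : P ∉ E0 W k Valued.v := fun h => hP ((mem_E0 hle P).1 h)
  have hPP' : P + P ∈ E0 W k Valued.v := (mem_E0 hle (P + P)).2 hPP
  by_contra hcon
  rw [Nat.not_even_iff_odd] at hcon
  obtain ⟨m, hm⟩ := hcon
  apply hP'
  have h2 : (2 * m + 1) • P ∈ E0 W k Valued.v := by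
    rw [← hm]
    exact AddSubgroup.nsmul_index_mem _ P
  have h3 : P = (2 * m + 1) • P - m • (P + P) := by
    rw [add_nsmul, mul_nsmul', two_nsmul, one_nsmul, nsmul_add]
    abel
  rw [h3]
  exact AddSubgroup.sub_mem _ h2 (AddSubgroup.nsmul_mem _ hPP' _)

end tam

theorem s_mult : Pool.Agent.K4H53.CX.S_MULT := by
  intro W hW K _ _ _ n hn p hp hpΔ hpc v hv
  have h4 : v.valuation K (W.c₄ : K) = 1 := unit_int hp v hv hpc
  refine ⟨minimal_c4 v h4, fun hram => ?_⟩
  have hdisc : (p : ℤ) ∣ discr K := by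
    by_contra hcon
    exact hram (unr_of_disc K hp hcon v hv)
  obtain ⟨s, hs'⟩ := ev_of_disc K hn hp hdisc v hv
  have hs : v.valuation K (p : K) = v.valuation K s ^ 2 := hs'.symm
  -- the discriminant
  obtain ⟨m, D, hD, hDp⟩ : ∃ (m : ℕ) (D : ℤ), W.Δ = (p : ℤ) ^ m * D ∧ ¬ (p : ℤ) ∣ D := by
    have hfin : FiniteMultiplicity (p : ℤ) W.Δ :=
      Int.finiteMultiplicity_iff.2 ⟨by
        rw [Int.natAbs_natCast]; exact hp.ne_one, hW⟩
    obtain ⟨D, h1, h2⟩ := hfin.exists_eq_pow_mul_and_not_dvd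
    exact ⟨_, D, h1, h2⟩
  have hm : m ≠ 0 := by
    rintro rfl
    rw [pow_zero, one_mul] at hD
    exact hDp (hD ▸ hpΔ)
  have hplt : v.valuation K (p : K) < 1 := by
    have h1 := (v.valuation_lt_one_iff_mem (K := K) (p : 𝓞 K)).2 hv
    have e : algebraMap (𝓞 K) K (p : 𝓞 K) = (p : K) := map_natCast _ _
    rw [← e]
    exact h1
  have hp0 : v.valuation K (p : K) ≠ 0 := by
    rw [Valuation.ne_zero_iff]
    exact_mod_cast hp.ne_zero
  have hslt : v.valuation K s < 1 := by
    by_contra hcon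
    rw [not_lt] at hcon
    rw [hs] at hplt
    exact absurd hplt (not_lt.2 (one_le_pow₀ hcon))
  have hs0 : s ≠ 0 := by
    rintro rfl
    rw [map_zero, zero_pow two_ne_zero] at hs
    exact hp0 hs
  refine even_cv v h4 (s := s ^ m) ?_ (pow_ne_zero m hs0) ?_
  · rw [map_pow]; exact pow_lt_one₀ zero_le hslt hm
  · rw [hD]
    push_cast
    rw [map_mul, map_pow, unit_int hp v hv hDp, mul_one, hs, map_pow, ← pow_mul, ← pow_mul,
      mul_comm]

end Pool.Agent.K4H53.CX.MM
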