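import Pool.Agent.K4H53.CX.Bw

/-!
# Sums of the boundary values
-/

set_option autoImplicit false
set_option linter.all false

open Finset

namespace Pool.Agent.K4H53.CX

open Pool.Agent.K4H53.BSR (sum_units cop_add)

lemma range_mul {M : Type*} [AddCommMonoid M] (g : ℕ → M) (l q : ℕ) :
    ∑ b ∈ range (l * q), g b = ∑ u ∈ range l, ∑ a ∈ range q, g (u * q + a) := by
  induction l with
  | zero => simp
  | succ l ih => rw [add_mul, one_mul, Finset.sum_range_add, ih, Finset.sum_range_succ]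

section

variable {B : ℚ → ℂ} (hper : ∀ r, B (r + 1) = B r)

include hper in
lemma per_nat (r : ℚ) (k : ℕ) : B (r + k) = B r := by
  induction k with
  | zero => simp
  | succ k ih => rw [Nat.cast_succ, ← add_assoc, hper, ih]

include hper in
lemma per_int (r : ℚ) (k : ℤ) : B (r + k) = B r := by
  obtain ⟨m, rfl | rfl⟩ := k.eq_nat_or_neg
  · exact_mod_cast per_nat hper r m
  · have := per_nat hper (r + (-(m : ℤ) : ℤ)) m
    rw [← this]
    congr 1
    push_cast
    ring

variable (B) in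
/-- the sum of the boundary values with denominator `q` -/
noncomputable def TT (q : ℕ) : ℂ := ∑ a ∈ range q, if Nat.Coprime a q then B ((a : ℚ) / q) else 0

include hper in
lemma T_lift (l q : ℕ) (hl : l ≠ 0) (hq : q ≠ 0) :
    ∑ a ∈ range q, (if Nat.Coprime a q then ∑ u ∈ range l, B (((a : ℚ) / q + u) / l) else 0) =
      ∑ b ∈ range (l * q), if Nat.Coprime b q then B ((b : ℚ) / ((l * q : ℕ) : ℚ)) else 0 := by
  have hq0 : (q : ℚ) ≠ 0 := by exact_mod_cast hq
  have hl0 : (l : ℚ) ≠ 0 := by exact_mod_cast hl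
  rw [range_mul, Finset.sum_comm]
  refine Finset.sum_congr rfl fun a _ => ?_
  have h1 : ∀ u, Nat.Coprime (u * q + a) q ↔ Nat.Coprime a q := fun u =>
    cop_add (Dvd.intro_left u rfl)
  simp only [h1]
  split_ifs with h
  · refine Finset.sum_congr rfl fun u _ => ?_
    congr 1
    push_cast
    field_simp
    ring
  · simp

lemma T_same {l q : ℕ} (hl : l.Prime) (hlq : l ∣ q) :
    ∑ b ∈ range (l * q), (if Nat.Coprime b q then B ((b : ℚ) / ((l * q : ℕ) : ℚ)) else 0) =
      TT B (l * q) := by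
  unfold TT
  refine Finset.sum_congr rfl fun b _ => ?_
  have h1 : Nat.Coprime b (l * q) ↔ Nat.Coprime b q := by
    rw [Nat.coprime_mul_iff_right]
    exact ⟨fun h => h.2, fun h => ⟨Nat.Coprime.coprime_dvd_right hlq h, h⟩⟩
  simp only [h1]

lemma T_split {l q : ℕ} (hl : l.Prime) (hlq : ¬ l ∣ q) (hq : q ≠ 0) :
    ∑ b ∈ range (l * q), (if Nat.Coprime b q then B ((b : ℚ) / ((l * q : ℕ) : ℚ)) else 0) =
      TT B (l * q) + TT B q := by
  have hq0 : (q : ℚ) ≠ 0 := by exact_mod_cast hq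
  have hl0 : (l : ℚ) ≠ 0 := by exact_mod_cast hl.ne_zero
  have hco : Nat.Coprime l q := (Nat.Prime.coprime_iff_not_dvd hl).2 hlq
  have h0 : ∀ b : ℕ, (if Nat.Coprime b q then B ((b : ℚ) / ((l * q : ℕ) : ℚ)) else 0) =
      (if Nat.Coprime b (l * q) then B ((b : ℚ) / ((l * q : ℕ) : ℚ)) else 0) +
      (if l ∣ b ∧ Nat.Coprime b q then B ((b : ℚ) / ((l * q : ℕ) : ℚ)) else 0) := by
    intro b
    have h1 : Nat.Coprime b (l * q) ↔ ¬ l ∣ b ∧ Nat.Coprime b q := by
      rw [Nat.coprime_mul_iff_right]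
      have : Nat.Coprime b l ↔ ¬ l ∣ b := by
        rw [Nat.coprime_comm]
        exact Nat.Prime.coprime_iff_not_dvd hl
      rw [this]
    simp only [h1]
    by_cases h2 : Nat.Coprime b q
    · by_cases h3 : l ∣ b
      · simp [h2, h3]
      · simp [h2, h3]
    · simp [h2]
  simp only [h0]
  rw [Finset.sum_add_distrib]
  congr 1
  rw [mul_comm l q, range_mul]
  unfold TT
  refine Finset.sum_congr rfl fun c _ => ?_
  rw [Finset.sum_eq_single 0]
  · have h1 : Nat.Coprime (c * l + 0) q ↔ Nat.Coprime c q := by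
      rw [add_zero, Nat.coprime_mul_iff_left]
      exact ⟨fun h => h.1, fun h => ⟨h, hco⟩⟩
    have h2 : l ∣ c * l + 0 := by rw [add_zero]; exact dvd_mul_left _ _
    simp only [h1, h2, true_and]
    split_ifs with h
    · congr 1
      push_cast
      field_simp
      ring
    · rfl
  · intro j hj hj0
    rw [if_neg]
    rintro ⟨h1, -⟩
    have h2 : l ∣ j := (Nat.dvd_add_right (dvd_mul_left l c)).1 h1
    exact hj0 (Nat.eq_zero_of_dvd_of_lt h2 (Finset.mem_range.1 hj))
  · intro h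
    exact absurd (Finset.mem_range.2 hl.pos) h

include hper in
lemma B_val (q : ℕ) [NeZero q] (k : ℤ) : B ((((k : ℤ) : ZMod q).val : ℚ) / q) = B ((k : ℚ) / q) := by
  have hq0 : (q : ℚ) ≠ 0 := Nat.cast_ne_zero.2 (NeZero.ne q)
  have h1 : ((((k : ℤ) : ZMod q).val : ℤ)) = k % q := ZMod.val_intCast k
  have h2 : (k : ℚ) / q = ((((k : ℤ) : ZMod q).val : ℚ)) / q + ((k / q : ℤ) : ℚ) := by
    have h3 : (k : ℤ) = k % q + q * (k / q) := (Int.emod_add_mul_ediv k q).symm
    rw [← h1] at h3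
    have h4 : (k : ℚ) = (((k : ℤ) : ZMod q).val : ℚ) + q * ((k / q : ℤ) : ℚ) := by exact_mod_cast h3
    field_simp
    linarith
  rw [h2, per_int hper]

lemma TT_units (q : ℕ) [NeZero q] :
    TT B q = ∑ u : (ZMod q)ˣ, B (((u : ZMod q).val : ℚ) / q) :=
  (sum_units q (fun a => B ((a : ℚ) / q))).symm

include hper in
/-- multiplication by a prime that does not divide `q` -/
lemma T_perm {l q : ℕ} (hco : Nat.Coprime l q) (hq : q ≠ 0) :
    ∑ a ∈ range q, (if Nat.Coprime a q then B ((l : ℚ) * ((a : ℚ) / q)) else 0) = TT B q := by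
  haveI : NeZero q := ⟨hq⟩
  rw [← sum_units q (fun a => B ((l : ℚ) * ((a : ℚ) / q))), TT_units]
  set ul : (ZMod q)ˣ := ZMod.unitOfCoprime l hco with hul
  rw [← Equiv.sum_comp (Equiv.mulLeft ul) (fun u : (ZMod q)ˣ => B (((u : ZMod q).val : ℚ) / q))]
  refine Finset.sum_congr rfl fun u _ => ?_
  have e1 : ((Equiv.mulLeft ul u : (ZMod q)ˣ) : ZMod q) =
      (((l * (u : ZMod q).val : ℕ) : ℤ) : ZMod q) := by
    show ((ul * u : (ZMod q)ˣ) : ZMod q) = _
    rw [Units.val_mul, hul, ZMod.coe_unitOfCoprime]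
    push_cast
    rw [ZMod.natCast_zmod_val]
  rw [e1, B_val hper]
  congr 1
  push_cast
  ring

include hper in
lemma T_dbl_odd {q : ℕ} (hodd : Odd q) :
    ∑ a ∈ range (2 * q), (if Nat.Coprime a (2 * q) then B ((a : ℚ) / (q : ℚ)) else 0) = TT B q := by
  have hq0 : (q : ℚ) ≠ 0 := by
    have : q ≠ 0 := by rintro rfl; exact absurd hodd (by decide)
    exact_mod_cast this
  unfold TT
  have h1 : range (2 * q) = range (q + q) := by rw [two_mul]
  rw [h1, Finset.sum_range_add, ← Finset.sum_add_distrib]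
  refine Finset.sum_congr rfl fun a _ => ?_
  have h2 : Nat.Coprime a (2 * q) ↔ (Odd a ∧ Nat.Coprime a q) := by
    rw [Nat.coprime_mul_iff_right, Nat.coprime_two_right]
  have h3 : Nat.Coprime (q + a) (2 * q) ↔ (Even a ∧ Nat.Coprime a q) := by
    rw [Nat.coprime_mul_iff_right, Nat.coprime_two_right, cop_add (dvd_refl q)]
    have : Odd (q + a) ↔ Even a := by
      rw [Nat.odd_add]
      exact ⟨fun h => h.1 hodd, fun h => ⟨fun _ => h, fun _ => hodd⟩⟩
    rw [this]
  have h4 : B (((q + a : ℕ) : ℚ) / q) = B ((a : ℚ) / q) := by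
    have e : ((q + a : ℕ) : ℚ) / q = (a : ℚ) / q + 1 := by
      push_cast
      field_simp
      ring
    rw [e, hper]
  rw [h4]
  by_cases h5 : Nat.Coprime a q
  · rw [if_pos h5]
    rcases Nat.even_or_odd a with h6 | h6
    · rw [if_neg (fun h => by
        have := (h2.1 h).1
        exact (Nat.not_odd_iff_even.2 h6) this), if_pos (h3.2 ⟨h6, h5⟩), zero_add]
    · rw [if_pos (h2.2 ⟨h6, h5⟩), if_neg (fun h => by
        have := (h3.1 h).1
        exact (Nat.not_even_iff_odd.2 h6) this), add_zero]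
  · rw [if_neg h5, if_neg (fun h => h5 (h2.1 h).2), if_neg (fun h => h5 (h3.1 h).2), add_zero]

include hper in
lemma T_dbl_even {q : ℕ} (heven : 2 ∣ q) (hq : q ≠ 0) :
    ∑ a ∈ range (2 * q), (if Nat.Coprime a (2 * q) then B ((a : ℚ) / (q : ℚ)) else 0) =
      2 * TT B q := by
  have hq0 : (q : ℚ) ≠ 0 := by exact_mod_cast hq
  have hc : ∀ a : ℕ, Nat.Coprime a (2 * q) ↔ Nat.Coprime a q := by
    intro a
    rw [Nat.coprime_mul_iff_right]
    exact ⟨fun h => h.2, fun h => ⟨Nat.Coprime.coprime_dvd_right heven h, h⟩⟩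
  simp only [hc]
  have h1 : range (2 * q) = range (q + q) := by rw [two_mul]
  rw [h1, Finset.sum_range_add, two_mul]
  unfold TT
  congr 1
  refine Finset.sum_congr rfl fun a _ => ?_
  have h4 : B (((q + a : ℕ) : ℚ) / q) = B ((a : ℚ) / q) := by
    have e : ((q + a : ℕ) : ℚ) / q = (a : ℚ) / q + 1 := by
      push_cast
      field_simp
      ring
    rw [e, hper]
  rw [h4]
  simp only [cop_add (dvd_refl q)]

variable {α : ℕ → ℤ} {N : ℕ}
  (hgood : ∀ p : ℕ, p.Prime → ¬ p ∣ N → ∀ r, (α p : ℂ) * B r =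
    B (p * r) + ∑ u ∈ range p, B ((r + u) / p))
  (hbad : ∀ p : ℕ, p.Prime → p ∣ N → ∀ r, (α p : ℂ) * B r = ∑ u ∈ range p, B ((r + u) / p))

lemma mul_TT (c : ℂ) (q : ℕ) :
    c * TT B q = ∑ a ∈ range q, if Nat.Coprime a q then c * B ((a : ℚ) / q) else 0 := by
  unfold TT
  rw [Finset.mul_sum]
  refine Finset.sum_congr rfl fun a _ => ?_
  split_ifs <;> simp

include hper hgood in
lemma T_good {l q : ℕ} (hl : l.Prime) (hlN : ¬ l ∣ N) (hlq : ¬ l ∣ q) (hq : q ≠ 0) :
    TT B (l * q) = ((α l : ℂ) - 2) * TT B q := by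
  have hco : Nat.Coprime l q := (Nat.Prime.coprime_iff_not_dvd hl).2 hlq
  have h1 := mul_TT (B := B) (α l : ℂ) q
  simp only [hgood l hl hlN] at h1
  have h2 : ∀ a : ℕ, (if Nat.Coprime a q then B ((l : ℚ) * ((a : ℚ) / q)) +
      ∑ u ∈ range l, B (((a : ℚ) / q + u) / l) else 0) =
      (if Nat.Coprime a q then B ((l : ℚ) * ((a : ℚ) / q)) else 0) +
      (if Nat.Coprime a q then ∑ u ∈ range l, B (((a : ℚ) / q + u) / l) else 0) := by
    intro a
    split_ifs <;> simp
  simp only [h2] at h1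
  rw [Finset.sum_add_distrib, T_perm hper hco hq, T_lift hper l q hl.ne_zero hq,
    T_split hl hlq hq] at h1
  linear_combination -h1

include hper hbad in
lemma T_bad {l q : ℕ} (hl : l.Prime) (hlN : l ∣ N) (hlq : ¬ l ∣ q) (hq : q ≠ 0) :
    TT B (l * q) = ((α l : ℂ) - 1) * TT B q := by
  have h1 := mul_TT (B := B) (α l : ℂ) q
  simp only [hbad l hl hlN] at h1
  rw [T_lift hper l q hl.ne_zero hq, T_split hl hlq hq] at h1
  linear_combination -h1

include hper hbad in
lemma T_bad' {l q : ℕ} (hl : l.Prime) (hlN : l ∣ N) (hlq : l ∣ q) (hq : q ≠ 0) :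
    TT B (l * q) = (α l : ℂ) * TT B q := by
  have h1 := mul_TT (B := B) (α l : ℂ) q
  simp only [hbad l hl hlN] at h1
  rw [T_lift hper l q hl.ne_zero hq, T_same hl hlq] at h1
  exact h1.symm

include hper hgood in
lemma T_good_four {q : ℕ} (h2N : ¬ 2 ∣ N) (hodd : Odd q) :
    TT B (2 * (2 * q)) = (α 2 : ℂ) * TT B (2 * q) - TT B q := by
  have hq : q ≠ 0 := by rintro rfl; exact absurd hodd (by decide)
  have hq0 : (q : ℚ) ≠ 0 := by exact_mod_cast hq
  have h1 := mul_TT (B := B) (α 2 : ℂ) (2 * q)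
  simp only [hgood 2 Nat.prime_two h2N] at h1
  have h2 : ∀ a : ℕ, (if Nat.Coprime a (2 * q) then B (((2 : ℕ) : ℚ) * ((a : ℚ) / ((2 * q : ℕ) : ℚ))) +
      ∑ u ∈ range 2, B (((a : ℚ) / ((2 * q : ℕ) : ℚ) + u) / ((2 : ℕ) : ℚ)) else 0) =
      (if Nat.Coprime a (2 * q) then B ((a : ℚ) / q) else 0) +
      (if Nat.Coprime a (2 * q) then ∑ u ∈ range 2, B (((a : ℚ) / ((2 * q : ℕ) : ℚ) + u) / ((2 : ℕ) : ℚ))
        else 0) := by
    intro a
    have e : ((2 : ℕ) : ℚ) * ((a : ℚ) / ((2 * q : ℕ) : ℚ)) = (a : ℚ) / q := by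
      push_cast; field_simp
    rw [e]
    split_ifs <;> simp
  simp only [h2] at h1
  rw [Finset.sum_add_distrib, T_dbl_odd hper hodd,
    T_lift hper 2 (2 * q) (by norm_num) (by omega), T_same Nat.prime_two (Dvd.intro q rfl)] at h1
  linear_combination -h1

include hper hgood in
lemma T_good_more {q : ℕ} (h2N : ¬ 2 ∣ N) (heven : 2 ∣ q) (hq : q ≠ 0) :
    TT B (2 * (2 * q)) = (α 2 : ℂ) * TT B (2 * q) - 2 * TT B q := by
  have hq0 : (q : ℚ) ≠ 0 := by exact_mod_cast hq
  have h1 := mul_TT (B := B) (α 2 : ℂ) (2 * q)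
  simp only [hgood 2 Nat.prime_two h2N] at h1
  have h2 : ∀ a : ℕ, (if Nat.Coprime a (2 * q) then B (((2 : ℕ) : ℚ) * ((a : ℚ) / ((2 * q : ℕ) : ℚ))) +
      ∑ u ∈ range 2, B (((a : ℚ) / ((2 * q : ℕ) : ℚ) + u) / ((2 : ℕ) : ℚ)) else 0) =
      (if Nat.Coprime a (2 * q) then B ((a : ℚ) / q) else 0) +
      (if Nat.Coprime a (2 * q) then ∑ u ∈ range 2, B (((a : ℚ) / ((2 * q : ℕ) : ℚ) + u) / ((2 : ℕ) : ℚ))
        else 0) := by
    intro a
    have e : ((2 : ℕ) : ℚ) * ((a : ℚ) / ((2 * q : ℕ) : ℚ)) = (a : ℚ) / q := by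
      push_cast; field_simp
    rw [e]
    split_ifs <;> simp
  simp only [h2] at h1
  rw [Finset.sum_add_distrib, T_dbl_even hper heven hq,
    T_lift hper 2 (2 * q) (by norm_num) (by omega), T_same Nat.prime_two (Dvd.intro q rfl)] at h1
  linear_combination -h1

variable (hodd : ∀ p : ℕ, p.Prime → p ∣ N → ¬ p ^ 2 ∣ N → Odd (α p))

include hper hgood hbad hodd in
/-- odd squarefree denominators -/
theorem T_sq (q : ℕ) : Squarefree q → Odd q →
    (∀ l : ℕ, l.Prime → l ∣ q → l ∣ N → ¬ l ^ 2 ∣ N) →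
    ∃ E : ℤ, TT B q = E * B 0 ∧ (Odd E ↔ ∀ l : ℕ, l.Prime → l ∣ q → ¬ l ∣ N ∧ Odd (α l)) := by
  induction q using Nat.strong_induction_on with
  | _ q ih =>
    intro hsq hqo hm
    by_cases hq1 : q = 1
    · subst hq1
      refine ⟨1, ?_, ⟨fun _ l hl h => absurd (Nat.dvd_one.1 h) hl.ne_one, fun _ => odd_one⟩⟩
      unfold TT
      simp
    · obtain ⟨l, hl, q1, hq⟩ : ∃ l, l.Prime ∧ l ∣ q := Nat.exists_prime_and_dvd hq1
      have hq0 : q ≠ 0 := hsq.ne_zero
      have hq10 : q1 ≠ 0 := by rintro rfl; exact hq0 (by rw [hq, mul_zero])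
      have hsq1 : Squarefree q1 := hsq.squarefree_of_dvd ⟨l, by rw [hq, mul_comm]⟩
      have hlq1 : ¬ l ∣ q1 := by
        intro h
        have h2 : l * l ∣ q := by rw [hq]; exact mul_dvd_mul_left l h
        exact hl.ne_one (Nat.isUnit_iff.1 (hsq l h2))
      have hlo : Odd l := by rw [hq] at hqo; exact (Nat.odd_mul.1 hqo).1
      have hq1o : Odd q1 := by rw [hq] at hqo; exact (Nat.odd_mul.1 hqo).2
      have hlt : q1 < q := by
        rw [hq]
        exact lt_mul_of_one_lt_left (Nat.pos_of_ne_zero hq10) hl.one_lt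
      obtain ⟨E, hE1, hE2⟩ := ih q1 hlt hsq1 hq1o (fun l' hl' h => hm l' hl' (by
        rw [hq]; exact h.mul_left l))
      have hall : (∀ l' : ℕ, l'.Prime → l' ∣ q → ¬ l' ∣ N ∧ Odd (α l')) ↔
          (¬ l ∣ N ∧ Odd (α l)) ∧ ∀ l' : ℕ, l'.Prime → l' ∣ q1 → ¬ l' ∣ N ∧ Odd (α l') := by
        constructor
        · intro h
          exact ⟨h l hl ⟨q1, hq⟩, fun l' hl' hd => h l' hl' (by rw [hq]; exact hd.mul_left l)⟩
        · rintro ⟨h1, h2⟩ l' hl' hd
          rw [hq] at hd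
          rcases (Nat.Prime.dvd_mul hl').1 hd with h3 | h3
          · rw [(Nat.prime_dvd_prime_iff_eq hl' hl).1 h3]
            exact h1
          · exact h2 l' hl' h3
      rw [hall, ← hE2]
      by_cases hlN : l ∣ N
      · have h2 := T_bad hper hbad hl hlN hlq1 hq10
        refine ⟨(α l - 1) * E, by rw [hq, h2, hE1]; push_cast; ring, ?_⟩
        have h3 := hodd l hl hlN (hm l hl ⟨q1, hq⟩ hlN)
        have h4 : Even (α l - 1) := h3.sub_odd odd_one
        constructor
        · intro h5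
          exact absurd (h4.mul_right E) (Int.not_even_iff_odd.2 h5)
        · rintro ⟨⟨h5, -⟩, -⟩
          exact absurd hlN h5
      · have h2 := T_good hper hgood hl hlN hlq1 hq10
        refine ⟨(α l - 2) * E, by rw [hq, h2, hE1]; push_cast; ring, ?_⟩
        rw [Int.odd_mul]
        have h3 : Odd (α l - 2) ↔ Odd (α l) := by
          constructor
          · intro h4
            have := h4.add_even even_two
            simpa using this
          · intro h4
            exact h4.sub_even even_two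
        rw [h3]
        exact ⟨fun h => ⟨⟨hlN, h.1⟩, h.2⟩, fun h => ⟨h.1.2, h.2⟩⟩

include hper hgood hbad hodd in
/-- the powers of two -/
theorem T_two {q : ℕ} (hqo : Odd q) (h2 : 2 ∣ N → ¬ 2 ^ 2 ∣ N) :
    ∀ b : ℕ, ∃ e e' : ℤ, TT B (2 ^ (b + 2) * q) = e * TT B q ∧
      (TT B (2 ^ (b + 1) * q) = e' * TT B q) ∧
      (Odd e ↔ (¬ 2 ∣ N ∧ Even (α 2)) ∧ b = 0) ∧ (1 ≤ b → Even (α 2 * e')) := by
  have hq : q ≠ 0 := by rintro rfl; exact absurd hqo (by decide)
  have h2q : ¬ 2 ∣ q := by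
    rw [← even_iff_two_dvd]
    exact Nat.not_even_iff_odd.2 hqo
  intro b
  induction b with
  | zero =>
    by_cases h2N : 2 ∣ N
    · have h3 := T_bad hper hbad Nat.prime_two h2N h2q hq
      have h4 := T_bad' hper hbad Nat.prime_two h2N (q := 2 * q) (Dvd.intro q rfl) (by omega)
      refine ⟨α 2 * (α 2 - 1), α 2 - 1, ?_, ?_, ?_, fun h => absurd h (by norm_num)⟩
      · rw [show 2 ^ (0 + 2) * q = 2 * (2 * q) by ring, h4, h3]
        push_cast; ring
      · rw [show 2 ^ (0 + 1) * q = 2 * q by ring, h3]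
        push_cast; ring
      · have h5 := hodd 2 Nat.prime_two h2N (h2 h2N)
        constructor
        · intro h6
          exact absurd ((h5.sub_odd odd_one).mul_left (α 2)) (Int.not_even_iff_odd.2 h6)
        · rintro ⟨⟨h6, -⟩, -⟩
          exact absurd h2N h6
    · have h3 := T_good hper hgood Nat.prime_two h2N h2q hq
      have h4 := T_good_four hper hgood h2N hqo
      refine ⟨α 2 * (α 2 - 2) - 1, α 2 - 2, ?_, ?_, ?_, fun h => absurd h (by norm_num)⟩
      · rw [show 2 ^ (0 + 2) * q = 2 * (2 * q) by ring, h4, h3]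
        push_cast; ring
      · rw [show 2 ^ (0 + 1) * q = 2 * q by ring, h3]
        push_cast; ring
      · constructor
        · intro h6
          refine ⟨⟨h2N, ?_⟩, rfl⟩
          by_contra h7
          rw [Int.not_even_iff_odd] at h7
          have h8 : Even (α 2 * (α 2 - 2) - 1) := (h7.mul (h7.sub_even even_two)).sub_odd odd_one
          exact absurd h8 (Int.not_even_iff_odd.2 h6)
        · rintro ⟨⟨-, h6⟩, -⟩
          exact (h6.mul_right _).sub_odd odd_one
  | succ b ih =>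
    obtain ⟨e, e', he, he', hodde, heve⟩ := ih
    by_cases h2N : 2 ∣ N
    · have h4 := T_bad' hper hbad Nat.prime_two h2N (q := 2 ^ (b + 2) * q)
        ((dvd_pow_self 2 (by omega)).mul_right q) (by positivity)
      have he2 : Even e := by
        rw [← Int.not_odd_iff_even, hodde]
        rintro ⟨⟨h6, -⟩, -⟩
        exact h6 h2N
      refine ⟨α 2 * e, e, ?_, ?_, ?_, fun _ => he2.mul_left _⟩
      · rw [show 2 ^ (b + 1 + 2) * q = 2 * (2 ^ (b + 2) * q) by ring, h4, he]
        push_cast; ring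
      · rw [show 2 ^ (b + 1 + 1) * q = 2 ^ (b + 2) * q by ring, he]
      · constructor
        · intro h6
          exact absurd (he2.mul_left (α 2)) (Int.not_even_iff_odd.2 h6)
        · rintro ⟨⟨h6, -⟩, -⟩
          exact absurd h2N h6
    · have h4 := T_good_more hper hgood h2N (q := 2 ^ (b + 1) * q)
        ((dvd_pow_self 2 (by omega)).mul_right q) (by positivity)
      have hae : Even (α 2 * e) := by
        rcases Int.even_or_odd (α 2) with h6 | h6
        · exact h6.mul_right e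
        · have : Even e := by
            rw [← Int.not_odd_iff_even, hodde]
            rintro ⟨⟨-, h7⟩, -⟩
            exact absurd h7 (Int.not_even_iff_odd.2 h6)
          exact this.mul_left _
      refine ⟨α 2 * e - 2 * e', e, ?_, ?_, ?_, fun _ => hae⟩
      · rw [show 2 ^ (b + 1 + 2) * q = 2 * (2 * (2 ^ (b + 1) * q)) by ring, h4,
          show 2 * (2 ^ (b + 1) * q) = 2 ^ (b + 2) * q by ring, he, he']
        push_cast; ring
      · rw [show 2 ^ (b + 1 + 1) * q = 2 ^ (b + 2) * q by ring, he]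
      · constructor
        · intro h6
          exact absurd (hae.sub (even_two_mul e')) (Int.not_even_iff_odd.2 h6)
        · rintro ⟨-, h6⟩
          omega

variable (α N) in
/-- the condition for the sum of the symbols with denominator `q` to be odd -/
def PQ (q : ℕ) : Prop := (∀ l : ℕ, l.Prime → l ∣ q → l ≠ 2 → ¬ l ∣ N ∧ Odd (α l)) ∧
  (2 ∣ q → ¬ 2 ∣ N ∧ Even (α 2) ∧ ¬ 8 ∣ q)

/-- the possible denominators -/
def QQ (q : ℕ) : Prop := ∃ b q' : ℕ, Odd q' ∧ Squarefree q' ∧ (q = q' ∨ q = 2 ^ (b + 2) * q')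

lemma QQ.ne_two {q : ℕ} (h : QQ q) : q ≠ 2 := by
  obtain ⟨b, q', h1, h2, h3 | h3⟩ := h
  · rintro rfl
    rw [← h3] at h1
    exact absurd h1 (by decide)
  · rintro rfl
    rw [pow_add] at h3
    have : 4 ∣ 2 := ⟨2 ^ b * q', by
      rw [show 4 * (2 ^ b * q') = 2 ^ b * 2 ^ 2 * q' by ring]; exact h3⟩
    omega

include hper hgood hbad hodd in
/-- the sum of the symbols, with the parity of the factor -/
theorem T_main (q : ℕ) (hq : QQ q) (hm : ∀ l : ℕ, l.Prime → l ∣ q → l ∣ N → ¬ l ^ 2 ∣ N) :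
    ∃ E : ℤ, TT B q = E * B 0 ∧ (Odd E ↔ PQ α N q) := by
  obtain ⟨b, q', hqo, hsq, h | h⟩ := hq
  · subst h
    obtain ⟨E, hE, hE2⟩ := T_sq hper hgood hbad hodd q hsq hqo hm
    refine ⟨E, hE, ?_⟩
    rw [hE2]
    unfold PQ
    have h2 : ¬ 2 ∣ q := by
      rw [← even_iff_two_dvd]
      exact Nat.not_even_iff_odd.2 hqo
    constructor
    · intro h
      exact ⟨fun l hl hlq _ => h l hl hlq, fun h' => absurd h' h2⟩
    · rintro ⟨h3, -⟩ l hl hlq
      exact h3 l hl hlq (by rintro rfl; exact h2 hlq)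
  · subst h
    obtain ⟨E, hE, hE2⟩ := T_sq hper hgood hbad hodd q' hsq hqo
      (fun l hl hlq => hm l hl (hlq.mul_left _))
    have h2d : 2 ∣ 2 ^ (b + 2) * q' := (dvd_pow_self 2 (by omega)).mul_right q'
    obtain ⟨e, e', he, -, hodde, -⟩ := T_two hper hgood hbad hodd hqo
      (hm 2 Nat.prime_two h2d) b
    refine ⟨e * E, by rw [he, hE]; push_cast; ring, ?_⟩
    rw [Int.odd_mul, hodde, hE2]
    unfold PQ
    have h2 : ¬ 2 ∣ q' := by
      rw [← even_iff_two_dvd]
      exact Nat.not_even_iff_odd.2 hqo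
    have h8 : ¬ 8 ∣ 2 ^ (b + 2) * q' ↔ b = 0 := by
      constructor
      · intro h
        by_contra hb
        apply h
        obtain ⟨c, rfl⟩ := Nat.exists_eq_succ_of_ne_zero hb
        exact ⟨2 ^ c * q', by rw [show c.succ + 2 = c + 3 by omega]; ring⟩
      · rintro rfl ⟨k, hk⟩
        apply h2
        exact ⟨k, by omega⟩
    rw [h8]
    constructor
    · rintro ⟨⟨⟨h3, h4⟩, h5⟩, h6⟩
      refine ⟨fun l hl hlq hl2 => ?_, fun _ => ⟨h3, h4, h5⟩⟩
      rcases (Nat.Prime.dvd_mul hl).1 hlq with h7 | h7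
      · exact absurd ((Nat.prime_dvd_prime_iff_eq hl Nat.prime_two).1 (hl.dvd_of_dvd_pow h7)) hl2
      · exact h6 l hl h7
    · rintro ⟨h3, h4⟩
      obtain ⟨h5, h6, h7⟩ := h4 h2d
      exact ⟨⟨⟨h5, h6⟩, h7⟩, fun l hl hlq => h3 l hl (hlq.mul_left _) (by rintro rfl; exact h2 hlq)⟩

end

end Pool.Agent.K4H53.CX
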