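import Pool.Agent.K4H53.CX.Stm
import Pool.Agent.K4H53.CX.Sm

/-!
# Statements of the independent parts: any cyclotomic field, and the point count at a node
-/

set_option autoImplicit false

open NumberField IsDedekindDomain WeierstrassCurve

namespace Pool.Agent.K4H53.CX

open Pool.Agent.Y702.G (pts)

/-- QQ: the conductor of a character of 2-power order is `q'` or `2^(b+2) q'` with `q'` odd and
squarefree. -/
def S_QQ : Prop := ∀ (n : ℕ) [NeZero n] (χ : DirichletCharacter ℂ n) (k : ℕ), χ ^ 2 ^ k = 1 →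
  QQ χ.conductor

/-- DISCG: the conductor-discriminant formula for the subfields of 2-power degree of any cyclotomic field.
(From `S_DISC` by `K ⊂ ℚ(ζ_n')`, `n' = 2^a rad(m)` for `n = 2^a m`.) -/
def S_DISCG : Prop := ∀ (n : ℕ) [NeZero n] (L : Type) [Field L] [NumberField L]
  [IsCyclotomicExtension {n} ℚ L] (F : IntermediateField ℚ L) (k : ℕ),
  Module.finrank ℚ F = 2 ^ k →
    (discr F).natAbs = ∏ᶠ χ : H300.HW.YY n L F, (χ : DirichletCharacter ℂ n).conductor

/-- NODE: the number of points of a nodal cubic modulo `p`. (`p = 2`: finite check as in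
`Pool.Agent.K4H53.BSR.a1_even`; `p` odd: `(x, y) ↦ (x, - y - a₁ x - a₃)` has two fixed points, the double
root and the simple root of `4 x³ + b₂ x² + 2 b₄ x + b₆`.) -/
def S_NODE : Prop := ∀ (W : WeierstrassCurve ℤ) (p : ℕ), p.Prime → (p : ℤ) ∣ W.Δ → ¬ (p : ℤ) ∣ W.c₄ →
  Odd ((p : ℤ) - pts W (ZMod p))

end Pool.Agent.K4H53.CX
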