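import Pool.Agent.H300R2.HWPoints

/-!
# Statements of the independent parts: the conductor-discriminant formula

For ALL subfields `F` of ALL cyclotomic fields `L = ℚ(ζ_n)`.  `n = p^a m`, `p ∤ m`, `H = Gal(L / F)` as a
subgroup of `(ℤ/n)ˣ`, `U_j` the units congruent to one modulo `p^j m`, `hh (p^j m) = |H ∩ U_j|`.
-/

set_option autoImplicit false

open NumberField Finset H300.HW

namespace Pool.Agent.K4H53.CX

/-- The number of the elements of `Gal(L / F)` that are congruent to one modulo `d`. -/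
noncomputable def hh (n : ℕ) [NeZero n] (L : Type) [Field L] [NumberField L]
    [IsCyclotomicExtension {n} ℚ L] (F : IntermediateField ℚ L) (d : ℕ) : ℕ :=
  Nat.card {σ : Gal(L/ℚ) // σ ∈ F.fixingSubgroup ∧
    (IsCyclotomicExtension.Rat.galEquivZMod n L σ).val.val ≡ 1 [MOD d]}

/-- DISCA, the side of the discriminant.

Proof on paper.  `𝓞 L = ℤ[ζ] = 𝓞 F[ζ]`, so the different of `L / F` is generated by `f'(ζ)`, `f` the minimal
polynomial of `ζ` over `F` (`conductor_mul_differentIdeal`, the conductor is `⊤`), and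
`f'(ζ) = ∏_{σ ∈ H, σ ≠ 1} (ζ - σ ζ)`.  Hence (`natAbs_discr_eq_absNorm_differentIdeal_mul_natAbs_discr_pow`)
`|disc L| = |disc F|^|H| ∏_{u ∈ H, u ≠ 1} |N(1 - ζ^(u - 1))|`.  `ζ^(u-1)` is a primitive root of unity of order
`n / gcd(n, u - 1)`, so `v_p N(1 - ζ^(u-1)) = φ(m) p^j` if `u ∈ U_j ∖ U_(j+1)` (`j < a`; the order is `p^(a-j)`;
`N = Φ_(p^(a-j))(1)^(φ(n) / φ(p^(a-j)))`), and `0` if `u ∉ U_0` (`Polynomial.eval_one_cyclotomic_not_prime_pow`
or another prime).  So the sum over `u` is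
`∑_{j < a} φ(m) p^j (|H ∩ U_j| - |H ∩ U_(j+1)|) = φ(m) (∑_{j < a} φ(p^j) |H ∩ U_j| - p^(a-1))` if `a ≥ 1`, and
`v_p(disc L) = a φ(n) - φ(m) p^(a-1)` (`IsCyclotomicExtension.Rat.natAbs_discr`, see
`BSR/Disc4.lean`, `disc_L2`). -/
def S_DISCA : Prop := ∀ (n : ℕ) [NeZero n] (L : Type) [Field L] [NumberField L]
  [IsCyclotomicExtension {n} ℚ L] (F : IntermediateField ℚ L) (p a m : ℕ), p.Prime → ¬ p ∣ m →
  n = p ^ a * m →
    (discr F).natAbs.factorization p * Nat.card F.fixingSubgroup +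
      m.totient * ∑ j ∈ range a, (p ^ j).totient * hh n L F (p ^ j * m) = a * n.totient

/-- CHARC, the side of the characters.

Proof on paper.  `v_p(cond χ) ≤ j` iff `cond χ ∣ p^j m` iff `χ` is trivial on `U_j`
(`DirichletCharacter.factorsThrough_iff_ker_unitsMap`, `mem_conductorSet_iff_conductor_dvd`), so
`∑_χ v_p(cond χ) = ∑_{j < a} (|Y| - #{χ ∈ Y : χ trivial on U_j})`, `Y = H^⊥`, and the number of `χ` trivial on
`H U_j` is `|G| / |H U_j| = |G| |H ∩ U_j| / (|H| |U_j|)`, `|U_j| = φ(n) / φ(p^j m)`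
(`YY` of the compositum / `H300.HW.card_YY` for the fixed field of `H U_j`). -/
def S_CHARC : Prop := ∀ (n : ℕ) [NeZero n] (L : Type) [Field L] [NumberField L]
  [IsCyclotomicExtension {n} ℚ L] (F : IntermediateField ℚ L) (p a m : ℕ), p.Prime → ¬ p ∣ m →
  n = p ^ a * m →
    (∑ᶠ χ : YY n L F, (χ : DirichletCharacter ℂ n).conductor.factorization p) *
        Nat.card F.fixingSubgroup +
      m.totient * ∑ j ∈ range a, (p ^ j).totient * hh n L F (p ^ j * m) = a * n.totient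

end Pool.Agent.K4H53.CX
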