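import Pool.Agent.K4H53.CX.Cnd
import Pool.Agent.K4H53.CX.Stm3
import Pool.Agent.K4H53.CX.Stm4

/-!
# Conductors of characters of 2-power order, and the conductor-discriminant formula
-/

set_option autoImplicit false
set_option linter.all false

open Finset
open NumberField H300.HW

namespace Pool.Agent.K4H53.CX

open Pool.Agent.K4H53.BSR (cond_mod4)

lemma pow_modEq {d p x : ℕ} (hpd : p ∣ d) (h : x ≡ 1 [MOD d]) : x ^ p ≡ 1 [MOD d * p] := by
  rw [← Int.natCast_modEq_iff] at h ⊢
  push_cast at h ⊢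
  have h1 : (d : ℤ) ∣ (x : ℤ) - 1 := (Int.modEq_iff_dvd.1 h.symm)
  have h2 : (p : ℤ) ∣ ∑ i ∈ range p, (x : ℤ) ^ i := by
    have h3 : (x : ℤ) ≡ 1 [ZMOD p] := h.of_dvd (by exact_mod_cast hpd)
    have h4 : ∑ i ∈ range p, (x : ℤ) ^ i ≡ ∑ i ∈ range p, (1 : ℤ) [ZMOD p] := by
      apply Int.ModEq.sum
      intro i _
      simpa using h3.pow i
    rw [Finset.sum_const, card_range, nsmul_eq_mul, mul_one] at h4
    have h5 : (p : ℤ) ≡ 0 [ZMOD p] := (Int.modEq_zero_iff_dvd).2 dvd_rfl
    exact (Int.modEq_zero_iff_dvd).1 (h4.trans h5)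
  have h6 := mul_dvd_mul h1 h2
  rw [mul_geom_sum] at h6
  exact (Int.modEq_iff_dvd.2 h6).symm

theorem s_qq : S_QQ := by
  intro n _ χ k hχ
  have h1 := cond_mod4 χ
  have h0 : χ.conductor ≠ 0 := χ.conductor_ne_zero
  haveI : NeZero χ.conductor := ⟨h0⟩
  obtain ⟨b, q', hq', hq⟩ := Nat.exists_eq_two_pow_mul_odd h0
  have hψ : χ.primitiveCharacter ^ 2 ^ k = 1 := by
    apply DirichletCharacter.changeLevel_injective χ.conductor_dvd_level
    rw [map_pow, DirichletCharacter.changeLevel_primitiveCharacter, hχ, map_one]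
  have hsq : Squarefree q' := by
    rw [Nat.squarefree_iff_prime_squarefree]
    intro p hp hpp
    have hp2 : p ≠ 2 := by
      rintro rfl
      have h2 : 2 ∣ q' := (Dvd.intro _ rfl).trans hpp
      obtain ⟨e, he⟩ := hq'
      omega
    have hppc : p * p ∣ χ.conductor := hpp.trans (Dvd.intro_left _ hq.symm)
    obtain ⟨r, hr⟩ := hppc
    set d := p * r with hd
    have hcd : χ.conductor = d * p := by rw [hr, hd]; ring
    have hdc : d ∣ χ.conductor := Dvd.intro _ hcd.symm
    have hfac : χ.primitiveCharacter.FactorsThrough d := by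
      rw [DirichletCharacter.factorsThrough_iff_ker_unitsMap hdc]
      intro u hu
      rw [MonoidHom.mem_ker] at hu ⊢
      have h2 : (u : ZMod χ.conductor).val ≡ 1 [MOD d] := by
        rw [Units.ext_iff, ZMod.unitsMap_val, Units.val_one, ZMod.cast_eq_val,
          ← Nat.cast_one, ZMod.natCast_eq_natCast_iff] at hu
        exact hu
      have h3 := pow_modEq (Dvd.intro _ rfl : p ∣ d) h2
      rw [← hcd] at h3
      have h4 : u ^ p = 1 := by
        apply Units.ext
        rw [Units.val_pow_eq_pow_val, Units.val_one]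
        have h5 := (ZMod.natCast_eq_natCast_iff _ _ _).2 h3
        push_cast at h5
        rwa [ZMod.natCast_zmod_val] at h5
      have h5 : (χ.primitiveCharacter.toUnitHom u) ^ p = 1 := by
        rw [← map_pow, h4, map_one]
      have h6 : (χ.primitiveCharacter.toUnitHom u) ^ 2 ^ k = 1 := by
        have h7 := congrArg (fun ψ : DirichletCharacter ℂ χ.conductor => ψ.toUnitHom u) hψ
        apply Units.ext
        have h8 := congrArg (fun z : ℂˣ => (z : ℂ)) h7
        simp only [MulChar.coe_toUnitHom] at h8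
        rw [Units.val_pow_eq_pow_val, MulChar.coe_toUnitHom, ← MulChar.pow_apply_coe, h8,
          MulChar.one_apply_coe, Units.val_one]
      have hco : Nat.Coprime p (2 ^ k) :=
        Nat.Coprime.pow_right k ((Nat.coprime_primes hp Nat.prime_two).2 hp2)
      have h7 := pow_gcd_eq_one.2 ⟨h5, h6⟩
      rwa [hco, pow_one] at h7
    have h8 := (DirichletCharacter.mem_conductorSet_iff_conductor_dvd _ hdc).1 hfac
    have h9 : χ.primitiveCharacter.conductor = χ.conductor :=
      χ.primitiveCharacter_isPrimitive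
    rw [h9, hcd] at h8
    have hd0 : 0 < d := by
      rcases Nat.eq_zero_or_pos d with h | h
      · rw [h, zero_mul] at hcd
        exact absurd hcd h0
      · exact h
    have h10 := Nat.le_of_dvd hd0 h8
    have h11 := hp.two_le
    nlinarith
  rcases b with _ | _ | b
  · exact ⟨0, q', hq', hsq, Or.inl (by rw [hq]; ring)⟩
  · exfalso
    apply h1
    obtain ⟨e, he⟩ := hq'
    rw [hq, he]
    omega
  · exact ⟨b, q', hq', hsq, Or.inr (by rw [hq])⟩

/-- **The conductor-discriminant formula** for the subfields of the cyclotomic fields. -/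
theorem disc_of (h1 : S_DISCA) (h2 : S_CHARC) (n : ℕ) [NeZero n] (L : Type) [Field L]
    [NumberField L] [IsCyclotomicExtension {n} ℚ L] (F : IntermediateField ℚ L) :
    (discr F).natAbs = ∏ᶠ χ : H300.HW.YY n L F, (χ : DirichletCharacter ℂ n).conductor := by
  classical
  have hcond : ∀ χ : DirichletCharacter ℂ n, χ.conductor ≠ 0 := fun χ => χ.conductor_ne_zero
  have : Fintype (H300.HW.YY n L F) := Fintype.ofFinite _
  have : FiniteDimensional ℚ L := inferInstance
  rw [finprod_eq_prod_of_fintype]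
  apply Nat.eq_of_factorization_eq (Int.natAbs_ne_zero.2 (discr_ne_zero F))
    (Finset.prod_ne_zero_iff.2 fun χ _ => hcond _)
  intro p
  by_cases hp : p.Prime
  swap
  · rw [Nat.factorization_eq_zero_of_not_prime _ hp, Nat.factorization_eq_zero_of_not_prime _ hp]
  obtain ⟨a, m, hm, hn⟩ := Nat.exists_eq_pow_mul_and_not_dvd (NeZero.ne n) p hp.ne_one
  have e1 := h1 n L F p a m hp hm hn
  have e2 := h2 n L F p a m hp hm hn
  rw [finsum_eq_sum_of_fintype] at e2
  rw [Nat.factorization_prod (fun χ _ => hcond _), Finsupp.finset_sum_apply]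
  have h3 : 0 < Nat.card F.fixingSubgroup := Nat.card_pos
  apply Nat.eq_of_mul_eq_mul_right h3
  omega

theorem discg_of (h1 : S_DISCA) (h2 : S_CHARC) : S_DISCG :=
  fun n _ L _ _ _ F _ _ => disc_of h1 h2 n L F

end Pool.Agent.K4H53.CX
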