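import Pool.Agent.K4H53.CX.Ldc

/-!
# The Selmer group is not trivial (two ramified): assembly
-/

set_option autoImplicit false
set_option linter.all false

open NumberField IsDedekindDomain WithZero WeierstrassCurve WeierstrassCurve.Affine
open scoped NNReal Classical

namespace Pool.Agent.K4H53.CX

open Pool.Agent.TH115.GD
open Pool.Agent.Y710.CV (Cond cond1 cond2)
open Pool.Agent.Y702.G (sh base pts)
open Pool.Agent.R425.G Pool.Agent.R425.P
open Pool.Agent.K4H53.BSR (cond_good0)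

/-- the places above two -/
theorem at_two (hD : S_DESC) (W : WeierstrassCurve ℤ) (hΔ2 : ¬ (2 : ℤ) ∣ W.Δ) (hW : W.Δ ≠ 0)
    (K : Type) [Field K] [NumberField K] {A : Type} [Field A] [NumberField A] {θ : A}
    (hcf : CF (sh W) A θ) (z : A) {X₀ d : ℤ} (h0 : cub (sh W) (X₀ : ℚ) ≠ 0)
    (p : HeightOneSpectrum (𝓞 ℚ)) (hp : ng p = 2)
    (hy : ∃ y : p.adicCompletion ℚ,
      algebraMap ℚ (p.adicCompletion ℚ) (cub (sh W) (X₀ : ℚ)) = (d : p.adicCompletion ℚ) * y ^ 2)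
    (hz : ∃ z' : A, (z' = z ∨ z' = z * ((X₀ : A) - θ) * algebraMap ℚ A (cub (sh W) (X₀ : ℚ))) ∧
        Cond (p.adicCompletion ℚ) (AlgebraicClosure (p.adicCompletion ℚ)) (sh W) θ z')
    (hu : Unr2 K d)
    (g : (AlgebraicClosure K ≃ₐ[ℚ] AlgebraicClosure K) → Pt (sh W) (AlgebraicClosure K))
    (hg : ∀ σ τ, g (σ * τ) = g σ + act (sh W) (ak σ) (g τ))
    (hloc : ∀ (L Ω' : Type) [Field L] [Field Ω'] [Algebra ℚ L] [Algebra ℚ Ω'] [Algebra L Ω']
      [IsScalarTower ℚ L Ω'] [IsAlgClosed Ω'] [IsGalois L Ω'],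
      Cond L Ω' (sh W) θ z → LocTriv (F := ℚ) (Ω := AlgebraicClosure K) (sh W) L Ω' g)
    (v : HeightOneSpectrum (𝓞 K)) (h2 : (2 : 𝓞 K) ∈ v.asIdeal) :
    LocTriv (F := ℚ) (Ω := AlgebraicClosure K) (sh W) (v.adicCompletion K)
      (AlgebraicClosure (v.adicCompletion K)) g := by
  have hV := iv_sh W hW
  haveI : CharZero (v.adicCompletion K) := algebraRat.charZero _
  haveI : IsGalois (v.adicCompletion K) (AlgebraicClosure (v.adicCompletion K)) := inferInstance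
  have hloc' := fun (L Ω' : Type) (f1 : Field L) (f2 : Field Ω') (a1 : Algebra ℚ L)
    (a2 : Algebra ℚ Ω') (a3 : Algebra L Ω') (t : IsScalarTower ℚ L Ω') (h1 : IsAlgClosed Ω')
    (h2 : IsGalois L Ω') => @hloc L Ω' f1 f2 a1 a2 a3 t h1 h2
  obtain ⟨z', hz', hc⟩ := hz
  have hpv : ((ng p : ℕ) : 𝓞 K) ∈ v.asIdeal := by
    rw [hp]
    exact_mod_cast h2
  have hcK := cond_place v p hV hcf hpv hc
  rcases hz' with rfl | rfl
  · exact hloc' _ _ _ _ _ _ _ _ inferInstance inferInstance hcK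
  · obtain ⟨y, hy⟩ := hy
    obtain ⟨j0⟩ := exists_j v p hpv
    obtain ⟨c, t, hc0, ht, hct⟩ := hu v h2
    obtain ⟨s, hs⟩ := IsAlgClosed.exists_pow_nat_eq
      (algebraMap (v.adicCompletion K) (AlgebraicClosure (v.adicCompletion K)) (d : v.adicCompletion K))
      two_pos
    obtain ⟨a, b, c', hC⟩ := Y355.G.V_roots hV.a1 hV.a3 hV.Δ
      (AlgebraicClosure (v.adicCompletion K))
    have hcL : Cond (Qe (k := v.adicCompletion K) s) (AlgebraicClosure (v.adicCompletion K)) (sh W) θ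
        (z * ((X₀ : A) - θ) * algebraMap ℚ A (cub (sh W) (X₀ : ℚ))) :=
      cond_base hcf hC (algebraMap (v.adicCompletion K) (Qe (k := v.adicCompletion K) s))
        (cond_conv _ _ _ _ _ _ hcK)
    have hcz : Cond (Qe (k := v.adicCompletion K) s) (AlgebraicClosure (v.adicCompletion K)) (sh W) θ
        z := by
      refine cond_pt hcf hV (y := (⟨s, IntermediateField.mem_adjoin_simple_self _ s⟩ :
        Qe (k := v.adicCompletion K) s) * algebraMap (v.adicCompletion K) _ (j0 y)) ?_ h0 hcL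
      apply Subtype.ext
      have h3 : ((algebraMap ℚ (Qe (k := v.adicCompletion K) s) (cub (sh W) (X₀ : ℚ)) :
          Qe (k := v.adicCompletion K) s) : AlgebraicClosure (v.adicCompletion K)) =
          algebraMap (v.adicCompletion K) (AlgebraicClosure (v.adicCompletion K))
            (j0 (algebraMap ℚ (p.adicCompletion ℚ) (cub (sh W) (X₀ : ℚ)))) := by
        simp only [eq_ratCast, map_ratCast]
        norm_cast
      rw [h3, hy, map_mul, map_pow, map_intCast, map_mul, map_pow, ← hs]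
      push_cast
      rw [mul_pow]
    refine loc_desc hD W hΔ2 K v h2 (d : v.adicCompletion K)
      (algebraMap K (v.adicCompletion K) c) (algebraMap K (v.adicCompletion K) t)
      ((_root_.map_ne_zero _).2 hc0) ?_ ?_ s hs g hg
      (hloc' _ _ _ _ _ _ _ _ inferInstance inferInstance (cond_conv _ _ _ _ _ _ hcz))
    · have h5 := v.valuedAdicCompletion_eq_valuation' t
      exact h5.trans_le ht
    · have h5 := congrArg (algebraMap K (v.adicCompletion K)) hct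
      simp only [map_mul, map_pow, map_add, map_one, map_intCast, map_ofNat] at h5
      exact h5

/-- restriction to `K` -/
theorem res_selT {K : Type} [Field K] [NumberField K] {V : WeierstrassCurve ℚ} (hS : SelT V K)
    (g : (AlgebraicClosure K ≃ₐ[ℚ] AlgebraicClosure K) → Pt V (AlgebraicClosure K))
    (hg1 : IsLocallyConstant g) (hg2 : ∀ σ τ, g (σ * τ) = g σ + act V (ak σ) (g τ))
    (hg3 : ∀ σ, g σ + g σ = 0)
    (hg4 : ∀ v : HeightOneSpectrum (𝓞 K), LocTriv (F := ℚ) (Ω := AlgebraicClosure K) V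
        (v.adicCompletion K) (AlgebraicClosure (v.adicCompletion K)) g)
    (hg5 : ∀ v : InfinitePlace K, LocTriv (F := ℚ) (Ω := AlgebraicClosure K) V
        v.Completion (AlgebraicClosure v.Completion) g) :
    ∃ T : Pt V (AlgebraicClosure K), T + T = 0 ∧
        ∀ σ : AlgebraicClosure K ≃ₐ[K] AlgebraicClosure K,
          g (σ.restrictScalars ℚ) = act V (rs ℚ σ) T - T := by
  have hcocQ : IsCoc (F := ℚ) V g := ⟨hg1, hg2⟩
  have hcoc : IsCoc (F := K) V (fun σ : AlgebraicClosure K ≃ₐ[K] AlgebraicClosure K =>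
      g (σ.restrictScalars ℚ)) := by
    refine ⟨?_, fun σ τ => hg2 (σ.restrictScalars ℚ) (τ.restrictScalars ℚ)⟩
    exact hg1.comp_continuous cont_rs
  have hloc : ∀ (L : Type) [Field L] [Algebra K L] [Algebra ℚ L] [IsScalarTower ℚ K L],
      LocTriv (F := ℚ) (Ω := AlgebraicClosure K) V L (AlgebraicClosure L) g →
      LocTriv (F := K) (Ω := AlgebraicClosure K) V L (AlgebraicClosure L)
        (fun σ : AlgebraicClosure K ≃ₐ[K] AlgebraicClosure K => g (σ.restrictScalars ℚ)) := by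
    intro L _ _ _ _ h
    haveI : Normal ℚ (AlgebraicClosure K) :=
      Pool.Agent.K4H53.BSD.normal_Q (Algebra.IsAlgebraic.trans ℚ K (AlgebraicClosure K))
    let ι : AlgebraicClosure K →ₐ[K] AlgebraicClosure L := IsAlgClosed.lift
    obtain ⟨P, hP⟩ := LocTriv.of_any V hcocQ h (ι.restrictScalars ℚ)
    exact ⟨ι, P, fun τ σ hτ => hP τ (σ.restrictScalars ℚ) hτ⟩
  exact hS _ hcoc (fun σ => hg3 _) (fun v => hloc _ (hg4 v)) (fun v => hloc _ (hg5 v))

theorem sel2_of (hpt : S_POINT) (hdesc : S_DESC) (hpig : S_PIG) (hcls : S_CLS) (hunr : S_UNR) :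
    S_SEL2 := by
  intro W hΔ2 a m n _ M _ _ _ hmo hnm K k hk hnr hcond hS
  haveI hgal : IsGalois ℚ K := Pool.Agent.Y702.L.gal_F n M K
  have hW : W.Δ ≠ 0 := by
    intro h
    rw [h] at hΔ2
    exact hΔ2 (dvd_zero _)
  -- the square root
  obtain ⟨d, hd, hu⟩ : ∃ d : ℤ, (d = 2 ∨ d = -2 ∨ (d = -1 ∧ Odd ((2 : ℤ) - pts W (ZMod 2)))) ∧
      Unr2 K d := by
    obtain ⟨h1, h2⟩ := hunr a m n M hmo hnm K
    rcases hcond with ⟨h3, h4⟩ | h3
    · obtain ⟨d, hd, hu⟩ := h1 h3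
      rcases hd with hd | hd | hd
      · exact ⟨d, Or.inl hd, hu⟩
      · exact ⟨d, Or.inr (Or.inl hd), hu⟩
      · exact ⟨d, Or.inr (Or.inr ⟨hd, h4⟩), hu⟩
    · obtain ⟨d, hd, hu⟩ := h2 h3
      rcases hd with hd | hd
      · exact ⟨d, Or.inl hd, hu⟩
      · exact ⟨d, Or.inr (Or.inl hd), hu⟩
  obtain ⟨X₀, hX0, hX⟩ := hpt W hΔ2 d hd
  have hV := iv_sh W hW
  have hnrQ : ∀ x : ℚ, cub (sh W) x ≠ 0 := by
    intro x hx
    apply hnr (algebraMap ℚ K x)
    have h := cub_map (sh W) (incl ℚ ℚ K) x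
    rw [hx, map_zero] at h
    exact h
  obtain ⟨A, hA1, hA2, θ, hcf⟩ := exists_cf hV hnrQ
  have hD0 : 2 * W.Δ ≠ 0 := mul_ne_zero two_ne_zero hW
  -- the infinite places and the class
  obtain ⟨z, r, hr0, hr, hzsq, hzv, hzc, hz2, hinf⟩ : ∃ (z : Aˣ) (r : ℚ), r ≠ 0 ∧
      Algebra.norm ℚ (z : A) = r ^ 2 ∧ (¬ ∃ s : A, (z : A) = s ^ 2) ∧
      (∀ u : HeightOneSpectrum (𝓞 A), ((2 * W.Δ : ℤ) : 𝓞 A) ∉ u.asIdeal →
        u.valuation A (z : A) = 1) ∧
      (∀ p : HeightOneSpectrum (𝓞 ℚ), (ng p : ℤ) ∣ 2 * W.Δ → ng p ≠ 2 →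
        Cond (p.adicCompletion ℚ) (AlgebraicClosure (p.adicCompletion ℚ)) (sh W) θ (z : A)) ∧
      (∀ p : HeightOneSpectrum (𝓞 ℚ), ng p = 2 →
        ∃ z' : A, (z' = z ∨ z' = z * ((X₀ : A) - θ) * algebraMap ℚ A (cub (sh W) (X₀ : ℚ))) ∧
          Cond (p.adicCompletion ℚ) (AlgebraicClosure (p.adicCompletion ℚ)) (sh W) θ z') ∧
      ∀ v : InfinitePlace K, Cond v.Completion (AlgebraicClosure v.Completion) (sh W) θ (z : A) := by
    have hloc := fun p hp => (hX p hp).2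
    rcases lt_or_gt_of_ne hW with hneg | hpos
    · obtain ⟨z0, z, hz0, hz, ⟨r, hr0, hr⟩, hzsq, hzv, hzc, hz2⟩ := hpig (sh W) A θ hcf hV
        (2 * W.Δ) hD0 (Dvd.intro _ rfl) X₀ hX0 hloc 0 (⊤ : Subgroup Aˣ)
        (by rw [Subgroup.index_top]; norm_num) (by rw [Subgroup.index_top]; norm_num)
        (by have := rank_cubic hcf.deg; omega)
      exact ⟨z, r, hr0, hr, hzsq, hzv, hzc, hz2, fun v => cond_inf hcf hneg hr0 hr v⟩
    · obtain ⟨x1, x2, x3, h12, h23, hC⟩ := exists_roots hpos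
      obtain ⟨i1, i2⟩ := RS_index hcf hpos ⟨(x2 : ℂ), hC.root_b⟩ ⟨(x3 : ℂ), hC.root_c⟩
      obtain ⟨z0, z, hz0, hz, ⟨r, hr0, hr⟩, hzsq, hzv, hzc, hz2⟩ := hpig (sh W) A θ hcf hV
        (2 * W.Δ) hD0 (Dvd.intro _ rfl) X₀ hX0 hloc 1
        (RS hcf hpos ⟨(x2 : ℂ), hC.root_b⟩ ⟨(x3 : ℂ), hC.root_c⟩) i1 i2
        (by have := rank_two hcf hpos; omega)
      have hp1 := pos_first hcf hpos hC hz0 hz
      exact ⟨z, r, hr0, hr, hzsq, hzv, hzc, hz2,
        fun v => cond_infP hcf hpos h12 h23 hC hr0 hr v fun _ => hp1⟩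
  obtain ⟨g, hg1, hg2, hg3, hg4, hg6⟩ := hcls K W hW hnr A θ hcf z r hr0 hr hzsq
  have hloc' := fun (L Ω' : Type) (f1 : Field L) (f2 : Field Ω') (a1 : Algebra ℚ L)
    (a2 : Algebra ℚ Ω') (a3 : Algebra L Ω') (t : IsScalarTower ℚ L Ω') (h1 : IsAlgClosed Ω')
    (h2 : IsGalois L Ω') => @hg4 L Ω' f1 f2 a1 a2 a3 t h1 h2
  apply hg6
  refine res_selT hS g hg1 hg2 hg3 (fun v => ?_) (fun v => ?_)
  · haveI : CharZero (v.adicCompletion K) := algebraRat.charZero _
    haveI : IsGalois (v.adicCompletion K) (AlgebraicClosure (v.adicCompletion K)) := inferInstance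
    by_cases hv : ((2 * W.Δ : ℤ) : 𝓞 K) ∈ v.asIdeal
    · obtain ⟨q, hq, hqv⟩ := exists_prime_mem v
      obtain ⟨p, rfl⟩ := exists_ng hq
      by_cases hp2 : ng p = 2
      · exact at_two hdesc W hΔ2 hW K hcf (z : A) hX0 p hp2 (hX p hp2).1 (hz2 p hp2) hu g hg2
          (fun L Ω' _ _ _ _ _ _ _ _ => hg4 L Ω') v (by rw [hp2] at hqv; exact_mod_cast hqv)
      · exact hloc' _ _ _ _ _ _ _ _ inferInstance inferInstance
          (cond_place v p hV hcf hqv (hzc p (not_both hq hqv hv) hp2))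
    · exact hloc' _ _ _ _ _ _ _ _ inferInstance inferInstance
        (cond_good0 hcf hW z.ne_zero hr hzv v hv)
  · haveI : IsGalois v.Completion (AlgebraicClosure v.Completion) := by
      haveI : CharZero v.Completion := algebraRat.charZero _
      infer_instance
    exact hloc' _ _ _ _ _ _ _ _ inferInstance inferInstance (hinf v)

end Pool.Agent.K4H53.CX
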