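import Pool.Agent.K4H53.CX.Main
import Pool.Agent.K4H53.CX.Quo
import Pool.Agent.K4H53.CX.Sel2
import Pool.Agent.K4H60.CX.Disca
import Pool.Agent.K4H11.CX.Charc
import Pool.Agent.K4H11.CX.Node
import Pool.Agent.K4H53.CX.MMult
import Pool.Agent.K4H9.SP.Main
import Pool.Agent.K4H2.CX.Desc
import Pool.Agent.K4H2.CX.Pig
import Pool.Agent.K4H2.CX.Cls
import Pool.Agent.K4H77.CX.Unr
import Pool.Agent.K4H77.CX.Eqv
import Pool.Agent.K4H49.CX.Fin

/-!
# All the parts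
-/

set_option autoImplicit false

namespace Pool.Agent.K4H53.CX

theorem pp : PP :=
  ⟨s_qq, discg_of Pool.Agent.K4H60.CX.s_disca Pool.Agent.K4H11.CX.s_charc,
    MM.s_mult,
    sel2_of Pool.Agent.K4H9.SP.s_point Pool.Agent.K4H2.CX.s_desc Pool.Agent.K4H2.CX.s_pig
      Pool.Agent.K4H2.CX.s_cls Pool.Agent.K4H77.CX.s_unr,
    Pool.Agent.K4H11.CX.s_node⟩

end Pool.Agent.K4H53.CX
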