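import Pool.Agent.K4H53.CX.Up

/-!
# The algebraic side, any abelian extension of degree a power of two
-/

set_option autoImplicit false
set_option linter.all false

open NumberField IsDedekindDomain WithZero WeierstrassCurve WeierstrassCurve.Affine
open scoped NNReal Classical

namespace Pool.Agent.K4H53.CX

open Pool.Agent.K4H53.BSD Pool.Agent.K4H53.BSR
open Pool.Agent.TH115.GD
open Pool.Agent.Y702.G (sh base pts E0 SelTriv)
open Pool.Agent.R425 (Ev ev_of_disc unr_of_disc)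
open Pool.Agent.R425.G Pool.Agent.R425.P

/-- the condition at the ramified primes of good reduction -/
def AG (W : WeierstrassCurve ℤ) (K : Type) [Field K] [NumberField K] : Prop :=
  (∀ l : ℕ, l.Prime → (l : ℤ) ∣ discr K → l ≠ 2 →
    (l : ℤ) ∣ W.Δ ∨ Odd ((l : ℤ) - pts W (ZMod l))) ∧
  ((2 : ℤ) ∣ discr K → (2 : ℤ) ∣ W.Δ ∨ (Even ((2 : ℤ) - pts W (ZMod 2)) ∧
    ¬ (2 : ℤ) ^ (Module.finrank ℚ K + 1) ∣ discr K))

lemma ak_iff (W : WeierstrassCurve ℤ) (K : Type) [Field K] [NumberField K] :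
    AK W K ↔ AG W K ∧ ∀ l : ℕ, l.Prime → (l : ℤ) ∣ discr K → ¬ (l : ℤ) ∣ W.Δ := by
  constructor
  · rintro ⟨h1, h2⟩
    refine ⟨⟨fun l hl hld hl2 => Or.inr (h1 l hl hld hl2).2, fun h => Or.inr (h2 h).2⟩, ?_⟩
    intro l hl hld
    by_cases hl2 : l = 2
    · subst hl2
      exact_mod_cast (h2 (by exact_mod_cast hld)).1
    · exact (h1 l hl hld hl2).1
  · rintro ⟨⟨h1, h2⟩, h3⟩
    refine ⟨fun l hl hld hl2 => ⟨h3 l hl hld, (h1 l hl hld hl2).resolve_left (h3 l hl hld)⟩,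
      fun h => ?_⟩
    have h4 : ¬ (2 : ℤ) ∣ W.Δ := by
      have := h3 2 Nat.prime_two (by exact_mod_cast h)
      exact_mod_cast this
    exact ⟨h4, (h2 h).resolve_left h4⟩

section main

variable (W : WeierstrassCurve ℤ) (hΔ : W.Δ ≠ 0)
  (a m n : ℕ) [NeZero n] (hmo : Odd m) (hnm : n = 2 ^ a * m) (M : Type) [Field M] [NumberField M]
  [IsCyclotomicExtension {n} ℚ M] (K : IntermediateField ℚ M) [IsGalois ℚ K]
  (hdisc : (discr K).natAbs = ∏ᶠ χ : H300.HW.YY n M K, (χ : DirichletCharacter ℂ n).conductor)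
  (k : ℕ) (hk : Module.finrank ℚ K = 2 ^ k)

include hΔ hmo hnm hdisc hk in
/-- **The algebraic side, going down.** -/
theorem alg_downC (hsel : S_SEL2) (hnr : ∀ x : ℚ, cub (sh W) x ≠ 0)
    (h : Finite (base W K).toAffine.Point ∧
        ∀ s : Pool.Agent.TH841.NF.D.Sha (base W K), 2 • s = 0 → s = 0) :
    (Finite (base W ℚ).toAffine.Point ∧
        ∀ s : Pool.Agent.TH841.NF.D.Sha (base W ℚ), 2 • s = 0 → s = 0) ∧
      (0 < W.Δ → InfinitePlace.nrComplexPlaces K = 0) ∧ AG W K := by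
  have hnrK := Pool.Agent.Y702.G.no_root (sh W) hnr K k hk
  obtain ⟨hfin, hsha⟩ := h
  have hS := selT_of W K hΔ hnrK hfin hsha
  refine ⟨⟨fin_Q W hfin, sha_two W hΔ (selT_Q W hΔ hnrK hS)⟩, ?_, ?_, ?_⟩
  · intro hpos
    by_contra hcx
    apply selT_noC W K hpos hnrK hS
    intro v hv
    apply hcx
    rw [InfinitePlace.nrComplexPlaces, Fintype.card_eq_zero_iff]
    refine ⟨fun ⟨w, hw⟩ => ?_⟩
    obtain ⟨σ, rfl⟩ := InfinitePlace.exists_smul_eq_of_comap_eq (k := ℚ) (K := K) (w := v) (w' := w)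
      (Subsingleton.elim _ _)
    exact InfinitePlace.not_isReal_iff_isComplex.2 hw (InfinitePlace.isReal_smul_iff.2 hv)
  · intro l hl hld hl2
    by_cases hlΔ : (l : ℤ) ∣ W.Δ
    · exact Or.inl hlΔ
    right
    have hco : ¬ (l : ℤ) ∣ 2 * W.Δ := by
      intro h2
      rcases (Nat.prime_iff_prime_int.1 hl).dvd_or_dvd h2 with h3 | h3
      · have h4 : l ∣ 2 := by exact_mod_cast h3
        exact hl2 ((Nat.prime_dvd_prime_iff_eq hl Nat.prime_two).1 h4)
      · exact hlΔ h3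
    by_contra hev
    obtain ⟨r, hr⟩ := Pool.Agent.R425.G.exists_root W hl hco hev
    rcases lt_or_gt_of_ne hΔ with hneg | hpos
    · exact no_root_ram W K hneg hnrK hS hl hco (ev_of_disc K hk hl hld) r hr
    · exact selT_noP W K hpos hnrK hS hl hco (ev_of_disc K hk hl hld) (Or.inl ⟨r, hr⟩)
  · intro h2d
    by_cases h2Δ : (2 : ℤ) ∣ W.Δ
    · exact Or.inl h2Δ
    right
    have h3 := mt (hsel W h2Δ a m n M hmo hnm K k hk hnrK) (not_not.2 hS)
    push Not at h3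
    obtain ⟨h4, h5⟩ := h3
    refine ⟨Int.not_odd_iff_even.1 (h4 h2d), fun h6 => ?_⟩
    obtain ⟨χ, hχ⟩ := (eight_iff a m n hmo hnm M K k hk hdisc).2 h6
    exact h5 χ hχ

include hΔ hmo hnm hdisc hk in
/-- **The algebraic side, going up.** -/
theorem alg_upC (hnr : ∀ x : ℚ, cub (sh W) x ≠ 0)
    (htam : ∀ p : HeightOneSpectrum (𝓞 ℚ), Odd (cv W p))
    (h : Finite (base W ℚ).toAffine.Point ∧
        ∀ s : Pool.Agent.TH841.NF.D.Sha (base W ℚ), 2 • s = 0 → s = 0)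
    (hcx : 0 < W.Δ → InfinitePlace.nrComplexPlaces K = 0) (hA : AK W K) :
    (Finite (base W K).toAffine.Point ∧
        ∀ s : Pool.Agent.TH841.NF.D.Sha (base W K), 2 • s = 0 → s = 0) := by
  have hco : ∀ l : ℕ, l.Prime → l ≠ 2 → (l : ℤ) ∣ discr K → ¬ (l : ℤ) ∣ 2 * W.Δ := by
    intro l hl hl2 hld h2
    rcases (Nat.prime_iff_prime_int.1 hl).dvd_or_dvd h2 with h3 | h3
    · have h4 : l ∣ 2 := by exact_mod_cast h3
      exact hl2 ((Nat.prime_dvd_prime_iff_eq hl Nat.prime_two).1 h4)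
    · exact (hA.1 l hl hld hl2).1 h3
  by_cases h2d : (2 : ℤ) ∣ discr K
  · obtain ⟨hΔ2, hss, h8⟩ := hA.2 h2d
    have ha1 : Even W.a₁ := Pool.Agent.K4H53.BSR.a1_even hΔ2 hss
    have h8' : ∀ χ : H300.HW.YY n M K, ¬ 8 ∣ (χ : DirichletCharacter ℂ n).conductor :=
      fun χ hχ => h8 ((eight_iff a m n hmo hnm M K k hk hdisc).1 ⟨χ, hχ⟩)
    have h4n : 4 ∣ n := by
      have : Fintype (H300.HW.YY n M K) := Fintype.ofFinite _
      have h5 : 2 ∣ ∏ χ : H300.HW.YY n M K, (χ : DirichletCharacter ℂ n).conductor := by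
        rw [← finprod_eq_prod_of_fintype, ← hdisc]
        exact Int.natCast_dvd.1 (by exact_mod_cast h2d)
      obtain ⟨χ, -, hχ⟩ := (Nat.Prime.prime Nat.prime_two).exists_mem_finset_dvd h5
      have h6 := cond_mod4 (χ : DirichletCharacter ℂ n)
      exact (show 4 ∣ (χ : DirichletCharacter ℂ n).conductor by omega).trans
        (χ : DirichletCharacter ℂ n).conductor_dvd_level
    obtain ⟨M4, hM4, hle⟩ := embed4 a m n hmo hnm M K h4n h8'
    have hm0 : NeZero m := ⟨by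
      rintro rfl
      exact NeZero.ne n (by rw [hnm, mul_zero])⟩
    exact alg_upG W hΔ hΔ2 ha1 m hmo M4 K (IntermediateField.inclusion hle : K →+* M4) k hk hnr
      hco htam h ⟨hcx, fun l hl hl2 hld => (hA.1 l hl hld hl2).2⟩
  · refine alg_up W hΔ hnr K k hk (fun l hl hld => ?_) htam h ⟨hcx, fun l hl hld => ?_⟩
    · refine hco l hl ?_ hld
      rintro rfl
      exact h2d (by exact_mod_cast hld)
    · refine (hA.1 l hl hld ?_).2
      rintro rfl
      exact h2d (by exact_mod_cast hld)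

end main

end Pool.Agent.K4H53.CX
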