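import Pool.Agent.K4H53.CX.Stm

/-!
# The boundary values at all cusps: Hecke relations and integrality
-/

set_option autoImplicit false
set_option linter.all false

open Filter Topology MeasureTheory Set UpperHalfPlane MatrixGroups CongruenceSubgroup Finset

namespace Pool.Agent.K4H53.CX

open Pool.Agent.Y18.BSD (co PG HRel Cf tm prim_hecke prim_period prim_hasSum sum_exp hs_congr)
open Pool.Agent.TH940 (prim Fr)

variable {N : ℕ} [NeZero N] {f : CuspForm (Gamma0 N : Subgroup (GL (Fin 2) ℝ)) 2}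

lemma bw_period (hlim : S_LIM) (f : CuspForm (Gamma0 N : Subgroup (GL (Fin 2) ℝ)) 2) (r : ℚ) :
    bw f (r + 1) = bw f r := by
  unfold bw
  congr 1
  funext y
  rw [← prim_period f ((r : ℂ) + (y : ℂ) * Complex.I)]
  congr 1
  push_cast
  ring

lemma bw_add_nat (hlim : S_LIM) (f : CuspForm (Gamma0 N : Subgroup (GL (Fin 2) ℝ)) 2) (r : ℚ) (k : ℕ) :
    bw f (r + k) = bw f r := by
  induction k with
  | zero => simp
  | succ k ih => rw [Nat.cast_succ, ← add_assoc, bw_period hlim, ih]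

lemma bw_add_int (hlim : S_LIM) (f : CuspForm (Gamma0 N : Subgroup (GL (Fin 2) ℝ)) 2) (r : ℚ) (k : ℤ) :
    bw f (r + k) = bw f r := by
  obtain ⟨m, rfl | rfl⟩ := k.eq_nat_or_neg
  · exact_mod_cast bw_add_nat hlim f r m
  · have := bw_add_nat hlim f (r + (-(m : ℤ) : ℤ)) m
    rw [← this]
    congr 1
    push_cast
    ring

lemma HRel.coeff' (hf : HRel f) {p : ℕ} (hp : p.Prime) (hpN : p ∣ N) (m : ℕ) (hm : m ≠ 0) :
    co f (p * m) = co f p * co f m := by
  obtain ⟨k, m', hm', rfl⟩ := Nat.exists_eq_pow_mul_and_not_dvd hm p hp.ne_one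
  have hco : Nat.Coprime p m' := (Nat.Prime.coprime_iff_not_dvd hp).2 hm'
  rcases k with _ | k
  · rw [pow_zero, one_mul, hf.mul p m' hco]
  · have h3 : p * (p ^ (k + 1) * m') = p ^ (k + 2) * m' := by ring
    rw [h3, hf.mul _ _ (Nat.Coprime.pow_left _ hco), hf.mul _ _ (Nat.Coprime.pow_left _ hco),
      hf.pow p k hp, if_pos hpN]
    ring

/-- the operator `U_p` -/
lemma prim_U (hf : HRel f) {p : ℕ} (hp : p.Prime) (hpN : p ∣ N) (z : ℂ) (hz : 0 < z.im) :
    co f p * prim f z = ∑ j ∈ Finset.range p, prim f ((z + j) / p) := by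
  have hp0 : 0 < p := hp.pos
  have hpr : (0 : ℝ) < p := by exact_mod_cast hp0
  have hpc : (p : ℂ) ≠ 0 := by exact_mod_cast hp0.ne'
  have hc0 : co f 0 = 0 := W388.coeff_zero f
  have hinj : Function.Injective (fun n : ℕ => p * n) := fun a b h => Nat.eq_of_mul_eq_mul_left hp0 h
  have him2 : ∀ j : ℕ, 0 < ((z + j) / (p : ℂ)).im := by
    intro j
    have e : ((z + j) / (p : ℂ)).im = z.im / p := by
      rw [show ((p : ℂ)) = ((p : ℝ) : ℂ) by push_cast; rfl, Complex.div_ofReal_im]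
      simp
    rw [e]
    positivity
  have h3 : HasSum (fun n : ℕ => ∑ j ∈ Finset.range p, co f n / n *
      Complex.exp (2 * Real.pi * Complex.I * n * ((z + j) / p)))
      (∑ j ∈ Finset.range p, prim f ((z + j) / p)) :=
    hasSum_sum fun j _ => prim_hasSum f _ (him2 j)
  have e4 : ∀ n : ℕ, ∑ j ∈ Finset.range p, co f n / n *
      Complex.exp (2 * Real.pi * Complex.I * n * ((z + j) / p)) =
      co f n / n * Complex.exp (2 * Real.pi * Complex.I * n * (z / p)) *
        (if p ∣ n then (p : ℂ) else 0) := by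
    intro n
    rw [← sum_exp p hp0 n, Finset.mul_sum]
    refine Finset.sum_congr rfl fun j _ => ?_
    rw [mul_assoc (co f n / n), ← Complex.exp_add]
    congr 2
    ring
  simp only [e4] at h3
  have h5 : HasSum (fun m : ℕ => co f (p * m) / ((p * m : ℕ) : ℂ) *
      Complex.exp (2 * Real.pi * Complex.I * m * z) * p)
      (∑ j ∈ Finset.range p, prim f ((z + j) / p)) := by
    rw [← hinj.hasSum_iff] at h3
    · refine hs_congr h3 fun m => ?_
      simp only [Function.comp_apply]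
      rw [if_pos (dvd_mul_right p m)]
      congr 3
      push_cast
      field_simp
    · intro m hm
      rw [if_neg, mul_zero]
      rintro ⟨k, rfl⟩
      exact hm ⟨k, rfl⟩
  have h6 := (prim_hasSum f z hz).mul_left (co f p)
  refine h6.unique (hs_congr h5 fun m => ?_)
  rcases Nat.eq_zero_or_pos m with rfl | hm
  · simp [hc0]
  · have hmc : (m : ℂ) ≠ 0 := by exact_mod_cast hm.ne'
    rw [HRel.coeff' hf hp hpN m hm.ne']
    push_cast
    field_simp

lemma tend_mul {c : ℝ} (hc : 0 < c) : Tendsto (fun y : ℝ => c * y) (𝓝[>] 0) (𝓝[>] 0) := by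
  refine tendsto_nhdsWithin_iff.2 ⟨?_, ?_⟩
  · have : Tendsto (fun y : ℝ => c * y) (𝓝 0) (𝓝 (c * 0)) :=
      tendsto_id.const_mul _
    rw [mul_zero] at this
    exact this.mono_left nhdsWithin_le_nhds
  · filter_upwards [self_mem_nhdsWithin] with y (hy : 0 < y)
    exact mul_pos hc hy

lemma tend_div {c : ℝ} (hc : 0 < c) : Tendsto (fun y : ℝ => y / c) (𝓝[>] 0) (𝓝[>] 0) := by
  have h := tend_mul (inv_pos.2 hc)
  refine h.congr fun y => ?_
  rw [div_eq_inv_mul]

/-- the Hecke relation for the boundary values -/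
theorem bw_hecke (hlim : S_LIM) (hf : HRel f) {p : ℕ} (hp : p.Prime) (hpN : ¬ p ∣ N) (r : ℚ) :
    co f p * bw f r = bw f (p * r) + ∑ u ∈ Finset.range p, bw f ((r + u) / p) := by
  have hpr : (0 : ℝ) < p := by exact_mod_cast hp.pos
  have h1 := hlim N f (p * r)
  have h2 := fun u : ℕ => hlim N f ((r + u) / p)
  have h3 := hlim N f r
  have h4 := (h1.comp (tend_mul hpr)).add
    (tendsto_finsetSum (Finset.range p) fun u _ => (h2 u).comp (tend_div hpr))
  refine tendsto_nhds_unique (h3.const_mul (co f p)) (h4.congr' ?_)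
  filter_upwards [self_mem_nhdsWithin] with y (hy : 0 < y)
  have h5 := prim_hecke hf hp hpN ((r : ℂ) + (y : ℂ) * Complex.I) (by simpa using hy)
  rw [h5]
  simp only [Function.comp_apply]
  congr 1
  · congr 1
    push_cast
    ring
  · refine Finset.sum_congr rfl fun u _ => ?_
    congr 1
    push_cast
    ring

/-- the relation of `U_p` for the boundary values -/
theorem bw_U (hlim : S_LIM) (hf : HRel f) {p : ℕ} (hp : p.Prime) (hpN : p ∣ N) (r : ℚ) :
    co f p * bw f r = ∑ u ∈ Finset.range p, bw f ((r + u) / p) := by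
  have hpr : (0 : ℝ) < p := by exact_mod_cast hp.pos
  have h2 := fun u : ℕ => hlim N f ((r + u) / p)
  have h3 := hlim N f r
  have h4 := tendsto_finsetSum (Finset.range p) fun u _ => (h2 u).comp (tend_div hpr)
  refine tendsto_nhds_unique (h3.const_mul (co f p)) (h4.congr' ?_)
  filter_upwards [self_mem_nhdsWithin] with y (hy : 0 < y)
  have h5 := prim_U hf hp hpN ((r : ℂ) + (y : ℂ) * Complex.I) (by simpa using hy)
  rw [h5]
  refine Finset.sum_congr rfl fun u _ => ?_
  simp only [Function.comp_apply]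
  congr 1
  push_cast
  ring

/-! ### integrality -/

lemma den_mul_dvd (r : ℚ) (k : ℕ) : ((k : ℚ) * r).den ∣ r.den := by
  have h := Rat.mul_den_dvd (k : ℚ) r
  rwa [Rat.den_natCast, one_mul] at h

lemma dvd_den_mul (r : ℚ) (k : ℕ) (hk : k ≠ 0) : r.den ∣ k * ((k : ℚ) * r).den := by
  have hk' : (k : ℚ) ≠ 0 := by exact_mod_cast hk
  have e : r = ((1 : ℚ) / k) * ((k : ℚ) * r) := by field_simp
  have h := Rat.mul_den_dvd ((1 : ℚ) / k) ((k : ℚ) * r)
  rw [← e] at h
  have h2 : ((1 : ℚ) / k).den ∣ k := by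
    have := Rat.den_dvd 1 (k : ℤ)
    rw [Rat.divInt_eq_div] at this
    push_cast at this
    exact_mod_cast this
  exact h.trans (mul_dvd_mul_right h2 _)

lemma gcd_den_mul (r : ℚ) {k : ℕ} (hk : k.Coprime N) (hk0 : k ≠ 0) :
    Nat.gcd ((k : ℚ) * r).den N = Nat.gcd r.den N := by
  apply Nat.dvd_antisymm
  · exact Nat.gcd_dvd_gcd_of_dvd_left _ (den_mul_dvd r k)
  · have h1 := Nat.gcd_dvd_gcd_of_dvd_left N (dvd_den_mul r k hk0)
    rwa [Nat.Coprime.gcd_mul_left_cancel _ hk] at h1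

lemma gcd_den_div (r : ℚ) (u : ℕ) {k : ℕ} (hk : k.Coprime N) (hk0 : k ≠ 0) :
    Nat.gcd ((r + u) / (k : ℚ)).den N = Nat.gcd r.den N := by
  have hk' : (k : ℚ) ≠ 0 := by exact_mod_cast hk0
  rw [← gcd_den_mul ((r + u) / (k : ℚ)) hk hk0]
  have e : (k : ℚ) * ((r + u) / (k : ℚ)) = r + u := by field_simp
  rw [e]
  congr 1
  simp

/-- an odd multiple of the boundary value is a period -/
theorem bw_mem (hlim : S_LIM) (heq : S_EQV) (hf : HRel f) {p : ℕ} (hp : p.Prime) (hpN : ¬ p ∣ N)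
    (a : ℤ) (ha : co f p = a) (r : ℚ)
    (hr : ∀ l : ℕ, l.Prime → l ∣ r.den → l ∣ N → ¬ l ^ 2 ∣ N) :
    (((p : ℤ) + 1 - a : ℤ) : ℂ) * bw f r ∈ PG f := by
  have hco : p.Coprime N := (Nat.Prime.coprime_iff_not_dvd hp).2 hpN
  have hcop : Nat.Coprime (Nat.gcd r.den N) (N / Nat.gcd r.den N) := by
    rw [Nat.coprime_iff_gcd_eq_one]
    by_contra hne
    obtain ⟨l, hl, hld⟩ := Nat.exists_prime_and_dvd hne
    have h1 : l ∣ Nat.gcd r.den N := hld.trans (Nat.gcd_dvd_left _ _)
    have h2 : l ∣ N / Nat.gcd r.den N := hld.trans (Nat.gcd_dvd_right _ _)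
    apply hr l hl (h1.trans (Nat.gcd_dvd_left _ _)) (h1.trans (Nat.gcd_dvd_right _ _))
    rw [pow_two]
    have h3 : N = Nat.gcd r.den N * (N / Nat.gcd r.den N) :=
      (Nat.mul_div_cancel' (Nat.gcd_dvd_right _ _)).symm
    rw [h3]
    exact mul_dvd_mul h1 h2
  have h1 : bw f (p * r) - bw f r ∈ PG f :=
    heq N f r (p * r) (gcd_den_mul r hco hp.ne_zero).symm hcop
  have h2 : ∀ u ∈ Finset.range p, bw f ((r + u) / p) - bw f r ∈ PG f :=
    fun u _ => heq N f r _ (gcd_den_div r u hco hp.ne_zero).symm hcop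
  have h3 := AddSubgroup.sum_mem _ h2
  have h4 := AddSubgroup.add_mem _ h1 h3
  have h5 := bw_hecke hlim hf hp hpN r
  rw [Finset.sum_sub_distrib, Finset.sum_const, Finset.card_range, nsmul_eq_mul] at h4
  have e1 : (((p : ℤ) + 1 - a : ℤ) : ℂ) * bw f r = -(bw f (p * r) - bw f r +
      (∑ u ∈ Finset.range p, bw f ((r + u) / p) - p * bw f r)) := by
    push_cast
    rw [← ha]
    linear_combination (-1 : ℂ) * h5
  rw [e1]
  exact AddSubgroup.neg_mem _ h4

end Pool.Agent.K4H53.CX
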