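import Pool.Agent.K4H53.CX.Lmain

/-!
# The conditions on the conductors in terms of the discriminant
-/

set_option autoImplicit false
set_option linter.all false

open Finset
open NumberField IsDedekindDomain H300.HW NumberField.InfinitePlace

namespace Pool.Agent.K4H53.CX

open Pool.Agent.Y702.G (pts)
open Pool.Agent.K4H53.BSR (cond_mod4)

/-- eight divides the conductor of `χ` or of `χ χ₀` if it divides the conductor of `χ₀` -/
lemma eight_or {n : ℕ} [NeZero n] (χ χ₀ : DirichletCharacter ℂ n) (h0 : 8 ∣ χ₀.conductor)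
    (h : ¬ 8 ∣ χ.conductor) : 8 ∣ (χ * χ₀).conductor := by
  by_contra hc
  have h1 := DirichletCharacter.conductor_mul_dvd_lcm_conductor χ⁻¹ (χ * χ₀)
  rw [inv_mul_cancel_left, DirichletCharacter.conductor_inv] at h1
  have h2 := h0.trans h1
  have h3 : χ.conductor ≠ 0 := χ.conductor_ne_zero
  have h4 : (χ * χ₀).conductor ≠ 0 := (χ * χ₀).conductor_ne_zero
  have e1 : ∀ x : ℕ, x ≠ 0 → (8 ∣ x ↔ 3 ≤ x.factorization 2) := fun x hx => by
    rw [show (8 : ℕ) = 2 ^ 3 by norm_num, Nat.prime_two.pow_dvd_iff_le_factorization hx]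
  rw [e1 _ h3] at h
  rw [e1 _ h4] at hc
  rw [e1 _ (Nat.lcm_ne_zero h3 h4), Nat.factorization_lcm h3 h4, Finsupp.sup_apply] at h2
  rcases le_sup_iff.1 h2 with h5 | h5
  · exact h h5
  · exact hc h5

/-- the product of two characters whose conductors are `4` modulo `8` has odd conductor -/
lemma four_mul {a m n : ℕ} [NeZero n] (hodd : Odd m) (hn : n = 2 ^ a * m)
    (χ χ₀ : DirichletCharacter ℂ n)
    (h8 : ¬ 8 ∣ χ.conductor) (h80 : ¬ 8 ∣ χ₀.conductor)
    (h2 : 2 ∣ χ.conductor) (h20 : 2 ∣ χ₀.conductor) : ¬ 2 ∣ (χ * χ₀).conductor := by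
  -- the conductors divide `4 m`, and `a ≥ 2`
  have hc4 : ∀ ψ : DirichletCharacter ℂ n, 2 ∣ ψ.conductor → 4 ∣ ψ.conductor := by
    intro ψ h
    have h1 := cond_mod4 ψ
    omega
  have h4n : 4 ∣ n := (hc4 χ h2).trans χ.conductor_dvd_level
  have h4m : 4 * m ∣ n := by
    refine Nat.Coprime.mul_dvd_of_dvd_of_dvd ?_ h4n (by rw [hn]; exact dvd_mul_left _ _)
    exact Nat.Coprime.pow_left 2 (Nat.coprime_two_left.2 hodd)
  have hfac : ∀ ψ : DirichletCharacter ℂ n, ¬ 8 ∣ ψ.conductor → 2 ∣ ψ.conductor →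
      ψ.FactorsThrough (4 * m) := by
    intro ψ h8' h2'
    obtain ⟨c, hc⟩ := hc4 ψ h2'
    have hcodd : Odd c := by
      by_contra hcc
      rw [Nat.not_odd_iff_even] at hcc
      obtain ⟨e, he⟩ := hcc
      exact h8' ⟨e, by rw [hc, he]; ring⟩
    have hcm : c ∣ m := by
      have h5 : c ∣ 2 ^ a * m := by
        rw [← hn]
        exact (Dvd.intro_left 4 hc.symm).trans ψ.conductor_dvd_level
      exact Nat.Coprime.dvd_of_dvd_mul_left
        (Nat.Coprime.pow_right a (Nat.coprime_two_right.2 hcodd)) h5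
    exact (DirichletCharacter.mem_conductorSet_iff_conductor_dvd ψ h4m).2
      (by rw [hc]; exact mul_dvd_mul_left 4 hcm)
  have hmn : m ∣ n := by rw [hn]; exact dvd_mul_left _ _
  have hker : ∀ ψ : DirichletCharacter ℂ n, ¬ 8 ∣ ψ.conductor → 2 ∣ ψ.conductor →
      ∀ u : (ZMod n)ˣ, ZMod.unitsMap hmn u = 1 → ZMod.unitsMap h4m u ≠ 1 →
        ψ.toUnitHom u = -1 := by
    intro ψ h8' h2' u hu hu4
    have h3 := (DirichletCharacter.factorsThrough_iff_ker_unitsMap h4m).1 (hfac ψ h8' h2')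
    -- all the units congruent to one modulo `m` are `1` or `u` modulo `4 m`
    have key : ∀ w : (ZMod n)ˣ, ZMod.unitsMap hmn w = 1 →
        ZMod.unitsMap h4m w = 1 ∨ ZMod.unitsMap h4m (w * u) = 1 := by
      have hd : ∀ w : (ZMod n)ˣ, (w : ZMod n).val % 2 = 1 := by
        intro w
        have h5 : Nat.Coprime (w : ZMod n).val n := ZMod.val_coe_unit_coprime w
        have h6 : Nat.Coprime (w : ZMod n).val 2 :=
          h5.coprime_dvd_right (Dvd.dvd.trans (by norm_num) h4n)
        exact Nat.odd_iff.1 (Nat.coprime_two_right.1 h6)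
      have hmap : ∀ (d : ℕ) (h : d ∣ n) (w : (ZMod n)ˣ),
          ZMod.unitsMap h w = 1 ↔ (w : ZMod n).val ≡ 1 [MOD d] := by
        intro d h w
        rw [Units.ext_iff, ZMod.unitsMap_val, Units.val_one, ZMod.cast_eq_val,
          ← Nat.cast_one, ZMod.natCast_eq_natCast_iff]
      have h4co : Nat.Coprime 4 m := Nat.Coprime.pow_left 2 (Nat.coprime_two_left.2 hodd)
      have hm4 : ∀ x y : ℕ, x ≡ y [MOD m] → x ≡ y [MOD 4] → x ≡ y [MOD 4 * m] := fun x y h h' =>
        (Nat.modEq_and_modEq_iff_modEq_mul h4co).1 ⟨h', h⟩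
      intro w hw
      rw [hmap] at hw hu
      rw [Ne, hmap] at hu4
      have hw2 := hd w
      have hu2 := hd u
      rcases (by omega : (w : ZMod n).val % 4 = 1 ∨ (w : ZMod n).val % 4 = 3) with h | h
      · left
        rw [hmap]
        exact hm4 _ _ hw (by unfold Nat.ModEq; omega)
      · right
        rw [hmap]
        have hu3 : (u : ZMod n).val % 4 = 3 := by
          by_contra hne
          have : (u : ZMod n).val % 4 = 1 := by omega
          exact hu4 (hm4 _ _ hu (by unfold Nat.ModEq; omega))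
        have hprod : ∀ d : ℕ, d ∣ n → ((w * u : (ZMod n)ˣ) : ZMod n).val ≡
            (w : ZMod n).val * (u : ZMod n).val [MOD d] := by
          intro d h
          rw [Units.val_mul, ZMod.val_mul]
          exact (Nat.mod_modEq _ _).of_dvd h
        refine hm4 _ _ ?_ ?_
        · refine (hprod m hmn).trans ?_
          simpa using hw.mul hu
        · refine (hprod 4 h4n).trans ?_
          unfold Nat.ModEq
          rw [Nat.mul_mod, h, hu3]
    have hsq : ψ.toUnitHom u ^ 2 = 1 := by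
      rcases key u hu with h | h
      · exact absurd h hu4
      · rw [← map_pow, pow_two]
        exact h3 (MonoidHom.mem_ker.2 h)
    have hne : ψ.toUnitHom u ≠ 1 := by
      intro h1
      have hfm : ψ.FactorsThrough m := by
        rw [DirichletCharacter.factorsThrough_iff_ker_unitsMap hmn]
        intro w hw
        rw [MonoidHom.mem_ker] at hw ⊢
        rcases key w hw with h | h
        · exact h3 (MonoidHom.mem_ker.2 h)
        · have h5 := h3 (MonoidHom.mem_ker.2 h)
          rw [MonoidHom.mem_ker, map_mul, h1, mul_one] at h5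
          exact h5
      have h6 := (DirichletCharacter.mem_conductorSet_iff_conductor_dvd ψ hmn).1 hfm
      have h7 := h2'.trans h6
      exact absurd h7 (by obtain ⟨e, he⟩ := hodd; omega)
    have h8 : ((ψ.toUnitHom u : ℂˣ) : ℂ) ^ 2 = 1 := by
      have := congrArg (fun z : ℂˣ => (z : ℂ)) hsq
      simpa using this
    rcases (show ((ψ.toUnitHom u : ℂˣ) : ℂ) = 1 ∨ ((ψ.toUnitHom u : ℂˣ) : ℂ) = -1 from mul_self_eq_one_iff.1 (by rw [← pow_two]; exact h8)) with h9 | h9
    · exact absurd (Units.ext h9) hne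
    · exact Units.ext (by rw [h9]; simp)
  intro hcon
  have hfm : (χ * χ₀).FactorsThrough m := by
    rw [DirichletCharacter.factorsThrough_iff_ker_unitsMap hmn]
    intro w hw
    rw [MonoidHom.mem_ker] at hw ⊢
    have e : (χ * χ₀).toUnitHom w = χ.toUnitHom w * χ₀.toUnitHom w := by
      apply Units.ext
      simp
    rw [e]
    by_cases h4 : ZMod.unitsMap h4m w = 1
    · have h3 := (DirichletCharacter.factorsThrough_iff_ker_unitsMap h4m).1 (hfac χ h8 h2)
      have h30 := (DirichletCharacter.factorsThrough_iff_ker_unitsMap h4m).1 (hfac χ₀ h80 h20)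
      have e1 := MonoidHom.mem_ker.1 (h3 (MonoidHom.mem_ker.2 h4))
      have e2 := MonoidHom.mem_ker.1 (h30 (MonoidHom.mem_ker.2 h4))
      rw [e1, e2, one_mul]
    · rw [hker χ h8 h2 w hw h4, hker χ₀ h80 h20 w hw h4]
      simp
  have h6 := (DirichletCharacter.mem_conductorSet_iff_conductor_dvd (χ * χ₀) hmn).1 hfm
  have h7 := hcon.trans h6
  exact absurd h7 (by obtain ⟨e, he⟩ := hodd; omega)


section count

variable {a m n : ℕ} [NeZero n]

lemma fac2 (χ : DirichletCharacter ℂ n) :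
    χ.conductor.factorization 2 = 0 ∧ ¬ 2 ∣ χ.conductor ∨
      χ.conductor.factorization 2 = 2 ∧ 2 ∣ χ.conductor ∧ ¬ 8 ∣ χ.conductor ∨
      3 ≤ χ.conductor.factorization 2 ∧ 2 ∣ χ.conductor ∧ 8 ∣ χ.conductor := by
  have h0 : χ.conductor ≠ 0 := χ.conductor_ne_zero
  have h4 := cond_mod4 χ
  have e : ∀ j : ℕ, 2 ^ j ∣ χ.conductor ↔ j ≤ χ.conductor.factorization 2 := fun j =>
    Nat.prime_two.pow_dvd_iff_le_factorization h0
  have e1 := e 1
  have e2 := e 2
  have e3 := e 3
  norm_num at e1 e2 e3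
  by_cases h2 : 2 ∣ χ.conductor
  · have h4' : 4 ∣ χ.conductor := by omega
    by_cases h8 : 8 ∣ χ.conductor
    · exact Or.inr (Or.inr ⟨e3.1 h8, h2, h8⟩)
    · refine Or.inr (Or.inl ⟨?_, h2, h8⟩)
      have h5 := e2.1 h4'
      have h6 := mt e3.2 h8
      omega
  · refine Or.inl ⟨Nat.factorization_eq_zero_of_not_dvd h2, h2⟩

variable (a m n) in
theorem eight_iff (hodd : Odd m) (hn : n = 2 ^ a * m)
    (L : Type) [Field L] [NumberField L] [IsCyclotomicExtension {n} ℚ L]
    (K : IntermediateField ℚ L) (k : ℕ) (hk : Module.finrank ℚ K = 2 ^ k)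
    (hdisc : (discr K).natAbs = ∏ᶠ χ : H300.HW.YY n L K, (χ : DirichletCharacter ℂ n).conductor) :
    (∃ χ : H300.HW.YY n L K, 8 ∣ (χ : DirichletCharacter ℂ n).conductor) ↔
      (2 : ℤ) ^ (Module.finrank ℚ K + 1) ∣ discr K := by
  classical
  have hgal : IsGalois ℚ L := IsCyclotomicExtension.isGalois {n} ℚ L
  have : Fintype (H300.HW.YY n L K) := Fintype.ofFinite _
  have hcond : ∀ χ : DirichletCharacter ℂ n, χ.conductor ≠ 0 := fun χ =>
    χ.conductor_ne_zero
  have hrk : Module.finrank ℚ K = Fintype.card (H300.HW.YY n L K) := by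
    rw [IntermediateField.finrank_eq_fixingSubgroup_index, ← H300.HW.card_YY n L K,
      Nat.card_eq_fintype_card]
  rw [finprod_eq_prod_of_fintype] at hdisc
  have h0 : (discr K).natAbs ≠ 0 := Int.natAbs_ne_zero.2 (discr_ne_zero K)
  have hv : (2 : ℤ) ^ (Module.finrank ℚ K + 1) ∣ discr K ↔
      Module.finrank ℚ K + 1 ≤ ∑ χ : H300.HW.YY n L K,
        (χ : DirichletCharacter ℂ n).conductor.factorization 2 := by
    rw [← Finsupp.finset_sum_apply, ← Nat.factorization_prod (fun χ _ => hcond _), ← hdisc,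
      ← Nat.prime_two.pow_dvd_iff_le_factorization h0, ← Int.natCast_dvd]
    push_cast
    exact Iff.rfl
  rw [hv]
  constructor
  · rintro ⟨χ₀, h0'⟩
    have hS : Fintype.card (H300.HW.YY n L K) ≤
        2 * (univ.filter (fun χ : H300.HW.YY n L K => 8 ∣ (χ : DirichletCharacter ℂ n).conductor)).card := by
      have h1 := Finset.card_filter_add_card_filter_not (s := (univ : Finset (H300.HW.YY n L K)))
        (fun χ : H300.HW.YY n L K => 8 ∣ (χ : DirichletCharacter ℂ n).conductor)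
      have h2 : (univ.filter (fun χ : H300.HW.YY n L K =>
          ¬ 8 ∣ (χ : DirichletCharacter ℂ n).conductor)).card ≤
          (univ.filter (fun χ : H300.HW.YY n L K =>
            8 ∣ (χ : DirichletCharacter ℂ n).conductor)).card := by
        apply Finset.card_le_card_of_injOn (fun χ => χ * χ₀)
        · intro χ hχ
          simp only [Finset.coe_filter, Finset.mem_univ, true_and, Set.mem_setOf_eq] at hχ ⊢
          exact eight_or _ _ h0' hχ
        · intro χ _ χ' _ h
          exact mul_right_cancel h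
      rw [Finset.card_univ] at h1
      omega
    have h3 : ∑ χ : H300.HW.YY n L K, (if 8 ∣ (χ : DirichletCharacter ℂ n).conductor then 3 else 0) ≤
        ∑ χ : H300.HW.YY n L K, (χ : DirichletCharacter ℂ n).conductor.factorization 2 := by
      apply Finset.sum_le_sum
      intro χ _
      rcases fac2 (χ : DirichletCharacter ℂ n) with ⟨h, h'⟩ | ⟨h, -, h'⟩ | ⟨h, -, h'⟩
      · rw [if_neg (fun h8 => h' ((by norm_num : 2 ∣ 8).trans h8))]
        exact Nat.zero_le _
      · rw [if_neg h']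
        exact Nat.zero_le _
      · rw [if_pos h']
        exact h
    rw [← Finset.sum_filter, Finset.sum_const, smul_eq_mul] at h3
    have h4 : 1 < Fintype.card (H300.HW.YY n L K) := by
      rw [Fintype.one_lt_card_iff]
      refine ⟨χ₀, 1, fun h => ?_⟩
      rw [h, OneMemClass.coe_one, DirichletCharacter.conductor_one] at h0'
      omega
    rw [← hrk] at h4 hS
    have hk1 : 1 ≤ k := by
      rcases Nat.eq_zero_or_pos k with rfl | h
      · rw [hk] at h4; norm_num at h4
      · exact h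
    obtain ⟨j, rfl⟩ : ∃ j, k = j + 1 := ⟨k - 1, by omega⟩
    rw [pow_succ] at hk
    have h2j : 1 ≤ 2 ^ j := Nat.one_le_two_pow
    omega
  · intro h
    by_contra hcon
    push Not at hcon
    have h3 : ∑ χ : H300.HW.YY n L K, (χ : DirichletCharacter ℂ n).conductor.factorization 2 =
        ∑ χ : H300.HW.YY n L K, (if 2 ∣ (χ : DirichletCharacter ℂ n).conductor then 2 else 0) := by
      apply Finset.sum_congr rfl
      intro χ _
      rcases fac2 (χ : DirichletCharacter ℂ n) with ⟨h, h'⟩ | ⟨h, h', -⟩ | ⟨h, -, h'⟩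
      · rw [if_neg h', h]
      · rw [if_pos h', h]
      · exact absurd h' (hcon χ)
    rw [h3, ← Finset.sum_filter, Finset.sum_const, smul_eq_mul] at h
    have h1 := Finset.card_filter_add_card_filter_not (s := (univ : Finset (H300.HW.YY n L K)))
        (fun χ : H300.HW.YY n L K => 2 ∣ (χ : DirichletCharacter ℂ n).conductor)
    rw [Finset.card_univ, ← hrk] at h1
    rcases (univ.filter (fun χ : H300.HW.YY n L K =>
        2 ∣ (χ : DirichletCharacter ℂ n).conductor)).eq_empty_or_nonempty with he | ⟨χ₀, hχ₀⟩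
    · rw [he, Finset.card_empty] at h
      omega
    · have h20 := (Finset.mem_filter.1 hχ₀).2
      have h2 : (univ.filter (fun χ : H300.HW.YY n L K =>
          2 ∣ (χ : DirichletCharacter ℂ n).conductor)).card ≤
          (univ.filter (fun χ : H300.HW.YY n L K =>
            ¬ 2 ∣ (χ : DirichletCharacter ℂ n).conductor)).card := by
        apply Finset.card_le_card_of_injOn (fun χ => χ * χ₀)
        · intro χ hχ
          simp only [Finset.coe_filter, Finset.mem_univ, true_and, Set.mem_setOf_eq] at hχ ⊢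
          exact four_mul hodd hn _ _ (hcon χ) (hcon χ₀) hχ h20
        · intro χ _ χ' _ h
          exact mul_right_cancel h
      omega

end count

section cnd

variable {W : WeierstrassCurve ℤ} {N : ℕ}

/-- the conditions on the abelian field `K` of degree a power of two -/
def AK (W : WeierstrassCurve ℤ) (K : Type) [Field K] [NumberField K] : Prop :=
  (∀ l : ℕ, l.Prime → (l : ℤ) ∣ discr K → l ≠ 2 →
    ¬ (l : ℤ) ∣ W.Δ ∧ Odd ((l : ℤ) - pts W (ZMod l))) ∧
  ((2 : ℤ) ∣ discr K → ¬ (2 : ℤ) ∣ W.Δ ∧ Even ((2 : ℤ) - pts W (ZMod 2)) ∧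
    ¬ (2 : ℤ) ^ (Module.finrank ℚ K + 1) ∣ discr K)

theorem cond_iff (hlev : ∀ p : ℕ, p.Prime → (p ∣ N ↔ (p : ℤ) ∣ W.Δ)) (a m n : ℕ) [NeZero n]
    (hodd : Odd m) (hn : n = 2 ^ a * m)
    (L : Type) [Field L] [NumberField L] [IsCyclotomicExtension {n} ℚ L]
    (K : IntermediateField ℚ L) (k : ℕ) (hk : Module.finrank ℚ K = 2 ^ k)
    (hdisc : (discr K).natAbs = ∏ᶠ χ : H300.HW.YY n L K, (χ : DirichletCharacter ℂ n).conductor) :
    (∀ χ : H300.HW.YY n L K, PQ (aW W) N (χ : DirichletCharacter ℂ n).conductor) ↔ AK W K := by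
  classical
  have h8 := eight_iff a m n hodd hn L K k hk hdisc
  have : Fintype (H300.HW.YY n L K) := Fintype.ofFinite _
  rw [finprod_eq_prod_of_fintype] at hdisc
  have hd : ∀ l : ℕ, l.Prime → ((l : ℤ) ∣ discr K ↔
      ∃ χ : H300.HW.YY n L K, l ∣ (χ : DirichletCharacter ℂ n).conductor) := by
    intro l hl
    rw [Int.natCast_dvd, hdisc, (Nat.Prime.prime hl).dvd_finset_prod_iff]
    simp
  have hd2 := hd 2 Nat.prime_two
  have hl2 := hlev 2 Nat.prime_two
  push_cast at hd2 hl2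
  constructor
  · intro h
    refine ⟨fun l hl hld hl2 => ?_, fun h2 => ?_⟩
    · obtain ⟨χ, hχ⟩ := (hd l hl).1 hld
      obtain ⟨h1, h2⟩ := (h χ).1 l hl hχ hl2
      exact ⟨fun h3 => h1 ((hlev l hl).2 h3), h2⟩
    · obtain ⟨χ, hχ⟩ := hd2.1 h2
      obtain ⟨h1, h3, -⟩ := (h χ).2 hχ
      refine ⟨fun h4 => h1 (hl2.2 h4), h3, fun h4 => ?_⟩
      obtain ⟨ψ, hψ⟩ := h8.2 h4
      exact ((h ψ).2 ((by norm_num : 2 ∣ 8).trans hψ)).2.2 hψ
  · rintro ⟨h1, h2⟩ χ
    refine ⟨fun l hl hlχ hl2' => ?_, fun h2χ => ?_⟩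
    · obtain ⟨h3, h4⟩ := h1 l hl ((hd l hl).2 ⟨χ, hlχ⟩) hl2'
      exact ⟨fun h5 => h3 ((hlev l hl).1 h5), h4⟩
    · obtain ⟨h3, h4, h5⟩ := h2 (hd2.2 ⟨χ, h2χ⟩)
      exact ⟨fun h6 => h3 (hl2.1 h6), h4, fun h6 => h5 (h8.1 ⟨χ, h6⟩)⟩

end cnd

end Pool.Agent.K4H53.CX
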