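import Pool.Agent.K4H53.CX.Stm2

/-!
# The local condition and the class of a point
-/

set_option autoImplicit false
set_option linter.all false

open NumberField IsDedekindDomain WithZero WeierstrassCurve WeierstrassCurve.Affine
open scoped NNReal Classical

namespace Pool.Agent.K4H53.CX

open Pool.Agent.TH115.GD
open Pool.Agent.Y710.CV (Cond cond1 cond2)
open Pool.Agent.Y702.G (sh base pts)
open Pool.Agent.R425.G Pool.Agent.R425.P

theorem cond_pt {V : WeierstrassCurve ℚ} {A : Type} [Field A] [NumberField A] {θ : A}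
    (h : CF V A θ) (hV : IV V) {L Ω' : Type} [Field L] [Field Ω'] [Algebra L Ω'] [Algebra ℚ L]
    [Algebra ℚ Ω'] [IsScalarTower ℚ L Ω'] [IsAlgClosed Ω'] [IsGalois L Ω'] {z : A} {X₀ : ℤ} {y : L}
    (hy : algebraMap ℚ L (cub V (X₀ : ℚ)) = y ^ 2) (h0 : cub V (X₀ : ℚ) ≠ 0)
    (hc : Cond L Ω' V θ (z * ((X₀ : A) - θ) * algebraMap ℚ A (cub V (X₀ : ℚ)))) :
    Cond L Ω' V θ z := by
  obtain ⟨a, b, c, hC⟩ := Y355.G.V_roots hV.a1 hV.a3 hV.Δ Ω'
  have hXL : cub V ((X₀ : ℤ) : L) = y ^ 2 := by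
    have h1 := cub_map V (incl ℚ ℚ L) (X₀ : ℚ)
    have e1 : (incl ℚ ℚ L) ((X₀ : ℤ) : ℚ) = ((X₀ : ℤ) : L) := map_intCast _ _
    rw [e1] at h1
    rw [h1]
    exact hy
  have hXΩ : ∀ e : Rt V Ω', ((X₀ : ℤ) : Ω') - e.1 ≠ 0 := by
    intro e he
    have h1 : ((X₀ : ℤ) : Ω') = e.1 := sub_eq_zero.1 he
    have h2 := cub_map V (incl ℚ ℚ Ω') (X₀ : ℚ)
    have e1 : (incl ℚ ℚ Ω') ((X₀ : ℤ) : ℚ) = ((X₀ : ℤ) : Ω') := map_intCast _ _
    rw [e1, h1, e.2] at h2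
    exact h0 ((map_eq_zero _).1 h2.symm)
  have hy0 : y ≠ 0 := by
    rintro rfl
    rw [zero_pow two_ne_zero] at hy
    exact h0 ((map_eq_zero _).1 hy)
  have hΔ : (V.baseChange L).Δ ≠ 0 := by
    have h2 : (V.baseChange L).Δ = algebraMap ℚ L V.Δ := WeierstrassCurve.map_Δ _ _
    rw [h2]
    exact (_root_.map_ne_zero _).2 hV.Δ
  have heq : (V.baseChange L).toAffine.Equation ((X₀ : ℤ) : L) y := by
    rw [Affine.equation_iff]
    have e1 : (V.baseChange L).a₁ = 0 := by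
      show algebraMap ℚ L V.a₁ = 0
      rw [hV.a1, map_zero]
    have e3 : (V.baseChange L).a₃ = 0 := by
      show algebraMap ℚ L V.a₃ = 0
      rw [hV.a3, map_zero]
    rw [e1, e3]
    have h1 : cub V ((X₀ : ℤ) : L) = ((X₀ : ℤ) : L) ^ 3 + (V.baseChange L).a₂ * ((X₀ : ℤ) : L) ^ 2 +
        (V.baseChange L).a₄ * ((X₀ : ℤ) : L) + (V.baseChange L).a₆ := rfl
    rw [hXL] at h1
    linear_combination h1
  have hns := (WeierstrassCurve.Affine.equation_iff_nonsingular_of_Δ_ne_zero hΔ).1 heq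
  set P₀ : Pt V L := Affine.Point.some ((X₀ : ℤ) : L) y hns with hP₀
  have hk0 : ∀ e : Rt V Ω', kpf P₀ e = ((X₀ : ℤ) : Ω') - e.1 := by
    intro e
    have h1 : algebraMap L Ω' ((X₀ : ℤ) : L) = ((X₀ : ℤ) : Ω') := map_intCast _ _
    simp only [hP₀, kpf]
    rw [h1, if_neg (fun h2 => hXΩ e (sub_eq_zero.2 h2))]
  obtain ⟨R, hR, hφ⟩ := hc
  obtain ⟨R0, hR0⟩ := fixed_point V R hR
  obtain ⟨η, hη⟩ := kp_mul hC R0 P₀
  have hη' : ∀ e : Rt V Ω', kpf (R0 + P₀) e = kpf R0 e * (((X₀ : ℤ) : Ω') - e.1) *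
      (η.1 e : Ω') ^ 2 := by
    intro e
    have h1 := congrArg (fun z : EE V L Ω' => (z.1 e : Ω')) hη
    rw [← hk0]
    exact h1
  refine ⟨act V (incl ℚ L Ω') (R0 + P₀), fun σ => rs_act_incl V σ _, fun φ => ?_⟩
  obtain ⟨w, hw, hz⟩ := hφ φ
  set e : Rt V Ω' := ⟨φ θ, root_em h φ⟩ with he
  have hη0 : (η.1 e : Ω') ≠ 0 := (η.1 e).ne_zero
  have hyΩ : algebraMap L Ω' y ≠ 0 := (_root_.map_ne_zero _).2 hy0
  refine ⟨w / (algebraMap L Ω' y * (((X₀ : ℤ) : Ω') - e.1) * (η.1 e : Ω')), fun σ hσ => ?_,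
    fun b' c' hC' => ?_⟩
  · have hmv : mv σ e = e := Subtype.ext hσ
    have hσe : σ e.1 = e.1 := hσ
    rw [map_div₀, map_mul, map_mul, map_sub, hw σ hσ, σ.commutes, map_intCast, hσe, equi, hmv]
  · have h1 := hz b' c' hC'
    rw [← hR0, ← kpf_eq R0 e hC', map_mul, map_mul, map_sub, map_intCast] at h1
    rw [← kpf_eq (R0 + P₀) e hC', hη' e]
    have h2 : φ (algebraMap ℚ A (cub V (X₀ : ℚ))) = algebraMap L Ω' y ^ 2 := by
      have e1 : φ (algebraMap ℚ A (cub V (X₀ : ℚ))) = algebraMap ℚ Ω' (cub V (X₀ : ℚ)) := by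
        rw [eq_ratCast, eq_ratCast, map_ratCast]
      rw [e1, IsScalarTower.algebraMap_apply ℚ L Ω', hy, map_pow]
    have h3 : φ θ = e.1 := rfl
    rw [h2, h3] at h1
    have hX := hXΩ e
    have h4 : φ z = w ^ 2 * kpf R0 e / ((((X₀ : ℤ) : Ω') - e.1) * algebraMap L Ω' y ^ 2) := by
      rw [eq_div_iff (mul_ne_zero hX (pow_ne_zero 2 hyΩ)), ← h1]
      ring
    rw [h4]
    field_simp

end Pool.Agent.K4H53.CX
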