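import Pool.Agent.K4H53.CX.Cnd

/-!
# Subfields of a cyclotomic field whose conductor is not divisible by eight
-/

set_option autoImplicit false
set_option linter.all false

open NumberField H300.HW IsCyclotomicExtension.Rat

namespace Pool.Agent.K4H53.CX

/-- the conductor divides `4 m` -/
lemma cond_dvd4 {a m n : ℕ} [NeZero n] (hodd : Odd m) (hn : n = 2 ^ a * m)
    (ψ : DirichletCharacter ℂ n) (h8 : ¬ 8 ∣ ψ.conductor) : ψ.conductor ∣ 4 * m := by
  have h0 : ψ.conductor ≠ 0 := ψ.conductor_ne_zero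
  have h2 : ψ.conductor ∣ 2 ^ a * m := by
    rw [← hn]
    exact ψ.conductor_dvd_level
  obtain ⟨b, q', hq', hq⟩ := Nat.exists_eq_two_pow_mul_odd h0
  have h4 : q' ∣ m := by
    have h5 : q' ∣ 2 ^ a * m := (Dvd.intro_left _ hq.symm).trans h2
    exact Nat.Coprime.dvd_of_dvd_mul_left (Nat.Coprime.pow_right a (Nat.coprime_two_right.2 hq')) h5
  have hb : b ≤ 2 := by
    by_contra hb
    apply h8
    rw [hq]
    exact Dvd.dvd.mul_right ((pow_dvd_pow 2 (by omega : 3 ≤ b))) _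
  rw [hq]
  exact mul_dvd_mul (pow_dvd_pow 2 hb) h4

theorem embed4 (a m n : ℕ) [NeZero n] (hodd : Odd m) (hn : n = 2 ^ a * m) (M : Type) [Field M]
    [NumberField M] [IsCyclotomicExtension {n} ℚ M] (K : IntermediateField ℚ M) (h4n : 4 ∣ n)
    (h8 : ∀ χ : YY n M K, ¬ 8 ∣ (χ : DirichletCharacter ℂ n).conductor) :
    ∃ M4 : IntermediateField ℚ M, IsCyclotomicExtension {4 * m} ℚ M4 ∧ K ≤ M4 := by
  haveI : IsGalois ℚ M := IsCyclotomicExtension.isGalois {n} ℚ M
  have h4m : 4 * m ∣ n := by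
    refine Nat.Coprime.mul_dvd_of_dvd_of_dvd ?_ h4n (by rw [hn]; exact dvd_mul_left _ _)
    exact Nat.Coprime.pow_left 2 (Nat.coprime_two_left.2 hodd)
  obtain ⟨c, hc⟩ := h4m
  have hn0 : n ≠ 0 := NeZero.ne n
  have hm0 : m ≠ 0 := by
    rintro rfl
    rw [mul_zero] at hn
    exact hn0 hn
  haveI : NeZero (4 * m) := ⟨mul_ne_zero (by norm_num) hm0⟩
  have hc0 : c ≠ 0 := by
    rintro rfl
    rw [mul_zero] at hc
    exact hn0 hc
  set ζ := IsCyclotomicExtension.zeta n ℚ M with hζ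
  have hprim : IsPrimitiveRoot ζ n := IsCyclotomicExtension.zeta_spec n ℚ M
  have hp4 : IsPrimitiveRoot (ζ ^ c) (4 * m) := hprim.pow (Nat.pos_of_ne_zero hn0)
    (by rw [hc, mul_comm])
  refine ⟨IntermediateField.adjoin ℚ {ζ ^ c}, hp4.intermediateField_adjoin_isCyclotomicExtension ℚ,
    ?_⟩
  intro x hx
  rw [← IsGalois.fixedField_fixingSubgroup (IntermediateField.adjoin ℚ {ζ ^ c}),
    IntermediateField.mem_fixedField_iff]
  intro σ hσ
  have h1 : σ (ζ ^ c) = ζ ^ c := (IntermediateField.mem_fixingSubgroup_iff _ _).1 hσ _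
    (IntermediateField.mem_adjoin_simple_self ℚ _)
  have h2 : σ ζ = ζ ^ (galEquivZMod n M σ).val.val := by
    have h3 := smul_zz n M σ
    have h4 := congrArg (fun x : 𝓞 M => (x : M)) h3
    simp only [map_pow] at h4
    exact h4
  have h3 : (galEquivZMod n M σ).val.val ≡ 1 [MOD 4 * m] := by
    rw [map_pow, h2, ← pow_mul] at h1
    have h5 : (galEquivZMod n M σ).val.val * c ≡ c [MOD n] := by
      have h6 := (hprim.isOfFinOrder hn0).pow_eq_pow_iff_modEq.1 h1
      rwa [← hprim.eq_orderOf] at h6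
    rw [mul_comm] at h5
    have h6 : c * (galEquivZMod n M σ).val.val ≡ c * 1 [MOD c * (4 * m)] := by
      rw [mul_one, mul_comm c (4 * m), ← hc]
      exact h5
    exact Nat.ModEq.mul_left_cancel' hc0 h6
  have hσK : σ ∈ K.fixingSubgroup := by
    rw [mem_fixing_iff n M K]
    intro χ hχ
    have h4m : 4 * m ∣ n := ⟨c, hc⟩
    have h5 := (DirichletCharacter.mem_conductorSet_iff_conductor_dvd χ h4m).2
      (cond_dvd4 hodd hn χ (h8 ⟨χ, hχ⟩))
    have h6 := (DirichletCharacter.factorsThrough_iff_ker_unitsMap h4m).1 h5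
    have h7 : galEquivZMod n M σ ∈ (ZMod.unitsMap h4m).ker := by
      rw [MonoidHom.mem_ker, Units.ext_iff, ZMod.unitsMap_val, Units.val_one, ZMod.cast_eq_val,
        ← Nat.cast_one, ZMod.natCast_eq_natCast_iff]
      exact h3
    have h8' := MonoidHom.mem_ker.1 (h6 h7)
    have h9 := congrArg (fun z : ℂˣ => (z : ℂ)) h8'
    simpa using h9
  exact (IntermediateField.mem_fixingSubgroup_iff _ _).1 hσK x hx

end Pool.Agent.K4H53.CX
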