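import Pool.Agent.K4H53.CX.Cpt
import Pool.Agent.K4H53.BSD.Splu

/-!
# Local triviality over `K_v` from local triviality over `K_v(√d)`
-/

set_option autoImplicit false
set_option linter.all false

open NumberField IsDedekindDomain WithZero WeierstrassCurve WeierstrassCurve.Affine
open scoped NNReal Classical

namespace Pool.Agent.K4H53.CX

open Pool.Agent.TH115.GD
open Pool.Agent.Y710.CV (Cond cond1 cond2)
open Pool.Agent.Y702.G (sh base pts)
open Pool.Agent.R425.G Pool.Agent.R425.P

/-- the extension by a square root -/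
abbrev Qe {k : Type} [Field k] {Ω' : Type} [Field Ω'] [Algebra k Ω'] (s : Ω') :
    IntermediateField k Ω' := IntermediateField.adjoin k {s}

theorem loc_desc (hd : S_DESC) (W : WeierstrassCurve ℤ) (hΔ2 : ¬ (2 : ℤ) ∣ W.Δ)
    (K : Type) [Field K] [NumberField K] (v : HeightOneSpectrum (𝓞 K))
    (h2 : (2 : 𝓞 K) ∈ v.asIdeal) (m c t : v.adicCompletion K) (hc : c ≠ 0)
    (ht : Valued.v t ≤ 1) (hm : m * c ^ 2 = 1 + 4 * t)
    (s : AlgebraicClosure (v.adicCompletion K)) (hs : s ^ 2 = algebraMap _ _ m)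
    (g : (AlgebraicClosure K ≃ₐ[ℚ] AlgebraicClosure K) → Pt (sh W) (AlgebraicClosure K))
    (hg : ∀ σ τ, g (σ * τ) = g σ + act (sh W) (ak σ) (g τ))
    (hL : LocTriv (F := ℚ) (Ω := AlgebraicClosure K) (sh W) (Qe (k := v.adicCompletion K) s)
      (AlgebraicClosure (v.adicCompletion K)) g) :
    LocTriv (F := ℚ) (Ω := AlgebraicClosure K) (sh W) (v.adicCompletion K)
      (AlgebraicClosure (v.adicCompletion K)) g := by
  obtain ⟨ι, P, hP⟩ := hL
  haveI hN1 : Normal ℚ (AlgebraicClosure K) :=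
    Pool.Agent.K4H53.BSD.normal_Q (Algebra.IsAlgebraic.trans ℚ K (AlgebraicClosure K))
  have hinj : Function.Injective ι := ι.toRingHom.injective
  have hex : ∀ τ : AlgebraicClosure (v.adicCompletion K) ≃ₐ[v.adicCompletion K]
      AlgebraicClosure (v.adicCompletion K),
      ∃ g : AlgebraicClosure K ≃ₐ[ℚ] AlgebraicClosure K, ∀ x, τ (ι x) = ι (g x) := fun τ =>
    Pool.Agent.K4H53.BSD.exists_res ι.toRingHom τ.toRingEquiv (fun y => by
      show τ (ι (algebraMap ℚ _ y)) = ι (algebraMap ℚ _ y)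
      rw [eq_ratCast, map_ratCast, map_ratCast])
  choose ρ hρ using hex
  have hρm : ∀ σ τ, ρ (σ * τ) = ρ σ * ρ τ := by
    intro σ τ
    ext x
    apply hinj
    rw [← hρ, AlgEquiv.mul_apply, AlgEquiv.mul_apply, hρ τ, hρ σ]
  have key := hd W hΔ2 K v h2 m c t hc ht hm s hs (fun τ => act (sh W) ι (g (ρ τ))) (by
    intro σ τ
    show act (sh W) ι (g (ρ (σ * τ))) = _
    rw [hρm, hg, map_add]
    congr 1
    show act (sh W) ι (act (sh W) (ak (ρ σ)) (g (ρ τ))) = act (sh W) (rs ℚ σ) (act (sh W) ι (g (ρ τ)))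
    rw [act_act, act_act]
    congr 2
    exact AlgHom.ext fun x => (hρ σ x).symm) ⟨P, fun τ hτ => by
      have hfix : τ ∈ (Qe (k := v.adicCompletion K) s).fixingSubgroup := by
        rw [IntermediateField.mem_fixingSubgroup_iff]
        intro x hx
        have hle : Qe (k := v.adicCompletion K) s ≤
            IntermediateField.fixedField (Subgroup.zpowers τ) := by
          rw [IntermediateField.adjoin_simple_le_iff, IntermediateField.mem_fixedField_iff]
          intro σ hσ
          obtain ⟨j, rfl⟩ := Subgroup.mem_zpowers_iff.1 hσ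
          have h5 : τ ∈ MulAction.stabilizer (AlgebraicClosure (v.adicCompletion K)
            ≃ₐ[v.adicCompletion K] AlgebraicClosure (v.adicCompletion K)) s := hτ
          exact (MulAction.stabilizer _ s).zpow_mem h5 j
        exact (IntermediateField.mem_fixedField_iff _ _).1 (hle hx) τ (Subgroup.mem_zpowers τ)
      have h6 := hP (IntermediateField.fixingSubgroupEquiv _ ⟨τ, hfix⟩) (ρ τ) (fun x => hρ τ x)
      exact h6⟩
  obtain ⟨P', hP'⟩ := key
  refine ⟨ι, P', fun τ σ hτ => ?_⟩
  have h7 : σ = ρ τ := by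
    ext x
    apply hinj
    rw [← hρ, ← hτ]
  rw [h7]
  exact hP' τ

end Pool.Agent.K4H53.CX
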