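import Pool.Agent.K4H53.CX.Vals
import Pool.Agent.K4H53.CX.AlgC
import Pool.Agent.K4H53.CX.Stm3

/-!
# The formula modulo two over any abelian extension of degree a power of two
-/

set_option autoImplicit false

open NumberField NumberField.InfinitePlace IsDedekindDomain WeierstrassCurve MeasureTheory
open UpperHalfPlane MatrixGroups CongruenceSubgroup

namespace Pool.Agent.K4H53.CX

open scoped Classical

open Pool.Agent.TH841.NF.D (Sha)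
open Pool.Agent.K4H53.BSX.D

/-- the independent parts -/
structure PP : Prop where
  qq : S_QQ
  dg : S_DISCG
  mult : S_MULT
  sel : S_SEL2
  node : S_NODE

/-- the newform, with the multiplicative primes -/
lemma sx_of (P : PP) {N : ℕ} [NeZero N] {W : WeierstrassCurve ℤ}
    {f : CuspForm (Gamma0 N : Subgroup (GL (Fin 2) ℝ)) 2} (hf : IsNewform W N f)
    (h2 : ∀ p : ℕ, p.Prime → p ∣ N → (p ^ 2 ∣ N ↔ (p : ℤ) ∣ W.c₄)) : SX W N f where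
  lim := Pool.Agent.K4H49.CX.s_lim
  eqv := Pool.Agent.K4H77.CX.s_eqv Pool.Agent.K4H49.CX.s_lim
  form := isForm hf
  odd := fun p hp hpN hp2 => P.node W p hp ((hf.level p hp).1 hpN) (mt (h2 p hp hpN).2 hp2)

/-- ramified places -/
lemma val_ne {K : Type} [Field K] [NumberField K] [IsGalois ℚ K] {n : ℕ}
    (hn : Module.finrank ℚ K = 2 ^ n) {l : ℕ} (hl : l.Prime) (h : (l : ℤ) ∣ discr K)
    (v : HeightOneSpectrum (𝓞 K)) (hv : (l : 𝓞 K) ∈ v.asIdeal) :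
    v.valuation K (l : K) ≠ WithZero.exp (-1 : ℤ) := by
  obtain ⟨s, hs⟩ := Pool.Agent.R425.ev_of_disc K hn hl h v hv
  intro h1
  rw [← hs] at h1
  have hs0 : v.valuation K s ≠ 0 := by
    intro h0
    rw [h0, zero_pow two_ne_zero] at h1
    exact WithZero.exp_ne_zero h1.symm
  obtain ⟨j, hj⟩ : ∃ j : ℤ, v.valuation K s = WithZero.exp j :=
    ⟨WithZero.log (v.valuation K s), (WithZero.exp_log hs0).symm⟩
  rw [hj, ← WithZero.exp_nsmul, WithZero.exp_inj] at h1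
  simp only [smul_eq_mul, nsmul_eq_mul] at h1
  push_cast at h1
  omega

/-- **Main theorem.** -/
theorem main (P : PP) {N : ℕ} [NeZero N] (W : WeierstrassCurve ℤ) (hΔ : W.Δ ≠ 0)
    (hmin : ∀ p : HeightOneSpectrum (𝓞 ℚ), MinimalAt W p)
    (f : CuspForm (Gamma0 N : Subgroup (GL (Fin 2) ℝ)) 2) (hf : IsNewform W N f)
    (hN2 : ∀ p : ℕ, p.Prime → p ∣ N → (p ^ 2 ∣ N ↔ (p : ℤ) ∣ W.c₄))
    (Λ : PeriodPair) (hg₂ : Λ.g₂ = (W.c₄ : ℂ) / 12) (hg₃ : Λ.g₃ = (W.c₆ : ℂ) / 216)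
    (hman : ∃ c : ℤ, Odd c ∧ ∀ γ ∈ Gamma0 N, ∀ z : ℍ,
      (c : ℂ) * (prim f ((γ • z : ℍ) : ℂ) - prim f (z : ℂ)) ∈ Λ.lattice)
    (q : ℕ) (hq : q.Prime) (hqΔ : ¬ (q : ℤ) ∣ 2 * W.Δ) (hqo : Odd ((q : ℤ) - pts W (ZMod q)))
    (m : ℕ) [NeZero m]
    (M : Type) [Field M] [NumberField M] [IsCyclotomicExtension {m} ℚ M]
    (K : IntermediateField ℚ M) (n : ℕ) (hn : Module.finrank ℚ K = 2 ^ n)
    (hmult : ∀ l : ℕ, l.Prime → (l : ℤ) ∣ discr K → (l : ℤ) ∣ W.Δ → ¬ (l : ℤ) ∣ W.c₄)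
    (A : Prop) (hA : A ↔ (0 < W.Δ → IsTotallyReal K) ∧ AK W K) :
    ((∀ v : HeightOneSpectrum (𝓞 K), MinimalAt W v) ∧
      {v : HeightOneSpectrum (𝓞 K) | c W v ≠ 1}.Finite ∧
      {p : HeightOneSpectrum (𝓞 ℚ) | c W p ≠ 1}.Finite ∧
      Odd (Nat.card (tors K W)) ∧ Odd (Nat.card (tors ℚ W)) ∧
      ((∀ l : ℕ, l.Prime → (l : ℤ) ∣ discr K → ¬ (l : ℤ) ∣ W.Δ) →
        (Odd (Tam K W) ↔ Odd (Tam ℚ W))) ∧
      ((∃ l : ℕ, l.Prime ∧ (l : ℤ) ∣ discr K ∧ (l : ℤ) ∣ W.Δ) → ¬ Odd (Tam K W))) ∧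
    (∃ x₀ x : ℚ, HasValue ℚ W x₀ ∧ HasValue K W x ∧ Odd x₀.den ∧ Odd x.den ∧
      (Odd x.num ↔ Odd x₀.num ∧ A)) ∧
    ((rank K W = 0 ∧ Sha2 K W = {0}) → (rank ℚ W = 0 ∧ Sha2 ℚ W = {0}) ∧
      (0 < W.Δ → IsTotallyReal K) ∧ AG W K) ∧
    (Odd (Tam ℚ W) → (rank ℚ W = 0 ∧ Sha2 ℚ W = {0}) ∧ A → (rank K W = 0 ∧ Sha2 K W = {0})) ∧
    (BSDModTwo ℚ W → BSDModTwo K W) ∧
    (A → BSDModTwo K W → BSDModTwo ℚ W) ∧
    (¬ A → BSDModTwo K W) := by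
  have hreal_iff : IsTotallyReal K ↔ nrComplexPlaces K = 0 := by
    rw [nrComplexPlaces, Fintype.card_eq_zero_iff]
    constructor
    · intro h
      exact ⟨fun ⟨w, hw⟩ => not_isReal_iff_isComplex.2 hw (h.isReal w)⟩
    · intro h
      refine ⟨fun v => ?_⟩
      by_contra hv
      exact h.false ⟨v, not_isReal_iff_isComplex.1 hv⟩
  obtain ⟨ae, mo, hmo, hme⟩ := Nat.exists_eq_two_pow_mul_odd (NeZero.ne m)
  have hgal : IsGalois ℚ K := Pool.Agent.Y702.L.gal_F m M K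
  have hfI := isForm hf
  have hSX := sx_of P hf hN2
  have hdisc := P.dg m M K n hn
  -- the conductors
  have hYc : Nat.card (H300.HW.YY m M K) = 2 ^ n := by
    rw [H300.HW.card_YY, ← hn]
    have : IsGalois ℚ M := IsCyclotomicExtension.isGalois {m} ℚ M
    rw [IntermediateField.finrank_eq_fixingSubgroup_index]
  have hGQ : ∀ χ ∈ H300.HW.YY m M K, GQ N χ.conductor := by
    intro χ hχ
    refine ⟨P.qq m χ n ?_, fun l hl hlc hlN => ?_⟩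
    · have h1 : (⟨χ, hχ⟩ : H300.HW.YY m M K) ^ Nat.card (H300.HW.YY m M K) = 1 := pow_card_eq_one'
      rw [hYc] at h1
      exact congrArg Subtype.val h1
    · have hld : (l : ℤ) ∣ discr K := by
        have : Fintype (H300.HW.YY m M K) := Fintype.ofFinite _
        rw [Int.natCast_dvd, hdisc, finprod_eq_prod_of_fintype]
        exact hlc.trans (Finset.dvd_prod_of_mem (fun χ : H300.HW.YY m M K =>
            (χ : DirichletCharacter ℂ m).conductor) (Finset.mem_univ (⟨χ, hχ⟩ : H300.HW.YY m M K)))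
      exact fun h2 => hmult l hl hld ((hf.level l hl).1 hlN) ((hN2 l hl hlN).1 h2)
  have hnr : ∀ x : ℚ, Pool.Agent.TH115.GD.cub (Pool.Agent.Y702.G.sh W) x ≠ 0 :=
    Pool.Agent.R425.G.no_root_Q W hq hqΔ hqo
  have hnrK := Pool.Agent.Y702.G.no_root (Pool.Agent.Y702.G.sh W) hnr K n hn
  have htK : Odd (Nat.card (tors K W)) := Pool.Agent.R425.G.tors_odd W hΔ hnrK
  have htQ : Odd (Nat.card (tors ℚ W)) := Pool.Agent.R425.G.tors_odd W hΔ hnr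
  -- the places that are not ramified
  have hval : ∀ v : HeightOneSpectrum (𝓞 K), ∀ l : ℕ, l.Prime → (l : 𝓞 K) ∈ v.asIdeal →
      ¬ (l : ℤ) ∣ discr K →
      (∀ x : ℚ, v.valuation K (algebraMap ℚ K x) = (v.under (𝓞 ℚ)).valuation ℚ x) :=
    fun v l hl hv hld => Pool.Agent.Y702.G.val_eq v _ rfl l
      (Pool.Agent.R425.unr_of_disc K hl hld v hv)
  have hTam : (∀ l : ℕ, l.Prime → (l : ℤ) ∣ discr K → ¬ (l : ℤ) ∣ W.Δ) →
      (Odd (Tam K W) ↔ Odd (Tam ℚ W)) := by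
    intro hnb
    refine Pool.Agent.K4H53.BSR.tam_iff4 W hΔ hn fun v hv => ?_
    obtain ⟨l, hl, hlv⟩ := Pool.Agent.R425.G.exists_prime_mem v
    have h5 : (l : ℤ) ∣ W.Δ := Pool.Agent.R425.G.not_both hl hlv hv
    exact hval v l hl hlv (fun h => hnb l hl h h5)
  have hTamE : (∃ l : ℕ, l.Prime ∧ (l : ℤ) ∣ discr K ∧ (l : ℤ) ∣ W.Δ) → ¬ Odd (Tam K W) := by
    rintro ⟨l, hl, hld, hlΔ⟩ hodd
    obtain ⟨v, hv⟩ : ∃ v : HeightOneSpectrum (𝓞 K), (l : 𝓞 K) ∈ v.asIdeal := by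
      have h0 : ¬ ¬ (l : ℤ) ∣ discr K := not_not.2 hld
      rw [not_dvd_discr_iff_forall_mem K (𝓞 K) (Nat.prime_iff_prime_int.1 hl)] at h0
      push Not at h0
      obtain ⟨Q, hQ, hlQ, -⟩ := h0
      have hlQ' : ((l : ℕ) : 𝓞 K) ∈ Q := by exact_mod_cast hlQ
      refine ⟨⟨Q, hQ, ?_⟩, hlQ'⟩
      rintro rfl
      exact hl.ne_zero (by exact_mod_cast Ideal.mem_bot.1 hlQ')
    have h1 := (P.mult W hΔ K n hn l hl hlΔ (hmult l hl hld hlΔ) v hv).2 (val_ne hn hl hld v hv)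
    have h2 := (Pool.Agent.R425.G.tam_odd_iff (K := K) W hΔ).1 hodd v
    exact Nat.not_even_iff_odd.2 h2 h1
  have hminK : ∀ v : HeightOneSpectrum (𝓞 K), MinimalAt W v := by
    intro v
    by_cases hv : ((W.Δ : ℤ) : 𝓞 K) ∈ v.asIdeal
    · obtain ⟨l, hl, hlv⟩ := Pool.Agent.R425.G.exists_prime_mem v
      have h5 : (l : ℤ) ∣ W.Δ := Pool.Agent.R425.G.not_both hl hlv hv
      by_cases hld : (l : ℤ) ∣ discr K
      · exact (P.mult W hΔ K n hn l hl h5 (hmult l hl hld h5) v hlv).1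
      · exact Pool.Agent.K4H53.BSD.min_up hΔ hn (hval v l hl hlv hld) (hmin _)
    · intro C h1 h2 h3 h4 h6
      have e : (base W K).Δ = (W.Δ : K) := by
        rw [WeierstrassCurve.map_Δ]
        simp
      rw [e, Pool.Agent.R425.G.unit_of W v hv]
      exact Pool.Agent.Y702.Fn.disc_le v _ h1 h2 h3 h4 h6
  -- the values
  obtain ⟨hO0, hOK, x₀, x, hx₀, hx, hx₀d, hxd, hxx⟩ : Omega ℚ W ≠ 0 ∧ Omega K W ≠ 0 ∧
      ∃ x₀ x : ℚ, HasValue ℚ W x₀ ∧ HasValue K W x ∧ Odd x₀.den ∧ Odd x.den ∧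
      (Odd x.num ↔ Odd x₀.num ∧ A) := by
    rcases lt_or_gt_of_ne hΔ with hneg | hpos
    · have h := values_neg W hneg f hSX Λ hg₂ hg₃ hman q hq hqΔ hqo m M K hGQ hdisc n hn htK htQ
      have hA3 : A ↔ AK W K := by
        rw [hA]
        exact ⟨fun h => h.2, fun h => ⟨fun h0 => absurd h0 (not_lt.2 hneg.le), h⟩⟩
      rw [hA3]
      exact h
    · have h := values_pos W hpos f hSX Λ hg₂ hg₃ hman q hq hqΔ hqo m M K hGQ hdisc n hn htK htQ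
      have hA3 : A ↔ (nrComplexPlaces K = 0 ∧ AK W K) := by
        rw [hA, hreal_iff]
        exact ⟨fun h => ⟨h.1 hpos, h.2⟩, fun h => ⟨fun _ => h.1, h.2⟩⟩
      rw [hA3]
      exact h
  -- the algebraic side
  have hdown : (rank K W = 0 ∧ Sha2 K W = {0}) → (rank ℚ W = 0 ∧ Sha2 ℚ W = {0}) ∧
      (0 < W.Δ → IsTotallyReal K) ∧ AG W K := by
    rw [side_iff W hΔ, side_iff W hΔ, hreal_iff]
    exact alg_downC W hΔ ae mo m hmo hme M K hdisc n hn P.sel hnr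
  have hup : Odd (Tam ℚ W) → (rank ℚ W = 0 ∧ Sha2 ℚ W = {0}) ∧ A →
      (rank K W = 0 ∧ Sha2 K W = {0}) := by
    intro hT
    rw [side_iff W hΔ, side_iff W hΔ, hA, hreal_iff]
    rintro ⟨h1, h2, h3⟩
    exact alg_upC W hΔ ae mo m hmo hme M K hdisc n hn hnr
      ((Pool.Agent.R425.G.tam_odd_iff (K := ℚ) W hΔ).1 hT) h1 h2 h3
  -- no prime of bad reduction is ramified if `A` holds
  have hAnb : A → ∀ l : ℕ, l.Prime → (l : ℤ) ∣ discr K → ¬ (l : ℤ) ∣ W.Δ := fun h =>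
    ((ak_iff W K).1 (hA.1 h).2).2
  have hdownA : (∀ l : ℕ, l.Prime → (l : ℤ) ∣ discr K → ¬ (l : ℤ) ∣ W.Δ) →
      (rank K W = 0 ∧ Sha2 K W = {0}) → (rank ℚ W = 0 ∧ Sha2 ℚ W = {0}) ∧ A := by
    intro hnb h
    obtain ⟨h1, h2, h3⟩ := hdown h
    exact ⟨h1, hA.2 ⟨h2, (ak_iff W K).2 ⟨h3, hnb⟩⟩⟩
  refine ⟨⟨hminK, Pool.Agent.R425.G.cv_fin W hΔ, Pool.Agent.R425.G.cv_fin W hΔ, htK, htQ,
    hTam, hTamE⟩, ⟨x₀, x, hx₀, hx, hx₀d, hxd, hxx⟩, hdown, hup, ?_, ?_, ?_⟩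
  · rintro ⟨y, hy, hyd, hyn⟩
    rw [value_uniq W hO0 hy hx₀] at hyn
    refine ⟨x, hx, hxd, ?_⟩
    by_cases hnb : ∀ l : ℕ, l.Prime → (l : ℤ) ∣ discr K → ¬ (l : ℤ) ∣ W.Δ
    · rw [hxx, hyn, hTam hnb]
      constructor
      · rintro ⟨⟨h1, h2, h3⟩, h4⟩
        obtain ⟨h5, h6⟩ := hup h3 ⟨⟨h1, h2⟩, h4⟩
        exact ⟨h5, h6, h3⟩
      · rintro ⟨h1, h2, h3⟩
        obtain ⟨⟨h4, h5⟩, h6⟩ := hdownA hnb ⟨h1, h2⟩
        exact ⟨⟨h4, h5, h3⟩, h6⟩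
    · constructor
      · intro h
        exact absurd (hAnb (hxx.1 h).2) hnb
      · rintro ⟨-, -, h3⟩
        push Not at hnb
        exact absurd h3 (hTamE hnb)
  · rintro hA' ⟨y, hy, hyd, hyn⟩
    rw [value_uniq W hOK hy hx] at hyn
    refine ⟨x₀, hx₀, hx₀d, ?_⟩
    have hnb := hAnb hA'
    rw [hTam hnb] at hyn
    constructor
    · intro h
      obtain ⟨h1, h2, h3⟩ := hyn.1 (hxx.2 ⟨h, hA'⟩)
      obtain ⟨⟨h4, h5⟩, -⟩ := hdown ⟨h1, h2⟩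
      exact ⟨h4, h5, h3⟩
    · rintro ⟨h1, h2, h3⟩
      obtain ⟨h4, h5⟩ := hup h3 ⟨⟨h1, h2⟩, hA'⟩
      exact (hxx.1 (hyn.2 ⟨h4, h5, h3⟩)).1
  · intro hA'
    refine ⟨x, hx, hxd, ?_⟩
    constructor
    · intro h
      exact absurd (hxx.1 h).2 hA'
    · rintro ⟨h1, h2, h3⟩
      by_cases hnb : ∀ l : ℕ, l.Prime → (l : ℤ) ∣ discr K → ¬ (l : ℤ) ∣ W.Δ
      · exact absurd (hdownA hnb ⟨h1, h2⟩).2 hA'
      · push Not at hnb
        exact absurd h3 (hTamE hnb)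

end Pool.Agent.K4H53.CX
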