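import Pool.Agent.K4H53.CX.Sm
import Pool.Agent.K4H53.BSR.Val4

/-!
# The twisted sums for all conductors: the parity of the total
-/

set_option autoImplicit false
set_option linter.all false

open Filter Topology MeasureTheory Set UpperHalfPlane MatrixGroups CongruenceSubgroup Finset

namespace Pool.Agent.K4H53.CX

open Pool.Agent.Y18.BSD (co bv PG HRel den_iff)
open Pool.Agent.TH940 (prim Fr)
open Pool.Agent.Y702.L (RR mem_RR sum_char_units)
open Pool.Agent.Y702.G (IsForm kapG pts prim_conj)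
open Pool.Agent.R425.G (PerA)
open Pool.Agent.R425.P (PerP hdlodd)
open Pool.Agent.K4H53.BSR (sum_pair4 neg_mem_RR4)

/-- the coefficients `a_p` -/
noncomputable def aW (W : WeierstrassCurve ℤ) (p : ℕ) : ℤ := (p : ℤ) - pts W (ZMod p)

/-- the conditions on the conductor `q` -/
def GQ (N q : ℕ) : Prop := QQ q ∧ ∀ l : ℕ, l.Prime → l ∣ q → l ∣ N → ¬ l ^ 2 ∣ N

/-- the standing assumptions -/
structure SX (W : WeierstrassCurve ℤ) (N : ℕ) [NeZero N]
    (f : CuspForm (Gamma0 N : Subgroup (GL (Fin 2) ℝ)) 2) : Prop where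
  lim : S_LIM
  eqv : S_EQV
  form : IsForm W N f
  odd : ∀ p : ℕ, p.Prime → p ∣ N → ¬ p ^ 2 ∣ N → Odd (aW W p)

variable {W : WeierstrassCurve ℤ} {N : ℕ} [NeZero N]
  {f : CuspForm (Gamma0 N : Subgroup (GL (Fin 2) ℝ)) 2}

lemma bw_zero (f : CuspForm (Gamma0 N : Subgroup (GL (Fin 2) ℝ)) 2) : bw f 0 = bv f 0 := by
  unfold bw bv
  rw [if_pos (by simp)]

lemma bw_conj (h : SX W N f) (r : ℚ) : bw f (-r) = (starRingEnd ℂ) (bw f r) := by
  have h1 := h.lim N f (-r)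
  have h2 := (Complex.continuous_conj.tendsto _).comp (h.lim N f r)
  refine tendsto_nhds_unique h1 (h2.congr fun y => ?_)
  show (starRingEnd ℂ) (prim f _) = _
  rw [← prim_conj h.form]
  congr 1
  simp only [map_add, map_mul, Complex.conj_ofReal, Complex.conj_I, map_ratCast]
  push_cast
  ring

lemma bw_sum (h : SX W N f) (q : ℕ) [NeZero q] (hq : GQ N q) :
    ∃ E : ℤ, (Odd E ↔ PQ (aW W) N q) ∧
      ∑ u : (ZMod q)ˣ, bw f (((u : ZMod q).val : ℚ) / q) = (E : ℂ) * bv f 0 := by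
  obtain ⟨E, h1, h2⟩ := T_main (B := bw f) (α := aW W) (N := N) (bw_period h.lim f)
    (fun p hp hpN r => by
      rw [← bw_hecke h.lim h.form.hrel hp hpN r, h.form.coef p hp]
      unfold aW; push_cast; rfl)
    (fun p hp hpN r => by
      rw [← bw_U h.lim h.form.hrel hp hpN r, h.form.coef p hp]
      unfold aW; push_cast; rfl)
    h.odd q hq.1 hq.2
  refine ⟨E, h2, ?_⟩
  rw [← TT_units, h1, bw_zero]

lemma bw_int (h : SX W N f) {l : ℕ} (hl : l.Prime) (hlN : ¬ l ∣ N) (q : ℕ) [NeZero q] (hq : GQ N q)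
    (u : ℕ) : (((l : ℤ) + 1 - ((l : ℤ) - pts W (ZMod l)) : ℤ) : ℂ) * bw f ((u : ℚ) / q) ∈ PG f := by
  refine bw_mem h.lim h.eqv h.form.hrel hl hlN _ ?_ _ ?_
  · rw [h.form.coef l hl]
    push_cast
    rfl
  · intro l' hl' hd hN
    refine hq.2 l' hl' (hd.trans ?_) hN
    have := Rat.den_dvd (u : ℤ) (q : ℤ)
    rw [Rat.divInt_eq_div] at this
    push_cast at this
    exact_mod_cast this

open Classical in
/-- the coordinates of the modular symbols -/
theorem coordQ {Op Om : ℝ} {Λ : Set ℂ} {c : ℤ} (hOp : 0 < Op) (hOm : 0 < Om)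
    (hlat : ∀ w : ℂ, w ∈ Λ ↔ ∃ a b : ℤ, w = a * Op + b * Om * Complex.I)
    (hman : ∀ x ∈ PG f, (c : ℂ) * x ∈ Λ) (h : SX W N f) {l : ℕ} (hl : l.Prime)
    (hlN : ¬ l ∣ N) (q : ℕ) [NeZero q] (hQ : GQ N q) :
    ∃ A B : (ZMod q)ˣ → ℤ, (∀ u, A (-u) = A u ∧ B (-u) = - B u) ∧
      ∀ u : (ZMod q)ˣ, ((c * ((l : ℤ) + 1 - ((l : ℤ) - pts W (ZMod l))) : ℤ) : ℂ) *
        bw f (((u : ZMod q).val : ℚ) / q) = A u * Op + B u * Om * Complex.I := by
  set a0 : ℤ := (l : ℤ) - pts W (ZMod l) with ha0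
  have hcol : co f l = (a0 : ℂ) := by
    rw [h.form.coef l hl, ha0]
    push_cast
    rfl
  set dl : ℤ := (l : ℤ) + 1 - a0 with hdl
  have hex : ∀ u : (ZMod q)ˣ, ∃ a b : ℤ,
      ((c * dl : ℤ) : ℂ) * bw f (((u : ZMod q).val : ℚ) / q) = a * Op + b * Om * Complex.I := by
    intro u
    have h1 := bw_int h hl hlN q hQ (u : ZMod q).val
    obtain ⟨a, b, h3⟩ := (hlat _).1 (hman _ h1)
    refine ⟨a, b, ?_⟩
    rw [← h3, Int.cast_mul, mul_assoc]
  choose A B hJ using hex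
  refine ⟨A, B, ?_, hJ⟩
  -- comparison of coordinates
  have coord : ∀ a b a' b' : ℤ, (a * Op + b * Om * Complex.I : ℂ) =
      a' * Op + b' * Om * Complex.I → a = a' ∧ b = b' := by
    intro a b a' b' h
    have h1 := congrArg Complex.re h
    have h2 := congrArg Complex.im h
    simp at h1 h2
    constructor
    · rcases h1 with h1 | h1
      · exact_mod_cast h1
      · exact absurd h1 hOp.ne'
    · rcases h2 with h2 | h2
      · exact_mod_cast h2
      · exact absurd h2 hOm.ne'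
  intro u
  have e1 : bw f ((((-u : (ZMod q)ˣ) : ZMod q).val : ℚ) / q) =
      (starRingEnd ℂ) (bw f (((u : ZMod q).val : ℚ) / q)) := by
    rw [← bw_conj h]
    have e2 : (((-u : (ZMod q)ˣ) : ZMod q)) = ((-((u : ZMod q).val : ℤ) : ℤ) : ZMod q) := by
      push_cast
      rw [ZMod.natCast_zmod_val]
    rw [e2, B_val (bw_period h.lim f)]
    congr 1
    push_cast
    ring
  have e3 : ((c * dl : ℤ) : ℂ) * bw f ((((-u : (ZMod q)ˣ) : ZMod q).val : ℚ) / q) =
      ((c * dl : ℤ) : ℂ) * (starRingEnd ℂ) (bw f (((u : ZMod q).val : ℚ) / q)) := by rw [e1]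
  rw [hJ] at e3
  have e4 : ((c * dl : ℤ) : ℂ) * (starRingEnd ℂ) (bw f (((u : ZMod q).val : ℚ) / q)) =
      A u * Op + ((-B u : ℤ) : ℂ) * Om * Complex.I := by
    have e5 := congrArg (starRingEnd ℂ) (hJ u)
    simp only [map_add, map_mul, Complex.conj_ofReal, Complex.conj_I, map_intCast] at e5
    rw [e5]
    push_cast
    ring
  rw [e4] at e3
  exact coord _ _ _ _ e3

open Classical in
theorem val_charA {Op Om : ℝ} {Λ : Set ℂ} {c s t : ℤ} (h : SX W N f)
    (hP : PerA f Op Om Λ c s t) {l : ℕ} (hl : l.Prime) (hlN : ¬ l ∣ N) (hl2 : l ≠ 2)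
    (hlo : Odd ((l : ℤ) - pts W (ZMod l)))
    (q : ℕ) [NeZero q] (hQ : GQ N q) :
    ∃ (D : ℤ) (A B : (ZMod q)ˣ → ℤ), Odd D ∧
      (Odd (∑ u ∈ RR q, A u) ↔
        (Odd s ∧ PQ (aW W) N q)) ∧
      (Odd (∑ u ∈ RR q, B u) ↔
        (Odd s ∧ PQ (aW W) N q)) ∧
      ∀ ψ : DirichletCharacter ℂ q, ψ.IsPrimitive →
        D * ∑ u : (ZMod q)ˣ, ψ (u : ZMod q) * bw f (((u : ZMod q).val : ℚ) / q) =
          kapG Op Om (ψ (-1) = 1) * ∑ u ∈ RR q, ψ (u : ZMod q) *
            ((if ψ (-1) = 1 then A u else B u : ℤ) : ℂ) := by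
  by_cases hq1 : q = 1
  · subst hq1
    have hR : RR 1 = {1} := by
      ext u
      rw [mem_RR, Finset.mem_singleton]
      have h1 := ZMod.val_lt (u : ZMod 1)
      constructor
      · intro _
        exact Subsingleton.elim _ _
      · intro _
        omega
    have htr : PQ (aW W) N 1 := ⟨fun l hl h => absurd (Nat.dvd_one.1 h) hl.ne_one,
      fun h => absurd h (by norm_num)⟩
    refine ⟨t, fun _ => s, fun _ => s, hP.t_odd, by
      rw [hR, Finset.sum_singleton]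
      exact ⟨fun h => ⟨h, htr⟩, fun h => h.1⟩, by
      rw [hR, Finset.sum_singleton]
      exact ⟨fun h => ⟨h, htr⟩, fun h => h.1⟩, fun ψ _ => ?_⟩
    have hψ : ψ (-1 : ZMod 1) = 1 := by
      have : (-1 : ZMod 1) = 1 := Subsingleton.elim _ _
      rw [this, map_one]
    have hd : ((default : (ZMod 1)ˣ)) = 1 := Subsingleton.elim _ _
    have hv : (((1 : (ZMod 1)ˣ) : ZMod 1).val : ℚ) / ((1 : ℕ) : ℚ) = 0 := by
      have : (((1 : (ZMod 1)ˣ) : ZMod 1)).val = 0 := by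
        have := ZMod.val_lt ((1 : (ZMod 1)ˣ) : ZMod 1)
        omega
      rw [this]; simp
    rw [Fintype.sum_unique, hR, Finset.sum_singleton, if_pos hψ, hd, hv, bw_zero]
    unfold kapG
    rw [if_pos hψ, Units.val_one, map_one, one_mul, one_mul, hP.val]
    ring
  have hq : 1 < q := by
    have := NeZero.pos q
    omega
  have hfact : Fact (1 < q) := ⟨hq⟩
  have hq2 : 2 < q := by
    have := hQ.1.ne_two
    omega
  -- the auxiliary prime
  set a0 : ℤ := (l : ℤ) - pts W (ZMod l) with ha0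
  have hcol : co f l = (a0 : ℂ) := by
    rw [h.form.coef l hl, ha0]
    push_cast
    rfl
  set dl : ℤ := (l : ℤ) + 1 - a0 with hdl
  have hdlodd : Odd dl := by
    have h1 := hlo
    have h2 : Odd (l : ℤ) := by
      have : Odd l := hl.odd_of_ne_two hl2
      exact_mod_cast this
    rw [hdl]
    have h3 : Even ((l : ℤ) - a0) := h2.sub_odd h1
    have e : (l : ℤ) + 1 - a0 = ((l : ℤ) - a0) + 1 := by ring
    rw [e]
    exact h3.add_one
  have hex : ∀ u : (ZMod q)ˣ, ∃ a b : ℤ, 2 ∣ a - b ∧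
      ((c * dl : ℤ) : ℂ) * bw f (((u : ZMod q).val : ℚ) / q) = a * Op + b * Om * Complex.I := by
    intro u
    have h1 := bw_int h hl hlN q hQ (u : ZMod q).val
    obtain ⟨a, b, h2, h3⟩ := (hP.lat _).1 (hP.man _ h1)
    refine ⟨a, b, h2, ?_⟩
    rw [← h3, Int.cast_mul, mul_assoc]
  choose A B hAB hJ using hex
  have hOp := hP.Op_pos
  have hOm := hP.Om_pos
  -- comparison of coordinates
  have coord : ∀ a b a' b' : ℤ, (a * Op + b * Om * Complex.I : ℂ) =
      a' * Op + b' * Om * Complex.I → a = a' ∧ b = b' := by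
    intro a b a' b' h
    have h1 := congrArg Complex.re h
    have h2 := congrArg Complex.im h
    simp at h1 h2
    constructor
    · rcases h1 with h1 | h1
      · exact_mod_cast h1
      · exact absurd h1 hOp.ne'
    · rcases h2 with h2 | h2
      · exact_mod_cast h2
      · exact absurd h2 hOm.ne'
  have hneg : ∀ u : (ZMod q)ˣ, A (-u) = A u ∧ B (-u) = - B u := by
    intro u
    have e1 : bw f ((((-u : (ZMod q)ˣ) : ZMod q).val : ℚ) / q) =
        (starRingEnd ℂ) (bw f (((u : ZMod q).val : ℚ) / q)) := by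
      rw [← bw_conj h]
      have e2 : (((-u : (ZMod q)ˣ) : ZMod q)) = ((-((u : ZMod q).val : ℤ) : ℤ) : ZMod q) := by
        push_cast
        rw [ZMod.natCast_zmod_val]
      rw [e2, B_val (bw_period h.lim f)]
      congr 1
      push_cast
      ring
    have e3 : ((c * dl : ℤ) : ℂ) * bw f ((((-u : (ZMod q)ˣ) : ZMod q).val : ℚ) / q) =
        ((c * dl : ℤ) : ℂ) * (starRingEnd ℂ) (bw f (((u : ZMod q).val : ℚ) / q)) := by rw [e1]
    rw [hJ] at e3
    have e4 : ((c * dl : ℤ) : ℂ) * (starRingEnd ℂ) (bw f (((u : ZMod q).val : ℚ) / q)) =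
        A u * Op + ((-B u : ℤ) : ℂ) * Om * Complex.I := by
      have e5 := congrArg (starRingEnd ℂ) (hJ u)
      simp only [map_add, map_mul, Complex.conj_ofReal, Complex.conj_I, map_intCast] at e5
      rw [e5]
      push_cast
      ring
    rw [e4] at e3
    exact coord _ _ _ _ e3
  -- the total
  have htot : Odd (∑ u ∈ RR q, t * A u) ↔
      (Odd s ∧ PQ (aW W) N q) := by
    obtain ⟨E, hEodd, h1⟩ := bw_sum h q hQ
    have h2 : ((c * dl : ℤ) : ℂ) * ∑ u : (ZMod q)ˣ, bw f (((u : ZMod q).val : ℚ) / q) =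
        ((∑ u, A u : ℤ) : ℂ) * Op + ((∑ u, B u : ℤ) : ℂ) * Om * Complex.I := by
      rw [Finset.mul_sum]
      simp_rw [hJ]
      rw [Finset.sum_add_distrib, ← Finset.sum_mul, ← Finset.sum_mul, ← Finset.sum_mul]
      push_cast
      ring
    have h4 : ((t * (∑ u, A u) : ℤ) : ℂ) * Op + ((t * (∑ u, B u) : ℤ) : ℂ) * Om * Complex.I =
        ((2 * c * dl * E * s : ℤ) : ℂ) * Op + ((0 : ℤ) : ℂ) * Om * Complex.I := by
      have h5 := hP.val
      rw [h1] at h2
      push_cast at h2 ⊢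
      linear_combination (-(t : ℂ)) * h2 + (c : ℂ) * dl * E * h5
    obtain ⟨h6, -⟩ := coord _ _ _ _ h4
    have h5 : ∑ u, A u = 2 * ∑ u ∈ RR q, A u := by
      rw [sum_pair4 q hq2, Finset.mul_sum]
      refine Finset.sum_congr rfl fun u _ => ?_
      rw [(hneg u).1]; ring
    rw [h5] at h6
    have h7 : t * ∑ u ∈ RR q, A u = c * dl * E * s := by
      have : (2 : ℤ) * (t * ∑ u ∈ RR q, A u) = 2 * (c * dl * E * s) := by linear_combination h6
      exact mul_left_cancel₀ two_ne_zero this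
    rw [← Finset.mul_sum, h7]
    rw [Int.odd_mul, Int.odd_mul, Int.odd_mul, hEodd]
    have h8 := hP.c_odd
    tauto
  have htotB : Odd (∑ u ∈ RR q, t * B u) ↔
      (Odd s ∧ PQ (aW W) N q) := by
    rw [← htot]
    have h1 : (2 : ℤ) ∣ ∑ u ∈ RR q, t * A u - ∑ u ∈ RR q, t * B u := by
      rw [← Finset.sum_sub_distrib]
      refine Finset.dvd_sum fun u _ => ?_
      rw [← mul_sub]
      exact Dvd.dvd.mul_left (hAB u) t
    obtain ⟨x, hx⟩ := h1
    constructor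
    · rintro ⟨y, hy⟩
      exact ⟨y + x, by linarith⟩
    · rintro ⟨y, hy⟩
      exact ⟨y - x, by linarith⟩
  refine ⟨c * dl * t, fun u => t * A u, fun u => t * B u, (hP.c_odd.mul hdlodd).mul hP.t_odd, htot,
    htotB, fun ψ hψ => ?_⟩
  have e1 : ((c * dl * t : ℤ) : ℂ) * ∑ u : (ZMod q)ˣ, ψ (u : ZMod q) * bw f (((u : ZMod q).val : ℚ) / q) =
      Op * ∑ u : (ZMod q)ˣ, ψ (u : ZMod q) * (t * A u : ℤ) +
        Om * Complex.I * ∑ u : (ZMod q)ˣ, ψ (u : ZMod q) * (t * B u : ℤ) := by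
    rw [Finset.mul_sum, Finset.mul_sum, Finset.mul_sum, ← Finset.sum_add_distrib]
    refine Finset.sum_congr rfl fun u _ => ?_
    have := hJ u
    push_cast at this ⊢
    linear_combination (ψ (u : ZMod q) * t) * this
  rw [e1, sum_pair4 q hq2, sum_pair4 q hq2 (fun u => ψ (u : ZMod q) * ((t * B u : ℤ) : ℂ))]
  have hm : ∀ u : (ZMod q)ˣ, ψ ((-u : (ZMod q)ˣ) : ZMod q) = ψ (-1) * ψ (u : ZMod q) := by
    intro u
    rw [Units.val_neg, ← map_mul, neg_one_mul]
  unfold kapG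
  rcases ψ.even_or_odd with hev | hod
  · have hev' : ψ (-1) = 1 := hev
    rw [if_pos hev']
    simp only [if_pos hev']
    have e2 : ∀ u ∈ RR q, ψ (u : ZMod q) * ((t * A u : ℤ) : ℂ) +
        ψ ((-u : (ZMod q)ˣ) : ZMod q) * ((t * A (-u) : ℤ) : ℂ) =
        2 * (ψ (u : ZMod q) * ((t * A u : ℤ) : ℂ)) := by
      intro u _
      rw [hm, hev', (hneg u).1]; ring
    have e3 : ∀ u ∈ RR q, ψ (u : ZMod q) * ((t * B u : ℤ) : ℂ) +
        ψ ((-u : (ZMod q)ˣ) : ZMod q) * ((t * B (-u) : ℤ) : ℂ) = 0 := by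
      intro u _
      rw [hm, hev', (hneg u).2]; push_cast; ring
    rw [Finset.sum_congr rfl e2, Finset.sum_congr rfl e3, Finset.sum_const_zero, mul_zero, add_zero,
      ← Finset.mul_sum]
    ring
  · have hod' : ψ (-1) = -1 := hod
    have hne : ¬ ψ (-1) = 1 := by
      rw [hod']; norm_num
    rw [if_neg hne]
    simp only [if_neg hne]
    have e2 : ∀ u ∈ RR q, ψ (u : ZMod q) * ((t * A u : ℤ) : ℂ) +
        ψ ((-u : (ZMod q)ˣ) : ZMod q) * ((t * A (-u) : ℤ) : ℂ) = 0 := by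
      intro u _
      rw [hm, hod', (hneg u).1]; ring
    have e3 : ∀ u ∈ RR q, ψ (u : ZMod q) * ((t * B u : ℤ) : ℂ) +
        ψ ((-u : (ZMod q)ˣ) : ZMod q) * ((t * B (-u) : ℤ) : ℂ) =
        2 * (ψ (u : ZMod q) * ((t * B u : ℤ) : ℂ)) := by
      intro u _
      rw [hm, hod', (hneg u).2]; push_cast; ring
    rw [Finset.sum_congr rfl e2, Finset.sum_congr rfl e3, Finset.sum_const_zero, mul_zero, zero_add,
      ← Finset.mul_sum]
    ring

/-- the total of the coordinates -/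
theorem totP {Op Om : ℝ} {c : ℤ} (hOp : 0 < Op) (hOm : 0 < Om) {l : ℕ}
    (q : ℕ) [NeZero q] (hq : 1 < q) (hq2 : 2 < q) (E : ℤ)
    (h1 : ∑ u : (ZMod q)ˣ, bw f (((u : ZMod q).val : ℚ) / q) = (E : ℂ) * bv f 0)
    (A B : (ZMod q)ˣ → ℤ) (hneg : ∀ u, A (-u) = A u ∧ B (-u) = - B u)
    (hJ : ∀ u : (ZMod q)ˣ, ((c * ((l : ℤ) + 1 - ((l : ℤ) - pts W (ZMod l))) : ℤ) : ℂ) *
        bw f (((u : ZMod q).val : ℚ) / q) = A u * Op + B u * Om * Complex.I) :
    ((c * ((l : ℤ) + 1 - ((l : ℤ) - pts W (ZMod l))) * E : ℤ) : ℂ) * bv f 0 =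
        ((∑ u ∈ RR q, A u : ℤ) : ℂ) * (2 * Op) := by
  set dl : ℤ := (l : ℤ) + 1 - ((l : ℤ) - pts W (ZMod l)) with hdl
  have h2 : ((c * dl : ℤ) : ℂ) * ∑ u : (ZMod q)ˣ, bw f (((u : ZMod q).val : ℚ) / q) =
      ((∑ u, A u : ℤ) : ℂ) * Op + ((∑ u, B u : ℤ) : ℂ) * Om * Complex.I := by
    rw [Finset.mul_sum]
    simp_rw [hJ]
    rw [Finset.sum_add_distrib, ← Finset.sum_mul, ← Finset.sum_mul, ← Finset.sum_mul]
    push_cast
    ring
  have hfact : Fact (1 < q) := ⟨hq⟩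
  have h5 : ∑ u, A u = 2 * ∑ u ∈ RR q, A u := by
    rw [sum_pair4 q hq2, Finset.mul_sum]
    refine Finset.sum_congr rfl fun u _ => ?_
    rw [(hneg u).1]; ring
  have h6 : ∑ u, B u = 0 := by
    rw [sum_pair4 q hq2]
    refine Finset.sum_eq_zero fun u _ => ?_
    rw [(hneg u).2]; ring
  rw [h1, h5, h6] at h2
  push_cast at h2 ⊢
  linear_combination h2

open Classical in
theorem val_charP {Op Om : ℝ} {Λ : Set ℂ} {c s t : ℤ} (h : SX W N f)
    (hP : PerP f Op Om Λ c s t) {l : ℕ} (hl : l.Prime) (hlN : ¬ l ∣ N) (hl2 : l ≠ 2)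
    (hlo : Odd ((l : ℤ) - pts W (ZMod l)))
    (q : ℕ) [NeZero q] (hQ : GQ N q) :
    ∃ (D : ℤ) (A B : (ZMod q)ˣ → ℤ), Odd D ∧
      (Odd (∑ u ∈ RR q, A u) ↔
        (Odd s ∧ PQ (aW W) N q)) ∧
      ∀ ψ : DirichletCharacter ℂ q, ψ.IsPrimitive →
        D * ∑ u : (ZMod q)ˣ, ψ (u : ZMod q) * bw f (((u : ZMod q).val : ℚ) / q) =
          kapG Op Om (ψ (-1) = 1) * ∑ u ∈ RR q, ψ (u : ZMod q) *
            ((if ψ (-1) = 1 then A u else B u : ℤ) : ℂ) := by
  by_cases hq1 : q = 1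
  · subst hq1
    have hR : RR 1 = {1} := by
      ext u
      rw [mem_RR, Finset.mem_singleton]
      have h1 := ZMod.val_lt (u : ZMod 1)
      constructor
      · intro _
        exact Subsingleton.elim _ _
      · intro _
        omega
    have htr : PQ (aW W) N 1 := ⟨fun l hl h => absurd (Nat.dvd_one.1 h) hl.ne_one,
      fun h => absurd h (by norm_num)⟩
    refine ⟨t, fun _ => s, fun _ => s, hP.t_odd, by
      rw [hR, Finset.sum_singleton]
      exact ⟨fun h => ⟨h, htr⟩, fun h => h.1⟩, fun ψ _ => ?_⟩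
    have hψ : ψ (-1 : ZMod 1) = 1 := by
      have : (-1 : ZMod 1) = 1 := Subsingleton.elim _ _
      rw [this, map_one]
    have hd : ((default : (ZMod 1)ˣ)) = 1 := Subsingleton.elim _ _
    have hv : (((1 : (ZMod 1)ˣ) : ZMod 1).val : ℚ) / ((1 : ℕ) : ℚ) = 0 := by
      have : (((1 : (ZMod 1)ˣ) : ZMod 1)).val = 0 := by
        have := ZMod.val_lt ((1 : (ZMod 1)ˣ) : ZMod 1)
        omega
      rw [this]; simp
    rw [Fintype.sum_unique, hR, Finset.sum_singleton, if_pos hψ, hd, hv, bw_zero]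
    unfold kapG
    rw [if_pos hψ, Units.val_one, map_one, one_mul, one_mul, hP.val]
    ring
  have hq : 1 < q := by
    have := NeZero.pos q
    omega
  have hfact : Fact (1 < q) := ⟨hq⟩
  obtain ⟨A, B, hneg, hJ⟩ := coordQ hP.Op_pos hP.Om_pos hP.lat hP.man h hl hlN q hQ
  have hq2 : 2 < q := by
    have := hQ.1.ne_two
    omega
  obtain ⟨E, hEo, hsE⟩ := bw_sum h q hQ
  have htt := totP hP.Op_pos hP.Om_pos q hq hq2 E hsE A B hneg hJ
  have hdlo := hdlodd (W := W) hl hl2 hlo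
  set dl : ℤ := (l : ℤ) + 1 - ((l : ℤ) - pts W (ZMod l)) with hdl
  -- the total
  have htot : Odd (∑ u ∈ RR q, t * A u) ↔
      (Odd s ∧ PQ (aW W) N q) := by
    have h7 : t * ∑ u ∈ RR q, A u = c * dl * E * s := by
      have h5 := hP.val
      have h6 : ((t * ∑ u ∈ RR q, A u : ℤ) : ℂ) * (2 * Op) =
          ((c * dl * E * s : ℤ) : ℂ) * (2 * Op) := by
        push_cast at htt ⊢
        linear_combination (-(t : ℂ)) * htt + (c : ℂ) * dl * E * h5
      have h8 : (2 * Op : ℂ) ≠ 0 := by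
        have := hP.Op_pos.ne'
        exact mul_ne_zero two_ne_zero (by exact_mod_cast this)
      exact_mod_cast mul_right_cancel₀ h8 h6
    rw [← Finset.mul_sum, h7, Int.odd_mul, Int.odd_mul, Int.odd_mul, hEo]
    have h8 := hP.c_odd
    tauto
  refine ⟨c * dl * t, fun u => t * A u, fun u => t * B u, (hP.c_odd.mul hdlo).mul hP.t_odd, htot,
    fun ψ hψ => ?_⟩
  have e1 : ((c * dl * t : ℤ) : ℂ) * ∑ u : (ZMod q)ˣ, ψ (u : ZMod q) * bw f (((u : ZMod q).val : ℚ) / q) =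
      Op * ∑ u : (ZMod q)ˣ, ψ (u : ZMod q) * (t * A u : ℤ) +
        Om * Complex.I * ∑ u : (ZMod q)ˣ, ψ (u : ZMod q) * (t * B u : ℤ) := by
    rw [Finset.mul_sum, Finset.mul_sum, Finset.mul_sum, ← Finset.sum_add_distrib]
    refine Finset.sum_congr rfl fun u _ => ?_
    have := hJ u
    push_cast at this ⊢
    linear_combination (ψ (u : ZMod q) * t) * this
  rw [e1, sum_pair4 q hq2, sum_pair4 q hq2 (fun u => ψ (u : ZMod q) * ((t * B u : ℤ) : ℂ))]
  have hm : ∀ u : (ZMod q)ˣ, ψ ((-u : (ZMod q)ˣ) : ZMod q) = ψ (-1) * ψ (u : ZMod q) := by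
    intro u
    rw [Units.val_neg, ← map_mul, neg_one_mul]
  unfold kapG
  rcases ψ.even_or_odd with hev | hod
  · have hev' : ψ (-1) = 1 := hev
    rw [if_pos hev']
    simp only [if_pos hev']
    have e2 : ∀ u ∈ RR q, ψ (u : ZMod q) * ((t * A u : ℤ) : ℂ) +
        ψ ((-u : (ZMod q)ˣ) : ZMod q) * ((t * A (-u) : ℤ) : ℂ) =
        2 * (ψ (u : ZMod q) * ((t * A u : ℤ) : ℂ)) := by
      intro u _
      rw [hm, hev', (hneg u).1]; ring
    have e3 : ∀ u ∈ RR q, ψ (u : ZMod q) * ((t * B u : ℤ) : ℂ) +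
        ψ ((-u : (ZMod q)ˣ) : ZMod q) * ((t * B (-u) : ℤ) : ℂ) = 0 := by
      intro u _
      rw [hm, hev', (hneg u).2]; push_cast; ring
    rw [Finset.sum_congr rfl e2, Finset.sum_congr rfl e3, Finset.sum_const_zero, mul_zero, add_zero,
      ← Finset.mul_sum]
    ring
  · have hod' : ψ (-1) = -1 := hod
    have hne : ¬ ψ (-1) = 1 := by
      rw [hod']; norm_num
    rw [if_neg hne]
    simp only [if_neg hne]
    have e2 : ∀ u ∈ RR q, ψ (u : ZMod q) * ((t * A u : ℤ) : ℂ) +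
        ψ ((-u : (ZMod q)ˣ) : ZMod q) * ((t * A (-u) : ℤ) : ℂ) = 0 := by
      intro u _
      rw [hm, hod', (hneg u).1]; ring
    have e3 : ∀ u ∈ RR q, ψ (u : ZMod q) * ((t * B u : ℤ) : ℂ) +
        ψ ((-u : (ZMod q)ˣ) : ZMod q) * ((t * B (-u) : ℤ) : ℂ) =
        2 * (ψ (u : ZMod q) * ((t * B u : ℤ) : ℂ)) := by
      intro u _
      rw [hm, hod', (hneg u).2]; push_cast; ring
    rw [Finset.sum_congr rfl e2, Finset.sum_congr rfl e3, Finset.sum_const_zero, mul_zero, zero_add,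
      ← Finset.mul_sum]
    ring

end Pool.Agent.K4H53.CX
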