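import Pool.Agent.Y702.G.Fin
import Pool.Agent.R425.Un
import Pool.Agent.K4H53.CX.Val
import Pool.Agent.K4H53.BSR.Prod4

/-!
# The product of the twisted sums over the characters of level `2^a m` and its parity
-/

set_option autoImplicit false
set_option linter.all false

open Filter Topology MeasureTheory Set UpperHalfPlane MatrixGroups CongruenceSubgroup Finset
open NumberField IsDedekindDomain H300.HW NumberField.InfinitePlace

namespace Pool.Agent.K4H53.CX

open Pool.Agent.Y18.BSD (co bv PG)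
open Pool.Agent.Y702.L (RR wt sum_wt sect map_sect prim_unit prim_neg_one nz_cond card_even_odd)
open Pool.Agent.Y702.G (IsForm kapG pts)
open Pool.Agent.R425 (unit_iff)
open Pool.Agent.R425.G (PerA)
open Pool.Agent.R425.P (PerP)
open Pool.Agent.K4H53.BSR (cond_mod4)

lemma cond_QQ (a m n : ℕ) [NeZero n] (hsq : Squarefree m) (hodd : Odd m) (hn : n = 2 ^ a * m)
    (χ : DirichletCharacter ℂ n) : QQ χ.conductor := by
  have h1 := cond_mod4 χ
  have h2 : χ.conductor ∣ 2 ^ a * m := by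
    rw [← hn]
    exact χ.conductor_dvd_level
  have h0 : χ.conductor ≠ 0 := χ.conductor_ne_zero
  obtain ⟨b, q', hq', hq⟩ := Nat.exists_eq_two_pow_mul_odd h0
  have h4 : q' ∣ m := by
    have h5 : q' ∣ 2 ^ a * m := (Dvd.intro_left _ hq.symm).trans h2
    exact Nat.Coprime.dvd_of_dvd_mul_left (Nat.Coprime.pow_right a (Nat.coprime_two_right.2 hq')) h5
  have h6 := hsq.squarefree_of_dvd h4
  rcases b with _ | _ | b
  · exact ⟨0, q', hq', h6, Or.inl (by rw [hq]; ring)⟩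
  · exfalso
    apply h1
    obtain ⟨k, hk⟩ := hq'
    rw [hq, hk]
    omega
  · exact ⟨b, q', hq', h6, Or.inr (by rw [hq])⟩

lemma cond_GQ (a m n : ℕ) [NeZero n] (hsq : Squarefree m) (hodd : Odd m) (hn : n = 2 ^ a * m)
    {N : ℕ} (hN : ∀ l : ℕ, l.Prime → l ∣ n → l ∣ N → ¬ l ^ 2 ∣ N)
    (χ : DirichletCharacter ℂ n) : GQ N χ.conductor :=
  ⟨cond_QQ a m n hsq hodd hn χ, fun l hl hd => hN l hl (hd.trans χ.conductor_dvd_level)⟩

variable {W : WeierstrassCurve ℤ} {N : ℕ} [NeZero N]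
  {f : CuspForm (Gamma0 N : Subgroup (GL (Fin 2) ℝ)) 2}

open Classical in
theorem prod_valA {Op Om : ℝ} {Λ : Set ℂ} {c s t : ℤ} (hS : SX W N f)
    (hP : PerA f Op Om Λ c s t) {l : ℕ} (hl : l.Prime) (hlN : ¬ l ∣ N) (hl2 : l ≠ 2)
    (hlo : Odd ((l : ℤ) - pts W (ZMod l)))
    (n : ℕ) [NeZero n]
    (Y : Subgroup (DirichletCharacter ℂ n)) (hG : ∀ χ ∈ Y, GQ N χ.conductor)
    (k : ℕ) (hY : Nat.card Y = 2 ^ k) :
    ∃ D M : ℤ, Odd D ∧ (Odd M ↔ (Odd s ∧ ∀ χ ∈ Y, PQ (aW W) N χ.conductor)) ∧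
      D * ∏ χ : Y, (∑ u : (ZMod (χ : DirichletCharacter ℂ n).conductor)ˣ,
        ((χ : DirichletCharacter ℂ n).primitiveCharacter)⁻¹ (u : ZMod _) *
          bw f (((u : ZMod (χ : DirichletCharacter ℂ n).conductor).val : ℚ) /
            (χ : DirichletCharacter ℂ n).conductor)) =
      (∏ χ : Y, kapG Op Om ((χ : DirichletCharacter ℂ n) (-1) = 1)) * M := by
  have nz : ∀ q : ℕ, q ∣ n → NeZero q := fun q h => ⟨fun h0 => NeZero.ne n (by
    rw [h0] at h; exact zero_dvd_iff.1 h)⟩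
  have hex : ∀ (q : ℕ) (h : q ∣ n), haveI := nz q h;
      ∃ (D : ℤ) (A B : (ZMod q)ˣ → ℤ), Odd D ∧
      (GQ N q → (Odd (∑ u ∈ RR q, A u) ↔
        (Odd s ∧ PQ (aW W) N q))) ∧
      (GQ N q → (Odd (∑ u ∈ RR q, B u) ↔
        (Odd s ∧ PQ (aW W) N q))) ∧
      (GQ N q → ∀ ψ : DirichletCharacter ℂ q, ψ.IsPrimitive →
        D * ∑ u : (ZMod q)ˣ, ψ (u : ZMod q) * bw f (((u : ZMod q).val : ℚ) / q) =
          kapG Op Om (ψ (-1) = 1) * ∑ u ∈ RR q, ψ (u : ZMod q) *
            ((if ψ (-1) = 1 then A u else B u : ℤ) : ℂ)) := by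
    intro q h
    haveI := nz q h
    by_cases hQ : GQ N q
    · obtain ⟨D, A, B, h1, h2, h3, h4⟩ := val_charA hS hP hl hlN hl2 hlo q hQ
      exact ⟨D, A, B, h1, fun _ => h2, fun _ => h3, fun _ => h4⟩
    · exact ⟨1, fun _ => 0, fun _ => 0, odd_one, fun h => absurd h hQ, fun h => absurd h hQ, fun h => absurd h hQ⟩
  choose D A B hD hA hB hV using hex
  -- the weights
  let Wt : (q : ℕ) → q ∣ n → Prop → (ZMod n)ˣ → ℤ := fun q h ev =>
    haveI := nz q h
    wt h (fun t => if ev then A q h t else B q h t)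
  have hW : ∀ (q1 q2 : ℕ) (h1 : q1 ∣ n) (h2 : q2 ∣ n) (e1 e2 : Prop), q1 = q2 → (e1 ↔ e2) →
      ∀ u, Wt q1 h1 e1 u = Wt q2 h2 e2 u := by
    rintro q1 _ h1 h2 e1 e2 rfl he u
    have he' := propext he
    subst he'
    rfl
  let cw : DirichletCharacter ℂ n → (ZMod n)ˣ → ℤ := fun χ =>
    Wt χ.conductor χ.conductor_dvd_level (χ (-1) = 1)
  have hmone : ((-1 : ZMod n)) = ((-1 : (ZMod n)ˣ) : ZMod n) := by
    rw [Units.val_neg, Units.val_one]
  have hsqone : ∀ χ : DirichletCharacter ℂ n, χ (-1) = 1 ∨ χ (-1) = -1 := fun χ => χ.even_or_odd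
  have hpow : ∀ χ ∈ Y, ∀ a : ℕ, Odd a → ∀ u, cw (χ ^ a) u = cw χ u := by
    intro χ hχ a ha u
    apply hW
    · apply Nat.dvd_antisymm (χ.conductor_pow_dvd a)
      -- an inverse exponent
      have h2k : χ ^ (2 ^ k) = 1 := by
        have h1 : (⟨χ, hχ⟩ : Y) ^ Nat.card Y = 1 := pow_card_eq_one'
        rw [hY] at h1
        exact congrArg Subtype.val h1
      obtain ⟨b, hb⟩ : ∃ b : ℕ, χ ^ (a * b) = χ := by
        have hcop : Nat.Coprime a (2 ^ k) := (Nat.coprime_two_right.2 ha).pow_right k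
        rcases Nat.eq_zero_or_pos k with hk0 | hk0
        · subst hk0
          rw [pow_zero, pow_one] at h2k
          exact ⟨1, by rw [h2k, one_pow]⟩
        · have h2 : 1 < 2 ^ k := Nat.one_lt_two_pow hk0.ne'
          obtain ⟨b, hb⟩ := Nat.exists_mul_mod_eq_one_of_coprime hcop h2
          refine ⟨b, ?_⟩
          rw [← Nat.div_add_mod (a * b) (2 ^ k), hb.2, pow_add, pow_mul, h2k, one_pow, one_mul,
            pow_one]
      have h3 := (χ ^ a).conductor_pow_dvd b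
      rwa [← pow_mul, hb] at h3
    · rw [hmone, MulChar.pow_apply_coe]
      rw [← hmone]
      rcases hsqone χ with h1 | h1
      · rw [h1, one_pow]
      · rw [h1, ha.neg_one_pow]
  have hoddc : ∀ χ ∈ Y, (Odd (∑ u, cw χ u) ↔ (Odd s ∧
      PQ (aW W) N χ.conductor)) := by
    intro χ hχ
    have h1 := sum_wt (R := ℤ) χ.conductor_dvd_level (fun t => if χ (-1) = 1 then
      A χ.conductor χ.conductor_dvd_level t else B χ.conductor χ.conductor_dvd_level t)
      (fun _ => 1)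
    simp only [one_mul, Int.cast_id] at h1
    have h2 : ∑ u, cw χ u = ∑ t ∈ RR χ.conductor, (if χ (-1) = 1 then
      A χ.conductor χ.conductor_dvd_level t else B χ.conductor χ.conductor_dvd_level t) := h1
    rw [h2]
    split_ifs
    · exact hA _ _ (hG χ hχ)
    · exact hB _ _ (hG χ hχ)
  obtain ⟨M, hM, hprod⟩ := unit_iff n Y k hY cw hpow
  refine ⟨∏ χ : Y, D (χ : DirichletCharacter ℂ n).conductor
    (χ : DirichletCharacter ℂ n).conductor_dvd_level, M, ?_, hM.trans ⟨fun h =>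
      ⟨((hoddc 1 Y.one_mem).1 (h 1 Y.one_mem)).1, fun χ hχ => ((hoddc χ hχ).1 (h χ hχ)).2⟩,
      fun h χ hχ => (hoddc χ hχ).2 ⟨h.1, h.2 χ hχ⟩⟩, ?_⟩
  · exact Finset.prod_induction _ Odd (fun a b ha hb => ha.mul hb) odd_one fun χ _ => hD _ _
  -- each factor
  have hfac : ∀ χ : Y, (D (χ : DirichletCharacter ℂ n).conductor
      (χ : DirichletCharacter ℂ n).conductor_dvd_level : ℂ) *
      (∑ u : (ZMod (χ : DirichletCharacter ℂ n).conductor)ˣ,
        ((χ : DirichletCharacter ℂ n).primitiveCharacter)⁻¹ (u : ZMod _) *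
          bw f (((u : ZMod (χ : DirichletCharacter ℂ n).conductor).val : ℚ) /
            (χ : DirichletCharacter ℂ n).conductor)) =
      kapG Op Om ((χ : DirichletCharacter ℂ n) (-1) = 1) *
        ∑ u : (ZMod n)ˣ, ((χ⁻¹ : Y) : DirichletCharacter ℂ n) (u : ZMod n) *
          ((cw (χ⁻¹ : Y) u : ℤ) : ℂ) := by
    rintro ⟨χ, hχ⟩
    have h1 := hV χ.conductor χ.conductor_dvd_level (hG χ hχ) (χ.primitiveCharacter)⁻¹
      (Pool.Agent.W440.TW.inv_primitive _ χ.primitiveCharacter_isPrimitive)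
    have hm : (χ.primitiveCharacter)⁻¹ (-1) = 1 ↔ χ (-1) = 1 := by
      have e1 : (χ.primitiveCharacter)⁻¹ (-1) = (χ (-1))⁻¹ := by
        rw [← prim_neg_one χ, MulChar.inv_apply_eq_inv']
      rw [e1, inv_eq_one]
    have h2 : kapG Op Om ((χ.primitiveCharacter)⁻¹ (-1) = 1) = kapG Op Om (χ (-1) = 1) := by
      unfold kapG
      simp only [hm]
    rw [h2] at h1
    refine h1.trans ?_
    congr 1
    show _ = ∑ u : (ZMod n)ˣ, χ⁻¹ (u : ZMod n) * ((cw χ⁻¹ u : ℤ) : ℂ)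
    have h3 : ∀ u, cw χ⁻¹ u = cw χ u := by
      intro u
      apply hW
      · exact χ.conductor_inv
      · rw [MulChar.inv_apply_eq_inv', inv_eq_one]
    simp_rw [h3]
    have h4 := sum_wt (R := ℂ) χ.conductor_dvd_level (fun t => if χ (-1) = 1 then
      A χ.conductor χ.conductor_dvd_level t else B χ.conductor χ.conductor_dvd_level t)
      (fun u => χ⁻¹ (u : ZMod n))
    refine Eq.trans ?_ h4.symm
    refine Finset.sum_congr rfl fun t _ => ?_
    have h5 : χ⁻¹ ((sect χ.conductor_dvd_level t : (ZMod n)ˣ) : ZMod n) =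
        (χ.primitiveCharacter)⁻¹ (t : ZMod _) := by
      rw [MulChar.inv_apply_eq_inv', MulChar.inv_apply_eq_inv', prim_unit, map_sect]
    rw [h5]
    congr 2
    simp only [hm]
  push_cast
  rw [← Finset.prod_mul_distrib, Finset.prod_congr rfl (fun χ _ => hfac χ), Finset.prod_mul_distrib]
  congr 1
  rw [← hprod, finprod_eq_prod_of_fintype]
  exact Fintype.prod_equiv (Equiv.inv Y) _ _ fun χ => rfl


open Classical in
theorem prod_valP {Op Om : ℝ} {Λ : Set ℂ} {c s t : ℤ} (hS : SX W N f)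
    (hP : PerP f Op Om Λ c s t) {l : ℕ} (hl : l.Prime) (hlN : ¬ l ∣ N) (hl2 : l ≠ 2)
    (hlo : Odd ((l : ℤ) - pts W (ZMod l)))
    (n : ℕ) [NeZero n]
    (Y : Subgroup (DirichletCharacter ℂ n)) (hG : ∀ χ ∈ Y, GQ N χ.conductor)
    (k : ℕ) (hY : Nat.card Y = 2 ^ k) :
    ∃ D M : ℤ, Odd D ∧ ((∀ χ ∈ Y, χ (-1) = 1) → (Odd M ↔ (Odd s ∧ ∀ χ ∈ Y, PQ (aW W) N χ.conductor))) ∧
      D * ∏ χ : Y, (∑ u : (ZMod (χ : DirichletCharacter ℂ n).conductor)ˣ,
        ((χ : DirichletCharacter ℂ n).primitiveCharacter)⁻¹ (u : ZMod _) *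
          bw f (((u : ZMod (χ : DirichletCharacter ℂ n).conductor).val : ℚ) /
            (χ : DirichletCharacter ℂ n).conductor)) =
      (∏ χ : Y, kapG Op Om ((χ : DirichletCharacter ℂ n) (-1) = 1)) * M := by
  have nz : ∀ q : ℕ, q ∣ n → NeZero q := fun q h => ⟨fun h0 => NeZero.ne n (by
    rw [h0] at h; exact zero_dvd_iff.1 h)⟩
  have hex : ∀ (q : ℕ) (h : q ∣ n), haveI := nz q h;
      ∃ (D : ℤ) (A B : (ZMod q)ˣ → ℤ), Odd D ∧
      (GQ N q → (Odd (∑ u ∈ RR q, A u) ↔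
        (Odd s ∧ PQ (aW W) N q))) ∧
      (GQ N q → ∀ ψ : DirichletCharacter ℂ q, ψ.IsPrimitive →
        D * ∑ u : (ZMod q)ˣ, ψ (u : ZMod q) * bw f (((u : ZMod q).val : ℚ) / q) =
          kapG Op Om (ψ (-1) = 1) * ∑ u ∈ RR q, ψ (u : ZMod q) *
            ((if ψ (-1) = 1 then A u else B u : ℤ) : ℂ)) := by
    intro q h
    haveI := nz q h
    by_cases hQ : GQ N q
    · obtain ⟨D, A, B, h1, h2, h3⟩ := val_charP hS hP hl hlN hl2 hlo q hQ
      exact ⟨D, A, B, h1, fun _ => h2, fun _ => h3⟩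
    · exact ⟨1, fun _ => 0, fun _ => 0, odd_one, fun h => absurd h hQ, fun h => absurd h hQ⟩
  choose D A B hD hA hV using hex
  -- the weights
  let Wt : (q : ℕ) → q ∣ n → Prop → (ZMod n)ˣ → ℤ := fun q h ev =>
    haveI := nz q h
    wt h (fun t => if ev then A q h t else B q h t)
  have hW : ∀ (q1 q2 : ℕ) (h1 : q1 ∣ n) (h2 : q2 ∣ n) (e1 e2 : Prop), q1 = q2 → (e1 ↔ e2) →
      ∀ u, Wt q1 h1 e1 u = Wt q2 h2 e2 u := by
    rintro q1 _ h1 h2 e1 e2 rfl he u
    have he' := propext he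
    subst he'
    rfl
  let cw : DirichletCharacter ℂ n → (ZMod n)ˣ → ℤ := fun χ =>
    Wt χ.conductor χ.conductor_dvd_level (χ (-1) = 1)
  have hmone : ((-1 : ZMod n)) = ((-1 : (ZMod n)ˣ) : ZMod n) := by
    rw [Units.val_neg, Units.val_one]
  have hsqone : ∀ χ : DirichletCharacter ℂ n, χ (-1) = 1 ∨ χ (-1) = -1 := fun χ => χ.even_or_odd
  have hpow : ∀ χ ∈ Y, ∀ a : ℕ, Odd a → ∀ u, cw (χ ^ a) u = cw χ u := by
    intro χ hχ a ha u
    apply hW
    · apply Nat.dvd_antisymm (χ.conductor_pow_dvd a)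
      -- an inverse exponent
      have h2k : χ ^ (2 ^ k) = 1 := by
        have h1 : (⟨χ, hχ⟩ : Y) ^ Nat.card Y = 1 := pow_card_eq_one'
        rw [hY] at h1
        exact congrArg Subtype.val h1
      obtain ⟨b, hb⟩ : ∃ b : ℕ, χ ^ (a * b) = χ := by
        have hcop : Nat.Coprime a (2 ^ k) := (Nat.coprime_two_right.2 ha).pow_right k
        rcases Nat.eq_zero_or_pos k with hk0 | hk0
        · subst hk0
          rw [pow_zero, pow_one] at h2k
          exact ⟨1, by rw [h2k, one_pow]⟩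
        · have h2 : 1 < 2 ^ k := Nat.one_lt_two_pow hk0.ne'
          obtain ⟨b, hb⟩ := Nat.exists_mul_mod_eq_one_of_coprime hcop h2
          refine ⟨b, ?_⟩
          rw [← Nat.div_add_mod (a * b) (2 ^ k), hb.2, pow_add, pow_mul, h2k, one_pow, one_mul,
            pow_one]
      have h3 := (χ ^ a).conductor_pow_dvd b
      rwa [← pow_mul, hb] at h3
    · rw [hmone, MulChar.pow_apply_coe]
      rw [← hmone]
      rcases hsqone χ with h1 | h1
      · rw [h1, one_pow]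
      · rw [h1, ha.neg_one_pow]
  have hoddc : ∀ χ ∈ Y, χ (-1) = 1 → (Odd (∑ u, cw χ u) ↔ (Odd s ∧
      PQ (aW W) N χ.conductor)) := by
    intro χ hχ hev
    have h1 := sum_wt (R := ℤ) χ.conductor_dvd_level (fun t => if χ (-1) = 1 then
      A χ.conductor χ.conductor_dvd_level t else B χ.conductor χ.conductor_dvd_level t)
      (fun _ => 1)
    simp only [one_mul, Int.cast_id] at h1
    have h2 : ∑ u, cw χ u = ∑ t ∈ RR χ.conductor, (if χ (-1) = 1 then
      A χ.conductor χ.conductor_dvd_level t else B χ.conductor χ.conductor_dvd_level t) := h1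
    rw [h2, Finset.sum_congr rfl (fun t _ => if_pos hev)]
    exact hA _ _ (hG χ hχ)
  obtain ⟨M, hM, hprod⟩ := unit_iff n Y k hY cw hpow
  refine ⟨∏ χ : Y, D (χ : DirichletCharacter ℂ n).conductor
    (χ : DirichletCharacter ℂ n).conductor_dvd_level, M, ?_, fun hev => hM.trans ⟨fun h =>
      ⟨((hoddc 1 Y.one_mem (hev 1 Y.one_mem)).1 (h 1 Y.one_mem)).1,
        fun χ hχ => ((hoddc χ hχ (hev χ hχ)).1 (h χ hχ)).2⟩,
      fun h χ hχ => (hoddc χ hχ (hev χ hχ)).2 ⟨h.1, h.2 χ hχ⟩⟩, ?_⟩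
  · exact Finset.prod_induction _ Odd (fun a b ha hb => ha.mul hb) odd_one fun χ _ => hD _ _
  -- each factor
  have hfac : ∀ χ : Y, (D (χ : DirichletCharacter ℂ n).conductor
      (χ : DirichletCharacter ℂ n).conductor_dvd_level : ℂ) *
      (∑ u : (ZMod (χ : DirichletCharacter ℂ n).conductor)ˣ,
        ((χ : DirichletCharacter ℂ n).primitiveCharacter)⁻¹ (u : ZMod _) *
          bw f (((u : ZMod (χ : DirichletCharacter ℂ n).conductor).val : ℚ) /
            (χ : DirichletCharacter ℂ n).conductor)) =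
      kapG Op Om ((χ : DirichletCharacter ℂ n) (-1) = 1) *
        ∑ u : (ZMod n)ˣ, ((χ⁻¹ : Y) : DirichletCharacter ℂ n) (u : ZMod n) *
          ((cw (χ⁻¹ : Y) u : ℤ) : ℂ) := by
    rintro ⟨χ, hχ⟩
    have h1 := hV χ.conductor χ.conductor_dvd_level (hG χ hχ) (χ.primitiveCharacter)⁻¹
      (Pool.Agent.W440.TW.inv_primitive _ χ.primitiveCharacter_isPrimitive)
    have hm : (χ.primitiveCharacter)⁻¹ (-1) = 1 ↔ χ (-1) = 1 := by
      have e1 : (χ.primitiveCharacter)⁻¹ (-1) = (χ (-1))⁻¹ := by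
        rw [← prim_neg_one χ, MulChar.inv_apply_eq_inv']
      rw [e1, inv_eq_one]
    have h2 : kapG Op Om ((χ.primitiveCharacter)⁻¹ (-1) = 1) = kapG Op Om (χ (-1) = 1) := by
      unfold kapG
      simp only [hm]
    rw [h2] at h1
    refine h1.trans ?_
    congr 1
    show _ = ∑ u : (ZMod n)ˣ, χ⁻¹ (u : ZMod n) * ((cw χ⁻¹ u : ℤ) : ℂ)
    have h3 : ∀ u, cw χ⁻¹ u = cw χ u := by
      intro u
      apply hW
      · exact χ.conductor_inv
      · rw [MulChar.inv_apply_eq_inv', inv_eq_one]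
    simp_rw [h3]
    have h4 := sum_wt (R := ℂ) χ.conductor_dvd_level (fun t => if χ (-1) = 1 then
      A χ.conductor χ.conductor_dvd_level t else B χ.conductor χ.conductor_dvd_level t)
      (fun u => χ⁻¹ (u : ZMod n))
    refine Eq.trans ?_ h4.symm
    refine Finset.sum_congr rfl fun t _ => ?_
    have h5 : χ⁻¹ ((sect χ.conductor_dvd_level t : (ZMod n)ˣ) : ZMod n) =
        (χ.primitiveCharacter)⁻¹ (t : ZMod _) := by
      rw [MulChar.inv_apply_eq_inv', MulChar.inv_apply_eq_inv', prim_unit, map_sect]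
    rw [h5]
    congr 2
    simp only [hm]
  push_cast
  rw [← Finset.prod_mul_distrib, Finset.prod_congr rfl (fun χ _ => hfac χ), Finset.prod_mul_distrib]
  congr 1
  rw [← hprod, finprod_eq_prod_of_fintype]
  exact Fintype.prod_equiv (Equiv.inv Y) _ _ fun χ => rfl


end Pool.Agent.K4H53.CX
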