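import Pool.Agent.K4H53.BSR.Alg2
import Pool.Agent.K4H53.BSR.Lmain4

/-!
# Statements of the independent parts: all abelian 2-extensions

The formula of Birch and Swinnerton-Dyer modulo 2 over ALL abelian extensions `K / ℚ` of 2-power degree in
which the ramified primes of bad reduction are primes of multiplicative reduction (`K` in `ℚ(ζ_n)`,
`n = 2^a m`, `m` odd and squarefree).
-/

set_option autoImplicit false

open NumberField IsDedekindDomain WithZero WeierstrassCurve Filter Topology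
open UpperHalfPlane MatrixGroups CongruenceSubgroup

namespace Pool.Agent.K4H53.CX

open Pool.Agent.Y18.BSD (co PG HRel Cf tm)
open Pool.Agent.TH940 (prim Fr)
open Pool.Agent.TH115.GD (cub)
open Pool.Agent.Y702.G (sh base pts MinimalAt)
open Pool.Agent.R425.G (SelT cv)

section cusps

variable {N : ℕ} [NeZero N]

/-- The boundary value of the primitive at the rational number `r` (any cusp). -/
noncomputable def bw (f : CuspForm (Gamma0 N : Subgroup (GL (Fin 2) ℝ)) 2) (r : ℚ) : ℂ :=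
  limUnder (𝓝[>] (0 : ℝ)) (fun y : ℝ => prim f ((r : ℂ) + (y : ℂ) * Complex.I))

end cusps

/-- LIM: the limits exist at all rational numbers. -/
def S_LIM : Prop := ∀ (N : ℕ) [NeZero N] (f : CuspForm (Gamma0 N : Subgroup (GL (Fin 2) ℝ)) 2) (r : ℚ),
  Tendsto (fun y : ℝ => prim f ((r : ℂ) + (y : ℂ) * Complex.I)) (𝓝[>] 0) (𝓝 (bw f r))

/-- LF: the twisted `L`-functions for all conductors `q`, also not prime to `N`
(for `q` prime to `N` this is `Pool.Agent.Y18.BSD.exists_L`). -/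
def S_LF : Prop := ∀ (N : ℕ) [NeZero N] (f : CuspForm (Gamma0 N : Subgroup (GL (Fin 2) ℝ)) 2),
  Cf N (co f) → ∀ (q : ℕ) [NeZero q] (χ : DirichletCharacter ℂ q), χ.IsPrimitive →
    ∃ L : ℂ → ℂ, Differentiable ℂ L ∧
      (∀ s : ℂ, 3 / 2 < s.re → L s = ∑' n : ℕ, tm (co f) χ s n) ∧
      gaussSum χ⁻¹ (ZMod.stdAddChar (N := q)) * L 1 =
        ∑ u : (ZMod q)ˣ, χ⁻¹ (u : ZMod q) * bw f (((u : ZMod q).val : ℚ) / q)

/-- EQV: the boundary values at equivalent cusps differ by periods. -/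
def S_EQV : Prop := ∀ (N : ℕ) [NeZero N] (f : CuspForm (Gamma0 N : Subgroup (GL (Fin 2) ℝ)) 2),
  ∀ r r' : ℚ, Nat.gcd r.den N = Nat.gcd r'.den N →
    Nat.Coprime (Nat.gcd r.den N) (N / Nat.gcd r.den N) → bw f r' - bw f r ∈ PG f

/-- DISC: the conductor-discriminant formula for subfields of `ℚ(ζ_n)`, `n = 2^a m`
(for `n = 4 m` this is `Pool.Agent.K4H53.BSR.s_discr4`). -/
def S_DISC : Prop := ∀ (a m n : ℕ) [NeZero n] (L : Type) [Field L] [NumberField L]
  [IsCyclotomicExtension {n} ℚ L], Squarefree m → Odd m → n = 2 ^ a * m →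
  ∀ F : IntermediateField ℚ L,
    (discr F).natAbs = ∏ᶠ χ : H300.HW.YY n L F, (χ : DirichletCharacter ℂ n).conductor

/-- MULT: a ramified place of multiplicative reduction: the equation is minimal and the Tamagawa number
is even. -/
def S_MULT : Prop := ∀ (W : WeierstrassCurve ℤ), W.Δ ≠ 0 →
  ∀ (K : Type) [Field K] [NumberField K] [IsGalois ℚ K] (n : ℕ), Module.finrank ℚ K = 2 ^ n →
  ∀ (p : ℕ), p.Prime → (p : ℤ) ∣ W.Δ → ¬ (p : ℤ) ∣ W.c₄ →
  ∀ v : HeightOneSpectrum (𝓞 K), (p : 𝓞 K) ∈ v.asIdeal →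
    MinimalAt W v ∧ (v.valuation K (p : K) ≠ exp (-1 : ℤ) → Even (cv W v))

open Classical in
/-- SEL2: good reduction at two.  The 2-Selmer group over `K` is not trivial if two is ramified in `K` and
`a_2` is odd, or if the conductor of `K` is divisible by eight. -/
def S_SEL2 : Prop := ∀ (W : WeierstrassCurve ℤ), ¬ (2 : ℤ) ∣ W.Δ →
  ∀ (a m n : ℕ) [NeZero n] (M : Type) [Field M] [NumberField M] [IsCyclotomicExtension {n} ℚ M],
  Odd m → n = 2 ^ a * m → ∀ (K : IntermediateField ℚ M) (k : ℕ), Module.finrank ℚ K = 2 ^ k →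
  (∀ x : K, cub (sh W) x ≠ 0) →
  (((2 : ℤ) ∣ discr K ∧ Odd ((2 : ℤ) - pts W (ZMod 2))) ∨
    ∃ χ : H300.HW.YY n M K, 8 ∣ (χ : DirichletCharacter ℂ n).conductor) →
  ¬ SelT (sh W) K

end Pool.Agent.K4H53.CX
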