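import Pool.Agent.K4H53.CX.Stm
import Pool.Agent.K4H53.BSR.Cx

/-!
# Statements of the parts of `S_SEL2`
-/

set_option autoImplicit false

open NumberField IsDedekindDomain WithZero WeierstrassCurve Filter Topology
open scoped Classical

namespace Pool.Agent.K4H53.CX

open Pool.Agent.TH115.GD
open Pool.Agent.Y710.CV (Cond)
open Pool.Agent.Y702.G (sh base pts)
open Pool.Agent.R425.G (SelT cv CF IV ng io nrm Rt EE Dl)

/-- POINT (local at two): there is a point `(X₀, √d y)` of `E` over `ℚ₂(√d)` such that the class of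
`X₀ - e` is not the class of a point over `ℚ₂` (`Dl` is the local condition `DD`).

Proof on paper.  `f(x) = 4 x³ + b₂ x² + 2 b₄ x + b₆`, `X = 4 x`, `cub (sh W) (4 x) = 16 f(x)`.
Ordinary (`b₂` odd, so `b₂ ≡ 1 mod 4`): if `d = -1` take `X₀ = 2 w`, `w` odd with
`2 w³ + b₂ w² + 4 b₄ w + 4 b₆ ≡ d mod 8`; if `d = ± 2` take `X₀ = w` odd with
`w³ + b₂ w² + 8 b₄ w + 16 b₆ ≡ d mod 16`.  Supersingular (`b₂` even, so `4 ∣ b₂`), `d = ± 2`: `X₀ = 2 w`,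
`w` odd with `w³ + (b₂/2) w² + 2 b₄ w + 2 b₆ ≡ d / 2 mod 8`.
Nontriviality: let `F = ℚ₂(√d)`, `σ` its automorphism, `P₀ = (x₀, √d y₀)`, so `σ P₀ = - P₀`.  If the class of
`X₀ - e` is the class of a point over `ℚ₂` then `P₀ = R - σ R` for a point `R` over `F` (if `2 R₀ = P₀`
then the class is `τ ↦ χ_d(τ) τ R₀ - R₀`; if it is `τ ↦ τ P - P` then `R = R₀ - P` is over `F`, and
`σ R = - R - 2 P`, `P₀ = 2 R₀ = 2 R + 2 P = R - σ R`).  But for every point `R` over `F` with `R ≠ σ R` one has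
`v_F(x(R - σ R)) ≤ - 2 δ`, `δ = v_F(π - σ π)` (`δ = 2` for `d = -1`, `δ = 3` for `d = ± 2`), while
`v_F(x₀) = -2`, respectively `≥ -4`: for `R = (x, y)` integral use the slope `(y + y' + a₁ x' + a₃)/(x - x')`
of `R` and `- σ R`, where `x - x'`, `y - y'` are divisible by `π - σ π` (if `x = x'`, `σ R = - R` and
`P₀ = 2 R`, `2 y + a₁ x + a₃ = y - y'`); for `R` in the kernel of reduction use `Z = - x / y` and the addition
law up to terms of third order (`BSR/Fil3.lean`, `BSD/Fil2.lean`). -/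
def S_POINT : Prop := ∀ (W : WeierstrassCurve ℤ), ¬ (2 : ℤ) ∣ W.Δ →
  ∀ d : ℤ, (d = 2 ∨ d = -2 ∨ (d = -1 ∧ Odd ((2 : ℤ) - pts W (ZMod 2)))) →
  ∃ X₀ : ℤ, cub (sh W) (X₀ : ℚ) ≠ 0 ∧ ∀ p : HeightOneSpectrum (𝓞 ℚ), ng p = 2 →
    (∃ y : p.adicCompletion ℚ,
      algebraMap ℚ (p.adicCompletion ℚ) (cub (sh W) (X₀ : ℚ)) = (d : p.adicCompletion ℚ) * y ^ 2) ∧
    ¬ Dl (sh W) (p.adicCompletion ℚ) (AlgebraicClosure (p.adicCompletion ℚ))
      (fun e => (X₀ : AlgebraicClosure (p.adicCompletion ℚ)) - e.1)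

/-- DESC: good reduction at two, descent of a trivialisation along the unramified extension
`k₀(√m)` of `k₀ = K_v` (`m c² = 1 + 4 t`).  Use `BSD/Chain.lean`, `desc_one` with `H = ⊤`,
`H' = {τ | τ s = s}`, and the transfer between `W` and `sh W` (`trE`) as in `BSD/Splu.lean`. -/
def S_DESC : Prop := ∀ (W : WeierstrassCurve ℤ), ¬ (2 : ℤ) ∣ W.Δ →
  ∀ (K : Type) [Field K] [NumberField K] (v : HeightOneSpectrum (𝓞 K)), (2 : 𝓞 K) ∈ v.asIdeal →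
  ∀ (m c t : v.adicCompletion K), c ≠ 0 → Valued.v t ≤ 1 → m * c ^ 2 = 1 + 4 * t →
  ∀ s : AlgebraicClosure (v.adicCompletion K), s ^ 2 = algebraMap _ _ m →
  ∀ f : (AlgebraicClosure (v.adicCompletion K) ≃ₐ[v.adicCompletion K]
      AlgebraicClosure (v.adicCompletion K)) → Pt (sh W) (AlgebraicClosure (v.adicCompletion K)),
    (∀ σ τ, f (σ * τ) = f σ + act (sh W) (rs ℚ σ) (f τ)) →
    (∃ P, ∀ τ, τ s = s → f τ = act (sh W) (rs ℚ τ) P - P) →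
    ∃ P, ∀ τ, f τ = act (sh W) (rs ℚ τ) P - P

/-- PIG: the pigeonhole principle of `BSR/Cx.lean`, `exists_zG0`, with the weaker local condition at two:
`z` or `z (X₀ - θ) cub X₀` satisfies the local condition over `ℚ₂`. -/
def S_PIG : Prop := ∀ (V : WeierstrassCurve ℚ) (A : Type) [Field A] [NumberField A] (θ : A),
  CF V A θ → IV V → ∀ (D0 : ℤ), D0 ≠ 0 → (2 : ℤ) ∣ D0 →
  ∀ X₀ : ℤ, cub V (X₀ : ℚ) ≠ 0 →
  (∀ p : HeightOneSpectrum (𝓞 ℚ), ng p = 2 →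
    ¬ Dl V (p.adicCompletion ℚ) (AlgebraicClosure (p.adicCompletion ℚ))
      (fun e => (X₀ : AlgebraicClosure (p.adicCompletion ℚ)) - e.1)) →
  ∀ (ρ : ℕ) (R : Subgroup Aˣ), R.index ≠ 0 → R.index ≤ 2 ^ ρ → ρ + 1 ≤ Units.rank A →
  ∃ z0 z : Aˣ, z0 ∈ R ∧ z = z0 * io A (nrm A z0) ∧
    (∃ r : ℚ, r ≠ 0 ∧ Algebra.norm ℚ (z : A) = r ^ 2) ∧ (¬ ∃ s : A, (z : A) = s ^ 2) ∧
    (∀ u : HeightOneSpectrum (𝓞 A), ((D0 : ℤ) : 𝓞 A) ∉ u.asIdeal → u.valuation A (z : A) = 1) ∧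
    (∀ p : HeightOneSpectrum (𝓞 ℚ), (ng p : ℤ) ∣ D0 → ng p ≠ 2 →
      Cond (p.adicCompletion ℚ) (AlgebraicClosure (p.adicCompletion ℚ)) V θ (z : A)) ∧
    ∀ p : HeightOneSpectrum (𝓞 ℚ), ng p = 2 →
      ∃ z' : A, (z' = z ∨ z' = z * ((X₀ : A) - θ) * algebraMap ℚ A (cub V (X₀ : ℚ))) ∧
        Cond (p.adicCompletion ℚ) (AlgebraicClosure (p.adicCompletion ℚ)) V θ z'

/-- CLS: `R425/P/Cl4.lean`, `class_of_z`, with arbitrary local fields. -/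
def S_CLS : Prop := ∀ (K : Type) [Field K] [NumberField K] [IsGalois ℚ K] (W : WeierstrassCurve ℤ),
  W.Δ ≠ 0 → (∀ x : K, cub (sh W) x ≠ 0) → ∀ (A : Type) [Field A] [NumberField A] (θ : A),
  CF (sh W) A θ → ∀ (z : Aˣ) (r : ℚ), r ≠ 0 → Algebra.norm ℚ (z : A) = r ^ 2 →
  (¬ ∃ s : A, (z : A) = s ^ 2) →
  ∃ g : (AlgebraicClosure K ≃ₐ[ℚ] AlgebraicClosure K) → Pt (sh W) (AlgebraicClosure K),
    IsLocallyConstant g ∧ (∀ σ τ, g (σ * τ) = g σ + act (sh W) (ak σ) (g τ)) ∧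
    (∀ σ, g σ + g σ = 0) ∧
    (∀ (L Ω' : Type) [Field L] [Field Ω'] [Algebra ℚ L] [Algebra ℚ Ω'] [Algebra L Ω']
      [IsScalarTower ℚ L Ω'] [IsAlgClosed Ω'] [IsGalois L Ω'],
      Cond L Ω' (sh W) θ (z : A) → LocTriv (F := ℚ) (Ω := AlgebraicClosure K) (sh W) L Ω' g) ∧
    ¬ ∃ T : Pt (sh W) (AlgebraicClosure K), T + T = 0 ∧
      ∀ σ : AlgebraicClosure K ≃ₐ[K] AlgebraicClosure K,
        g (σ.restrictScalars ℚ) = act (sh W) (rs ℚ σ) T - T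

/-- `K(√d) / K` is unramified above two -/
def Unr2 (K : Type) [Field K] [NumberField K] (d : ℤ) : Prop :=
  ∀ v : HeightOneSpectrum (𝓞 K), (2 : 𝓞 K) ∈ v.asIdeal →
    ∃ c t : K, c ≠ 0 ∧ v.valuation K t ≤ 1 ∧ (d : K) * c ^ 2 = 1 + 4 * t

/-- UNR.  Proof on paper: `Gal(M / K(ζ_m))` is a subgroup of `Gal(M / ℚ(ζ_m)) = (ℤ/2^a)ˣ`; so `√d` is in
`K(ζ_m)` for one of `d = -1, 2, -2` if two is ramified in `K`, and for one of `d = 2, -2` if the conductor is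
divisible by eight; and `K(ζ_m) / K` is unramified above two, so there is an integer `u` of `K(√d)` with
`u - σ u` a unit at the places above `v`; `(u - σ u)² = d b²`, `T = u + σ u`, `N = u σ u`,
`d (b / T)² = 1 - 4 N / T²`. -/
def S_UNR : Prop := ∀ (a m n : ℕ) [NeZero n] (M : Type) [Field M] [NumberField M]
  [IsCyclotomicExtension {n} ℚ M], Odd m → n = 2 ^ a * m → ∀ K : IntermediateField ℚ M,
  ((2 : ℤ) ∣ discr K → ∃ d : ℤ, (d = 2 ∨ d = -2 ∨ d = -1) ∧ Unr2 K d) ∧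
  ((∃ χ : H300.HW.YY n M K, 8 ∣ (χ : DirichletCharacter ℂ n).conductor) →
    ∃ d : ℤ, (d = 2 ∨ d = -2) ∧ Unr2 K d)

end Pool.Agent.K4H53.CX
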