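import Pool.Agent.K4H53.BSR.Alg2
import Pool.Agent.K4H53.CX.Emb

/-!
# The algebraic side, going up, for a field with an embedding into `ℚ(ζ_(4 m))`
-/

set_option autoImplicit false
set_option linter.all false

open NumberField IsDedekindDomain WithZero WeierstrassCurve WeierstrassCurve.Affine
open scoped NNReal Classical

namespace Pool.Agent.K4H53.CX

open Pool.Agent.K4H53.BSD Pool.Agent.K4H53.BSR
open Pool.Agent.TH115.GD
open Pool.Agent.Y702.G (sh base pts E0 SelTriv)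
open Pool.Agent.R425 (Ev ev_of_disc unr_of_disc)
open Pool.Agent.R425.G Pool.Agent.R425.P

/-- the part of the field with odd conductor -/
theorem sub_dataG (m : ℕ) [NeZero m] (hodd : Odd m) (M : Type) [Field M] [NumberField M]
    [IsCyclotomicExtension {4 * m} ℚ M] (K : Type) [Field K] [NumberField K] [IsGalois ℚ K]
    (ι : K →+* M)
    (M1 : IntermediateField ℚ M) (i : M) (hii : i * i = -1)
    (hgen : ∀ x : M, ∃ a b : M1, x = a + b * i) (c : M ≃ₐ[ℚ] M) (hc1 : ∀ x : M1, c x = x)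
    (hci : c i = -i) :
    ∃ (K2 : IntermediateField ℚ M1) (e : K2 →+* K) (d : K ≃ₐ[ℚ] K),
      (∀ x : K2, ι (e x) = ((x : M1) : M)) ∧
      ∀ g : K ≃ₐ[ℚ] K, (∀ x : K2, g (e x) = e x) → g = 1 ∨ g = d := by
  let ια : K →ₐ[ℚ] M := ι.toRatAlgHom
  let K' : IntermediateField ℚ M := ια.fieldRange
  let ε : K ≃ₐ[ℚ] K' := AlgEquiv.ofInjectiveField ια
  haveI : IsGalois ℚ K' := IsGalois.of_algEquiv ε
  have hε : ∀ x : K, ((ε x : K') : M) = ι x := fun x => rfl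
  obtain ⟨K2, e', d', h1, h2⟩ := sub_data m hodd M K' M1 i hii hgen c hc1 hci
  refine ⟨K2, (ε.symm : K' →+* K).comp e', ε.trans (d'.trans ε.symm), ?_, ?_⟩
  · intro x
    have h3 := hε (ε.symm (e' x))
    rw [AlgEquiv.apply_symm_apply] at h3
    rw [← h1]
    exact h3.symm
  · intro g hg
    have h3 := h2 (ε.symm.trans (g.trans ε)) (fun x => by
      have h4 := hg x
      show ε (g (ε.symm (e' x))) = e' x
      have h5 : g (ε.symm (e' x)) = ε.symm (e' x) := h4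
      rw [h5, AlgEquiv.apply_symm_apply])
    rcases h3 with h3 | h3
    · left
      ext x
      have h4 := DFunLike.congr_fun h3 (ε x)
      have h5 : ε (g (ε.symm (ε x))) = ε x := h4
      rw [AlgEquiv.symm_apply_apply] at h5
      exact ε.injective h5
    · right
      ext x
      have h4 := DFunLike.congr_fun h3 (ε x)
      have h5 : ε (g (ε.symm (ε x))) = d' (ε x) := h4
      rw [AlgEquiv.symm_apply_apply] at h5
      show g x = ε.symm (d' (ε x))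
      rw [← h5, AlgEquiv.symm_apply_apply]

section main

variable (W : WeierstrassCurve ℤ) (hΔ : W.Δ ≠ 0) (hΔ2 : ¬ (2 : ℤ) ∣ W.Δ) (ha1 : Even W.a₁)
  (m : ℕ) [NeZero m] (hmo : Odd m) (M : Type) [Field M] [NumberField M]
  [IsCyclotomicExtension {4 * m} ℚ M] (K : Type) [Field K] [NumberField K] [IsGalois ℚ K]
  (ι : K →+* M)
  (n : ℕ) (hn : Module.finrank ℚ K = 2 ^ n)

include hΔ hΔ2 ha1 hmo hn ι in
/-- local triviality at the primes that divide `2 Δ` -/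
theorem loc_badG (h2d : (2 : ℤ) ∣ discr K)
    (hunr : ∀ (q : ℕ), q.Prime → (q : ℤ) ∣ 2 * W.Δ → q ≠ 2 → ∀ v : HeightOneSpectrum (𝓞 K),
      (q : 𝓞 K) ∈ v.asIdeal → v.valuation K (q : K) = exp (-1 : ℤ))
    (g : (AlgebraicClosure K ≃ₐ[ℚ] AlgebraicClosure K) → Pt (sh W) (AlgebraicClosure K))
    (hg : ∀ σ τ, g (σ * τ) = g σ + act (sh W) (ak σ) (g τ))
    (hloc : ∀ v : HeightOneSpectrum (𝓞 K),
      LocTriv (sh W) (v.adicCompletion K) (AlgebraicClosure (v.adicCompletion K))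
        (fun σ : AlgebraicClosure K ≃ₐ[K] AlgebraicClosure K => g (σ.restrictScalars ℚ)))
    (hodd : ∀ p : HeightOneSpectrum (𝓞 ℚ), Odd (cv W p)) (p : HeightOneSpectrum (𝓞 ℚ))
    (hp : p.valuation ℚ (2 * (sh W).Δ) ≠ 1) :
    LocTriv (F := ℚ) (Ω := AlgebraicClosure K) (sh W) (p.adicCompletion ℚ)
          (AlgebraicClosure (p.adicCompletion ℚ)) g := by
  obtain ⟨v, hv⟩ := Pool.Agent.TH115.GD.exists_over (R := 𝓞 ℚ) (B := 𝓞 K) p
  obtain ⟨q, hq, hqv⟩ := exists_prime_mem v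
  have hqΔ := below_dvd W p hp hq v hv hqv
  by_cases hq2 : q = 2
  · subst hq2
    haveI : NeZero (4 * m) := ⟨mul_ne_zero (by norm_num) (NeZero.ne m)⟩
    obtain ⟨M1, i, hM1, hii, hgen, c, hc1, hci⟩ := cyc_data m hmo M
    obtain ⟨K2, e, d, he, hd⟩ := sub_dataG m hmo M K ι M1 i hii hgen c hc1 hci
    haveI := hM1
    have h2p : ((2 : ℕ) : 𝓞 ℚ) ∈ p.asIdeal := (mem_under v hv).1 hqv
    obtain ⟨u, hu⟩ := Pool.Agent.TH115.GD.exists_over (R := 𝓞 ℚ) (B := 𝓞 M1) p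
    have h2u : ((2 : ℕ) : 𝓞 M1) ∈ u.asIdeal := (mem_under u hu).2 h2p
    have hu2 : u.valuation M1 ((2 : ℕ) : M1) = exp (-1 : ℤ) :=
      Pool.Agent.Y702.Fn.val_cyc m M1 Nat.prime_two (by
        rw [← even_iff_two_dvd]
        exact Nat.not_even_iff_odd.2 hmo) u h2u
    have hval := Pool.Agent.Y702.G.val_eq u p hu 2 hu2
    have hp2 : p.valuation ℚ (2 : ℚ) = exp (-1 : ℤ) := by
      rw [← hval]
      rw [← hu2]
      norm_num
    haveI : IsGalois ℚ M1 := IsCyclotomicExtension.isGalois {m} ℚ M1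
    haveI : IsGalois ℚ K2 := Pool.Agent.Y702.L.gal_F m M1 K2
    -- the degree of `K2`
    obtain ⟨n2, hn2⟩ : ∃ n2, Module.finrank ℚ K2 = 2 ^ n2 := by
      have h2 : Module.finrank ℚ K2 ∣ 2 ^ n := by
        rw [← hn]
        exact finrank_dvd e
      obtain ⟨k, -, hk⟩ := (Nat.dvd_prime_pow Nat.prime_two).1 h2
      exact ⟨k, hk⟩
    obtain ⟨s, hs⟩ := ev_of_disc K hn Nat.prime_two (by exact_mod_cast h2d) v hqv
    have hs' : v.valuation K (2 : K) = v.valuation K s ^ 2 := by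
      rw [hs]
      norm_num
    exact spl2 W hΔ hn2 ha1 (a3_odd hΔ2 ha1) e d hd (M1.val : M1 →+* M) hii hgen
      ι (K2.val : K2 →+* M1) (fun x => he x) g hg v p u hval ⟨s, hs'⟩ hp2 h2p hqv
      (hodd p) (hloc v)
  · have h1 := hunr q hq hqΔ hq2 v hqv
    exact splu W hΔ hn g hg v p (Pool.Agent.Y702.G.val_eq v p hv q h1) (hodd p) (hloc v)

include hΔ2 ha1 hmo hn ι in
/-- negative discriminant -/
theorem sel_mainG (hΔn : W.Δ < 0) (hnr : ∀ x : ℚ, cub (sh W) x ≠ 0)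
    (hsha : ∀ s : Pool.Agent.TH841.NF.D.Sha (base W ℚ), 2 • s = 0 → s = 0)
    (hfin : Finite (base W ℚ).toAffine.Point) (hcard : Odd (Nat.card (base W ℚ).toAffine.Point))
    (h2d : (2 : ℤ) ∣ discr K) (m' : ℕ)
    (hm : ∀ l : ℕ, l.Prime → l ∣ m' → ¬ (l : ℤ) ∣ 2 * W.Δ ∧ Odd ((l : ℤ) - pts W (ZMod l)))
    (hunr : ∀ (p : ℕ), p.Prime → ¬ p ∣ m' → p ≠ 2 → ∀ v : HeightOneSpectrum (𝓞 K),
      (p : 𝓞 K) ∈ v.asIdeal → v.valuation K (p : K) = exp (-1 : ℤ))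
    (hodd : ∀ p : HeightOneSpectrum (𝓞 ℚ), Odd (cv W p)) : SelTriv (sh W) K := by
  have hV : (sh W).Δ ≠ 0 := Y355.G.sh_disc hΔn.ne
  have hnrK := Pool.Agent.Y702.G.no_root (sh W) hnr K n hn
  by_contra hcon
  obtain ⟨g, hg1, hg2, hg3, hg4, hg5⟩ :=
    Pool.Agent.Y93.G.s_inv (sh W) rfl rfl hV K n hn hnrK hcon
  obtain ⟨A, M', iA, iA', iM, iM', iAM, iKM, θ, z, hθ, hA, hM, hz0, hzn, hzs, hloc, i, t, hrel⟩ :=
    Pool.Agent.Y141.G2.s_kump (sh W) rfl rfl hV K n hn hnrK g hg1 hg2 hg3 hg4 hg5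
  apply hg5
  have hpar := s_par2 W hΔn.ne K A M' θ z m' hθ hnr hA hM hz0 hzn hm
    (fun p hp hpm hpΔ v hv => hunr p hp hpm (by
      rintro rfl
      exact hpΔ (Dvd.intro _ rfl)) v hv) hloc
  refine Pool.Agent.Y125.DQ.s_descq W hΔn hsha hfin hcard K g hg1 hg2 hg3 fun p => ?_
  by_cases hp : p.valuation ℚ (2 * (sh W).Δ) = 1
  · exact (Pool.Agent.Y710.CV.s_conv Pool.Agent.Y46.G2.s_emb) (sh W) rfl rfl hV hnr K g hg1 hg2
      hg3 A θ z hθ hA i t hrel p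
      ((Pool.Agent.Y67.LZ.s_lz Pool.Agent.Y500.G.s_fl) W hΔn.ne hnr A θ z hθ hA hz0 hzn hpar p hp)
  · refine loc_badG W hΔn.ne hΔ2 ha1 m hmo M K ι n hn h2d (fun q hq hqΔ hq2 v hv => ?_) g hg2 hg4
      hodd p hp
    exact hunr q hq (fun h => (hm q hq h).1 hqΔ) hq2 v hv

include hΔ hΔ2 ha1 hmo hn ι in
/-- positive discriminant -/
theorem selT_upG (hnr : ∀ x : ℚ, cub (sh W) x ≠ 0) (hsQ : SelT (sh W) ℚ)
    (hre : ∀ v : InfinitePlace K, v.IsReal)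
    (h2d : (2 : ℤ) ∣ discr K) (m' : ℕ)
    (hm : ∀ l : ℕ, l.Prime → l ∣ m' → ¬ (l : ℤ) ∣ 2 * W.Δ ∧ Odd ((l : ℤ) - pts W (ZMod l)))
    (hunr : ∀ (p : ℕ), p.Prime → ¬ p ∣ m' → p ≠ 2 → ∀ v : HeightOneSpectrum (𝓞 K),
      (p : 𝓞 K) ∈ v.asIdeal → v.valuation K (p : K) = exp (-1 : ℤ))
    (hodd : ∀ p : HeightOneSpectrum (𝓞 ℚ), Odd (cv W p)) : SelT (sh W) K := by
  have hV : (sh W).Δ ≠ 0 := Y355.G.sh_disc hΔ
  have hnrK := Pool.Agent.Y702.G.no_root (sh W) hnr K n hn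
  by_contra hcon
  obtain ⟨g, hg1, hg2, hg3, hg4, hg4', hg5⟩ := s_invP (sh W) rfl rfl hV K hre n hn hnrK hcon
  obtain ⟨A, M', iA, iA', iM, iM', iAM, iKM, θ, z, hθ, hA, hM, hz0, hzn, hzs, hloc, i, t, hrel⟩ :=
    Pool.Agent.Y141.G2.s_kump (sh W) rfl rfl hV K n hn hnrK g hg1 hg2 hg3 hg4 hg5
  apply hg5
  have hpar := s_par2 W hΔ K A M' θ z m' hθ hnr hA hM hz0 hzn hm
    (fun p hp hpm hpΔ v hv => hunr p hp hpm (by
      rintro rfl
      exact hpΔ (Dvd.intro _ rfl)) v hv) hloc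
  obtain ⟨v0⟩ : Nonempty (InfinitePlace K) := inferInstance
  have h := selT_use W (F := ℚ) (K := K) hsQ g ⟨hg1, fun σ τ => hg2 σ τ⟩ hg3 (fun p => by
    by_cases hp : p.valuation ℚ (2 * (sh W).Δ) = 1
    · exact (Pool.Agent.Y710.CV.s_conv Pool.Agent.Y46.G2.s_emb) (sh W) rfl rfl hV hnr K g hg1 hg2
        hg3 A θ z hθ hA i t hrel p
        ((Pool.Agent.Y67.LZ.s_lz Pool.Agent.Y500.G.s_fl) W hΔ hnr A θ z hθ hA hz0 hzn hpar p hp)
    · refine loc_badG W hΔ hΔ2 ha1 m hmo M K ι n hn h2d (fun q hq hqΔ hq2 v hv => ?_) g hg2 hg4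
        hodd p hp
      exact hunr q hq (fun h => (hm q hq h).1 hqΔ) hq2 v hv)
    (fun u => by
      have hu : u.IsReal := by
        rw [Subsingleton.elim u Rat.infinitePlace]
        exact Rat.isReal_infinitePlace
      exact loc_iso (sh W) g ((InfinitePlace.Completion.ringEquivRealOfIsReal hu).trans
        (InfinitePlace.Completion.ringEquivRealOfIsReal (hre v0)).symm) (hg4' v0))
  obtain ⟨T, hT, hT2⟩ := h
  exact ⟨T, hT, fun σ => hT2 σ⟩

include hΔ hΔ2 ha1 hmo hn ι in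
/-- **The algebraic side, going up.** -/
theorem alg_upG (hnr : ∀ x : ℚ, cub (sh W) x ≠ 0)
    (hco : ∀ l : ℕ, l.Prime → l ≠ 2 → (l : ℤ) ∣ discr K → ¬ (l : ℤ) ∣ 2 * W.Δ)
    (htam : ∀ p : HeightOneSpectrum (𝓞 ℚ), Odd (cv W p))
    (h : Finite (base W ℚ).toAffine.Point ∧
        ∀ s : Pool.Agent.TH841.NF.D.Sha (base W ℚ), 2 • s = 0 → s = 0) (hA : CondB W K) :
    (Finite (base W K).toAffine.Point ∧
        ∀ s : Pool.Agent.TH841.NF.D.Sha (base W K), 2 • s = 0 → s = 0) := by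
  by_cases h2d : (2 : ℤ) ∣ discr K
  · have hnrK := Pool.Agent.Y702.G.no_root (sh W) hnr K n hn
    obtain ⟨hfin, hsha⟩ := h
    obtain ⟨hcx, hodd⟩ := hA
    -- the odd part of the discriminant
    set m' : ℕ := ∏ l ∈ ((discr K).natAbs.primeFactors).erase 2, l with hm'
    have hdvd : ∀ l : ℕ, l.Prime → (l ∣ m' ↔ l ≠ 2 ∧ (l : ℤ) ∣ discr K) := by
      intro l hl
      have hd0 : (discr K).natAbs ≠ 0 := Int.natAbs_ne_zero.2 (discr_ne_zero K)
      constructor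
      · intro h1
        obtain ⟨l', hl', hll'⟩ := (Nat.Prime.prime hl).exists_mem_finset_dvd h1
        rw [Finset.mem_erase, Nat.mem_primeFactors] at hl'
        obtain ⟨h2, h3, h4, -⟩ := hl'
        have h5 := (Nat.prime_dvd_prime_iff_eq hl h3).1 hll'
        subst h5
        exact ⟨h2, Int.natCast_dvd.2 h4⟩
      · rintro ⟨h1, h2⟩
        apply Finset.dvd_prod_of_mem (fun l => l)
        rw [Finset.mem_erase, Nat.mem_primeFactors]
        exact ⟨h1, hl, Int.natCast_dvd.1 h2, hd0⟩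
    have hm : ∀ l : ℕ, l.Prime → l ∣ m' →
        ¬ (l : ℤ) ∣ 2 * W.Δ ∧ Odd ((l : ℤ) - pts W (ZMod l)) := fun l hl hlm =>
      ⟨hco l hl ((hdvd l hl).1 hlm).1 ((hdvd l hl).1 hlm).2,
        hodd l hl ((hdvd l hl).1 hlm).1 ((hdvd l hl).1 hlm).2⟩
    have hunr : ∀ (p : ℕ), p.Prime → ¬ p ∣ m' → p ≠ 2 → ∀ v : HeightOneSpectrum (𝓞 K),
        (p : 𝓞 K) ∈ v.asIdeal → v.valuation K (p : K) = exp (-1 : ℤ) := fun p hp hpm hp2 v hv =>
      unr_of_disc K hp (fun h => hpm ((hdvd p hp).2 ⟨hp2, h⟩)) v hv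
    rcases lt_or_gt_of_ne hΔ with hneg | hpos
    · have hcard := card_odd W hΔ hnr hfin
      have hsel := sel_mainG W hΔ2 ha1 m hmo M K ι n hn hneg hnr hsha hfin hcard h2d m' hm hunr htam
      obtain ⟨h1, h2, h3⟩ := Pool.Agent.Y355.G.s_desc W hΔ K hsel hnrK
      exact ⟨h2, h1⟩
    · have hre : ∀ v : InfinitePlace K, v.IsReal := by
        intro v
        have hcx' := hcx hpos
        rw [InfinitePlace.nrComplexPlaces, Fintype.card_eq_zero_iff] at hcx'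
        by_contra hv
        exact hcx'.false ⟨v, InfinitePlace.not_isReal_iff_isComplex.1 hv⟩
      have hsQ := selT_of W ℚ hΔ hnr hfin hsha
      have hSK := selT_upG W hΔ hΔ2 ha1 m hmo M K ι n hn hnr hsQ hre h2d m' hm hunr htam
      exact ⟨finite_of_selT W hΔ hSK, fun s hs => sha_two W hΔ hSK s hs⟩
  · refine alg_up W hΔ hnr K n hn (fun l hl hld => ?_) htam h ⟨hA.1, fun l hl hld => ?_⟩
    · refine hco l hl ?_ hld
      rintro rfl
      exact h2d (by exact_mod_cast hld)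
    · refine hA.2 l hl ?_ hld
      rintro rfl
      exact h2d (by exact_mod_cast hld)

end main

end Pool.Agent.K4H53.CX
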