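import Pool.Agent.K4H53.BSX.Defs
import Pool.Agent.K4H53.CX.Cnd
import Pool.Agent.K4H77.CX.Eqv
import Pool.Agent.R425.P.Lt
import Pool.Agent.R425.P.Pr
import Pool.Agent.R425.P.Pc
import Pool.Agent.Y288.G.Perr
import Pool.Agent.Y288.G.Perc
import Pool.Agent.Y255.LT.Fin

/-!
# The values over any abelian extension of degree a power of two
-/

set_option autoImplicit false

open NumberField NumberField.InfinitePlace IsDedekindDomain WeierstrassCurve MeasureTheory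
open UpperHalfPlane MatrixGroups CongruenceSubgroup

namespace Pool.Agent.K4H53.CX

open scoped Classical

open Pool.Agent.TH841.NF.D (Sha)
open Pool.Agent.K4H53.BSX.D

section proof

open Pool.Agent.Y702

/-- the values, positive discriminant -/
theorem values_pos {N : ℕ} [NeZero N] (W : WeierstrassCurve ℤ) (hΔ : 0 < W.Δ)
    (f : CuspForm (Gamma0 N : Subgroup (GL (Fin 2) ℝ)) 2) (hS : SX W N f)
    (Λ : PeriodPair) (hg₂ : Λ.g₂ = (W.c₄ : ℂ) / 12) (hg₃ : Λ.g₃ = (W.c₆ : ℂ) / 216)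
    (hman : ∃ c : ℤ, Odd c ∧ ∀ γ ∈ Gamma0 N, ∀ z : ℍ,
      (c : ℂ) * (prim f ((γ • z : ℍ) : ℂ) - prim f (z : ℂ)) ∈ Λ.lattice)
    (q : ℕ) (hq : q.Prime) (hqΔ : ¬ (q : ℤ) ∣ 2 * W.Δ) (hqo : Odd ((q : ℤ) - pts W (ZMod q)))
    (m : ℕ) [NeZero m]
    (M : Type) [Field M] [NumberField M] [IsCyclotomicExtension {m} ℚ M]
    (K : IntermediateField ℚ M) (hGQ : ∀ χ ∈ H300.HW.YY m M K, GQ N χ.conductor)
    (hdisc : (discr K).natAbs = ∏ᶠ χ : H300.HW.YY m M K, (χ : DirichletCharacter ℂ m).conductor)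
    (n : ℕ) (hn : Module.finrank ℚ K = 2 ^ n)
    (htK : Odd (Nat.card (tors K W))) (htQ : Odd (Nat.card (tors ℚ W))) :
    Omega ℚ W ≠ 0 ∧ Omega K W ≠ 0 ∧
    ∃ x₀ x : ℚ, HasValue ℚ W x₀ ∧ HasValue K W x ∧ Odd x₀.den ∧ Odd x.den ∧
      (Odd x.num ↔ Odd x₀.num ∧ (nrComplexPlaces K = 0 ∧ AK W K)) := by
  have hfI := hS.form
  -- the lattice
  obtain ⟨Op, Om, hOp, hOm, hlat⟩ := Pool.Agent.R425.P.latP Λ ((W.c₄ : ℝ) / 12)
    ((W.c₆ : ℝ) / 216)
    (by rw [hg₂]; push_cast; rfl) (by rw [hg₃]; push_cast; rfl) (by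
      have h1 : (1728 : ℝ) * W.Δ = (W.c₄ : ℝ) ^ 3 - (W.c₆ : ℝ) ^ 2 := by
        exact_mod_cast congrArg (fun x : ℤ => (x : ℝ)) W.c_relation
      have h2 : 0 < (W.Δ : ℝ) := by exact_mod_cast hΔ
      have h3 : ((W.c₄ : ℝ) / 12) ^ 3 - 27 * ((W.c₆ : ℝ) / 216) ^ 2 = (W.Δ : ℝ) := by
        linear_combination (-1 / 1728 : ℝ) * h1
      rw [h3]
      exact h2)
  have hreal : realPeriod W = 2 * Op := by
    unfold realPeriod
    simp_rw [cubic_eq]
    rw [Pool.Agent.R425.P.s_perrP W Λ Op Om hOp hOm hg₂ hg₃ hlat]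
  have hcomp : complexPeriod W = 2 * Op * Om := by
    unfold complexPeriod
    simp_rw [cubic_eq]
    rw [Pool.Agent.R425.P.s_percP W Λ Op Om hOp hOm hg₂ hg₃ hlat]
    ring
  have hOmega : ∀ (F : Type) [Field F] [NumberField F],
      Omega F W = (2 * Op) ^ nrRealPlaces F * (2 * Op * Om) ^ nrComplexPlaces F := by
    intro F _ _
    unfold Omega
    rw [hreal, hcomp]
  have hOmega0 : ∀ (F : Type) [Field F] [NumberField F], Omega F W ≠ 0 := by
    intro F _ _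
    rw [hOmega]
    positivity
  have hOQ : Omega ℚ W = 2 * Op := by
    rw [hOmega, nrRealPlaces_eq_one_of_finrank_eq_one (Module.finrank_self ℚ),
      nrComplexPlaces_eq_zero_of_finrank_eq_one (Module.finrank_self ℚ), pow_one, pow_zero, mul_one]
  -- the periods of the form
  obtain ⟨cc, hcc, hman'⟩ := hman
  have hqN : ¬ q ∣ N := by
    intro h
    exact hqΔ (((hfI.level q hq).1 h).mul_left 2)
  have hq2 : q ≠ 2 := by
    rintro rfl
    exact hqΔ (Dvd.intro _ rfl)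
  obtain ⟨s, t, hPer⟩ := Pool.Agent.R425.P.exists_perP hOp hOm hlat hcc (f := f) (by
    rintro x ⟨γ, rfl⟩
    have h1 := Pool.Agent.Y18.BSD.per_spec f (Additive.toMul γ) UpperHalfPlane.I
    have h2 := hman' _ (Additive.toMul γ).2 UpperHalfPlane.I
    have h3 : prim f ((((Additive.toMul γ : Gamma0 N) : SL(2, ℤ)) • UpperHalfPlane.I : ℍ) : ℂ) -
        prim f (UpperHalfPlane.I : ℂ) = Pool.Agent.Y18.BSD.per f (Additive.toMul γ) := by
      have h4 : prim f ((((Additive.toMul γ : Gamma0 N) : SL(2, ℤ)) • UpperHalfPlane.I : ℍ) : ℂ) =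
          prim f (UpperHalfPlane.I : ℂ) + Pool.Agent.Y18.BSD.per f (Additive.toMul γ) := h1
      rw [h4]
      ring
    rw [h3] at h2
    exact h2) hfI hq hqN hq2 hqo
  obtain ⟨ae, mo, hmo, hme⟩ := Nat.exists_eq_two_pow_mul_odd (NeZero.ne m)
  have hcond := cond_iff hfI.level ae mo m hmo hme M K n hn hdisc
  obtain ⟨H, hHd, hHp, him, D, M', hDo, hMo, hval⟩ := l_mainP
    hΔ.ne' hS hPer hq hqN hq2 hqo m M K hGQ hdisc n hn
  -- the value over `ℚ`
  obtain ⟨x₀, hx₀, hx₀d, hx₀n⟩ : ∃ x₀ : ℚ, HasValue ℚ W x₀ ∧ Odd x₀.den ∧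
      (Odd x₀.num ↔ Odd s) := by
    obtain ⟨L₀, hL1, hL2, hL3⟩ := Pool.Agent.R425.G.exists_LQ hfI
    refine value_of W hL1 hL2 (r := (s : ℝ) / t * (2 * Op)) ?_ hPer.t_odd htQ ?_
    · have ht0 : (t : ℂ) ≠ 0 := by
        have h3 := hPer.t_odd
        have h4 : t ≠ 0 := by
          rintro rfl
          exact absurd h3 (by decide)
        exact_mod_cast h4
      have h3 : L₀ 1 = (s : ℂ) / t * (2 * Op) := by
        rw [hL3, div_mul_eq_mul_div, eq_div_iff ht0, mul_comm, hPer.val]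
      rw [h3]
      push_cast
      ring
    · have ht0 : (t : ℝ) ≠ 0 := by
        have h3 := hPer.t_odd
        have h4 : t ≠ 0 := by
          rintro rfl
          exact absurd h3 (by decide)
        exact_mod_cast h4
      rw [hOQ]
      simp only [Rat.numberField_discr, Int.cast_one, abs_one, Real.sqrt_one, mul_one]
      rw [abs_mul, abs_div, abs_of_pos (show (0 : ℝ) < 2 * Op by positivity), ← mul_assoc,
        mul_div_cancel₀ _ (abs_ne_zero.2 ht0)]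
  -- the value over `K`
  obtain ⟨x, hx, hxd, hxn⟩ : ∃ x : ℚ, HasValue K W x ∧ Odd x.den ∧ (Odd x.num ↔ Odd M') := by
    have hre : H 1 = ((H 1).re : ℂ) := Complex.ext rfl (by rw [him]; rfl)
    have hnorm : ‖H 1‖ = |(H 1).re| := by
      rw [hre, Complex.norm_real, Real.norm_eq_abs, Complex.ofReal_re]
    refine value_of W hHd hHp hre hDo htK ?_
    rw [hOmega K, ← hval, hnorm]
  refine ⟨hOmega0 ℚ, hOmega0 K, x₀, x, hx₀, hx, hx₀d, hxd, ?_⟩
  rw [hxn, hMo, hx₀n, hcond]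

/-- the values, negative discriminant -/
theorem values_neg {N : ℕ} [NeZero N] (W : WeierstrassCurve ℤ) (hΔ : W.Δ < 0)
    (f : CuspForm (Gamma0 N : Subgroup (GL (Fin 2) ℝ)) 2) (hS : SX W N f)
    (Λ : PeriodPair) (hg₂ : Λ.g₂ = (W.c₄ : ℂ) / 12) (hg₃ : Λ.g₃ = (W.c₆ : ℂ) / 216)
    (hman : ∃ c : ℤ, Odd c ∧ ∀ γ ∈ Gamma0 N, ∀ z : ℍ,
      (c : ℂ) * (prim f ((γ • z : ℍ) : ℂ) - prim f (z : ℂ)) ∈ Λ.lattice)
    (q : ℕ) (hq : q.Prime) (hqΔ : ¬ (q : ℤ) ∣ 2 * W.Δ) (hqo : Odd ((q : ℤ) - pts W (ZMod q)))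
    (m : ℕ) [NeZero m]
    (M : Type) [Field M] [NumberField M] [IsCyclotomicExtension {m} ℚ M]
    (K : IntermediateField ℚ M) (hGQ : ∀ χ ∈ H300.HW.YY m M K, GQ N χ.conductor)
    (hdisc : (discr K).natAbs = ∏ᶠ χ : H300.HW.YY m M K, (χ : DirichletCharacter ℂ m).conductor)
    (n : ℕ) (hn : Module.finrank ℚ K = 2 ^ n)
    (htK : Odd (Nat.card (tors K W))) (htQ : Odd (Nat.card (tors ℚ W))) :
    Omega ℚ W ≠ 0 ∧ Omega K W ≠ 0 ∧
    ∃ x₀ x : ℚ, HasValue ℚ W x₀ ∧ HasValue K W x ∧ Odd x₀.den ∧ Odd x.den ∧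
      (Odd x.num ↔ Odd x₀.num ∧ AK W K) := by
  have hfI := hS.form
  -- the lattice
  obtain ⟨Op, Om, hOp, hOm, hlat⟩ := Pool.Agent.Y255.LT.s_lat Λ ((W.c₄ : ℝ) / 12)
    ((W.c₆ : ℝ) / 216)
    (by rw [hg₂]; push_cast; rfl) (by rw [hg₃]; push_cast; rfl) (by
      have h1 : (1728 : ℝ) * W.Δ = (W.c₄ : ℝ) ^ 3 - (W.c₆ : ℝ) ^ 2 := by
        exact_mod_cast congrArg (fun x : ℤ => (x : ℝ)) W.c_relation
      have h2 : (W.Δ : ℝ) < 0 := by exact_mod_cast hΔ
      have h3 : ((W.c₄ : ℝ) / 12) ^ 3 - 27 * ((W.c₆ : ℝ) / 216) ^ 2 = (W.Δ : ℝ) := by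
        linear_combination (-1 / 1728 : ℝ) * h1
      rw [h3]
      exact h2)
  have hreal : realPeriod W = 2 * Op := by
    unfold realPeriod
    simp_rw [cubic_eq]
    rw [Pool.Agent.Y288.G.s_perr W hΔ Λ Op Om hOp hOm hg₂ hg₃ hlat]
  have hcomp : complexPeriod W = 4 * Op * Om := by
    unfold complexPeriod
    simp_rw [cubic_eq]
    rw [Pool.Agent.Y288.G.s_perc W hΔ Λ Op Om hOp hOm hg₂ hg₃ hlat]
    ring
  have hOmega : ∀ (F : Type) [Field F] [NumberField F],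
      Omega F W = (2 * Op) ^ nrRealPlaces F * (4 * Op * Om) ^ nrComplexPlaces F := by
    intro F _ _
    unfold Omega
    rw [hreal, hcomp]
  have hOmega0 : ∀ (F : Type) [Field F] [NumberField F], Omega F W ≠ 0 := by
    intro F _ _
    rw [hOmega]
    positivity
  have hOQ : Omega ℚ W = 2 * Op := by
    rw [hOmega, nrRealPlaces_eq_one_of_finrank_eq_one (Module.finrank_self ℚ),
      nrComplexPlaces_eq_zero_of_finrank_eq_one (Module.finrank_self ℚ), pow_one, pow_zero, mul_one]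
  -- the periods of the form
  obtain ⟨cc, hcc, hman'⟩ := hman
  have hqN : ¬ q ∣ N := by
    intro h
    exact hqΔ (((hfI.level q hq).1 h).mul_left 2)
  have hq2 : q ≠ 2 := by
    rintro rfl
    exact hqΔ (Dvd.intro _ rfl)
  obtain ⟨s, t, hPer⟩ := Pool.Agent.R425.G.exists_perA hOp hOm hlat hcc (f := f) (by
    rintro x ⟨γ, rfl⟩
    have h1 := Pool.Agent.Y18.BSD.per_spec f (Additive.toMul γ) UpperHalfPlane.I
    have h2 := hman' _ (Additive.toMul γ).2 UpperHalfPlane.I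
    have h3 : prim f ((((Additive.toMul γ : Gamma0 N) : SL(2, ℤ)) • UpperHalfPlane.I : ℍ) : ℂ) -
        prim f (UpperHalfPlane.I : ℂ) = Pool.Agent.Y18.BSD.per f (Additive.toMul γ) := by
      have h4 : prim f ((((Additive.toMul γ : Gamma0 N) : SL(2, ℤ)) • UpperHalfPlane.I : ℍ) : ℂ) =
          prim f (UpperHalfPlane.I : ℂ) + Pool.Agent.Y18.BSD.per f (Additive.toMul γ) := h1
      rw [h4]
      ring
    rw [h3] at h2
    exact h2) hfI hq hqN hq2 hqo
  obtain ⟨ae, mo, hmo, hme⟩ := Nat.exists_eq_two_pow_mul_odd (NeZero.ne m)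
  have hcond := cond_iff hfI.level ae mo m hmo hme M K n hn hdisc
  obtain ⟨H, hHd, hHp, him, D, M', hDo, hMo, hval⟩ := l_mainA
    hΔ.ne hS hPer hq hqN hq2 hqo m M K hGQ hdisc n hn
  -- the value over `ℚ`
  obtain ⟨x₀, hx₀, hx₀d, hx₀n⟩ : ∃ x₀ : ℚ, HasValue ℚ W x₀ ∧ Odd x₀.den ∧
      (Odd x₀.num ↔ Odd s) := by
    obtain ⟨L₀, hL1, hL2, hL3⟩ := Pool.Agent.R425.G.exists_LQ hfI
    refine value_of W hL1 hL2 (r := (s : ℝ) / t * (2 * Op)) ?_ hPer.t_odd htQ ?_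
    · have ht0 : (t : ℂ) ≠ 0 := by
        have h3 := hPer.t_odd
        have h4 : t ≠ 0 := by
          rintro rfl
          exact absurd h3 (by decide)
        exact_mod_cast h4
      have h3 : L₀ 1 = (s : ℂ) / t * (2 * Op) := by
        rw [hL3, div_mul_eq_mul_div, eq_div_iff ht0, mul_comm, hPer.val]
      rw [h3]
      push_cast
      ring
    · have ht0 : (t : ℝ) ≠ 0 := by
        have h3 := hPer.t_odd
        have h4 : t ≠ 0 := by
          rintro rfl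
          exact absurd h3 (by decide)
        exact_mod_cast h4
      rw [hOQ]
      simp only [Rat.numberField_discr, Int.cast_one, abs_one, Real.sqrt_one, mul_one]
      rw [abs_mul, abs_div, abs_of_pos (show (0 : ℝ) < 2 * Op by positivity), ← mul_assoc,
        mul_div_cancel₀ _ (abs_ne_zero.2 ht0)]
  -- the value over `K`
  obtain ⟨x, hx, hxd, hxn⟩ : ∃ x : ℚ, HasValue K W x ∧ Odd x.den ∧ (Odd x.num ↔ Odd M') := by
    have hre : H 1 = ((H 1).re : ℂ) := Complex.ext rfl (by rw [him]; rfl)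
    have hnorm : ‖H 1‖ = |(H 1).re| := by
      rw [hre, Complex.norm_real, Real.norm_eq_abs, Complex.ofReal_re]
    refine value_of W hHd hHp hre hDo htK ?_
    rw [hOmega K, ← hval, hnorm]
  refine ⟨hOmega0 ℚ, hOmega0 K, x₀, x, hx₀, hx, hx₀d, hxd, ?_⟩
  rw [hxn, hMo, hx₀n, hcond]

end proof

end Pool.Agent.K4H53.CX
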